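import Pool.Agent.Lib.JM_H15.Final3
import Pool.Agent.Lib.JMF.Emb

/-!
# JM69: strong Jonsson–Mustață, affine form. Basic definitions (OWNER: helper69)
-/

set_option autoImplicit false

open MvPolynomial

namespace Pool.Agent.JM69

open Pool.Agent.H15JM

variable {k : Type} [Field k]

/-- `A` bounds all `∑ w(f_i) - w(J(f))`. -/
def ABd {F : Type} [Field F] [Algebra k F] {m : ℕ} (D : Fin m → Derivation k F F) (w : RVal F)
    (A : ℝ) : Prop :=
  ∀ f : Fin m → F, jacD D f ≠ 0 → ∑ i, w (f i) - w (jacD D f) ≤ A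

/-- Restriction of a valuation. -/
abbrev comap {F L : Type*} [Field F] [Field L] (w : RVal L) (φ : F →+* L) : RVal F :=
  JMF.rcomap φ w

theorem comap_apply {F L : Type*} [Field F] [Field L] (w : RVal L) (φ : F →+* L) (x : F) :
    comap w φ x = w (φ x) := rfl

theorem rename_succ_injective {m : ℕ} :
    Function.Injective (rename (R := k) (Fin.succ : Fin m → Fin (m + 1))) :=
  rename_injective _ (Fin.succ_injective m)

/-- The embedding of `k(X_0..X_{m-1})` in `k(X_0..X_m)`, `X_i ↦ X_{i+1}`; the new variable is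
`X_0`. (helper83's `JMF.emb`.) -/
noncomputable abbrev emb (k : Type) [Field k] (m : ℕ) : FF k m →ₐ[k] FF k (m + 1) :=
  JMF.emb (k := k) (m := m)

theorem emb_toFF {m : ℕ} (p : MvPolynomial (Fin m) k) :
    emb k m (toFF p) = toFF (rename Fin.succ p) := JMF.emb_toFF p

theorem pderiv_zero_rename {m : ℕ} (p : MvPolynomial (Fin m) k) :
    pderiv 0 (rename Fin.succ p : MvPolynomial (Fin (m + 1)) k) = 0 := JMF.pderiv_zero_embP p

theorem pderiv_succ_rename {m : ℕ} (j : Fin m) (p : MvPolynomial (Fin m) k) :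
    pderiv j.succ (rename Fin.succ p : MvPolynomial (Fin (m + 1)) k)
      = rename Fin.succ (pderiv j p) := JMF.pderiv_succ_embP j p

theorem pd_zero_emb {m : ℕ} (f : FF k m) : pd 0 (emb k m f) = 0 := JMF.pd_zero_emb f

theorem pd_succ_emb {m : ℕ} (j : Fin m) (f : FF k m) :
    pd j.succ (emb k m f) = emb k m (pd j f) := JMF.pd_succ_emb j f

/-- The class of test valuations. -/
def Cls (m : ℕ) (x : MvPolynomial (Fin m) k) (α B : ℝ) (w : RVal (FF k m)) : Prop :=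
  (∀ p : MvPolynomial (Fin m) k, p ≠ 0 → 0 ≤ w (toFF p)) ∧ w (toFF x) = α ∧ ABd pd w B

/-- The inductive statement `S_m`. -/
def SS (m : ℕ) (v : RVal (FF k m)) (A : ℝ) (x : MvPolynomial (Fin m) k) (α : ℝ) : Prop :=
  ∃ p κ a₀ : ℝ, 0 < p ∧ 0 < κ ∧ 0 < a₀ ∧
    ∀ s : Finset ℝ, (∀ a ∈ s, 0 < a ∧ a < a₀) → ∀ ε > 0, ∀ l₀ : ℝ, ∃ l : ℝ, l₀ ≤ l ∧
      ∀ a ∈ s, ∃ g : MvPolynomial (Fin m) k, g ≠ 0 ∧ (g.totalDegree : ℝ) ≤ p * l ∧
        v (toFF g) ≤ l - κ * a * l ∧
        ∀ w : RVal (FF k m), Cls m x α (A - a) w → ∃ f : MvPolynomial (Fin m) k, f ≠ 0 ∧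
          (f.totalDegree : ℝ) ≤ p * l ∧ l ≤ v (toFF f) ∧ w (toFF f) ≤ w (toFF g) + ε * l

/-- The polynomial in the variable `X_0`, with coefficients in a ring `Ω` over the field of the
other variables. -/
noncomputable def zpoly {m : ℕ} {Ω : Type} [Field Ω] (φ : FF k m →+* Ω)
    (h : MvPolynomial (Fin (m + 1)) k) : Polynomial Ω :=
  (finSuccEquiv k m h).map (φ.comp (toFF (k := k) (n := m)).toRingHom)

/-- The resultant with respect to `X_0`, formal degrees `(D, D)`. -/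
noncomputable def Rs {m : ℕ} (D : ℕ) (f g : MvPolynomial (Fin (m + 1)) k) :
    MvPolynomial (Fin m) k :=
  (finSuccEquiv k m f).resultant (finSuccEquiv k m g) D D

/-- The family `𝒜` (with `0` included). -/
def Fam {m : ℕ} (v : RVal (FF k (m + 1))) (D : ℕ) (E l : ℝ) :
    Set (MvPolynomial (Fin (m + 1)) k) :=
  {f | (finSuccEquiv k m f).natDegree ≤ D ∧ (f.totalDegree : ℝ) ≤ E ∧ v.Ge l (toFF f)}

/-- `V` is the Gauss value of the polynomial `P` for the radius `ρ`, `Q` the smallest index that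
attains it. -/
def IsGP {Ω : Type*} [Field Ω] (W : RVal Ω) (ρ : ℝ) (P : Polynomial Ω) (V : ℝ) (Q : ℕ) : Prop :=
  P.coeff Q ≠ 0 ∧ W (P.coeff Q) + Q * ρ = V ∧
    (∀ m, P.coeff m ≠ 0 → V ≤ W (P.coeff m) + m * ρ) ∧
    (∀ m, m < Q → P.coeff m ≠ 0 → V < W (P.coeff m) + m * ρ)

end Pool.Agent.JM69
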