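import Pool.Agent.Lib.JM69.TayRow
import Pool.Agent.Lib.JMF.Newton

/-!
# Row BRIDGE: Gauss values along `pd 0` and Gauss values of `zpoly` at the tautological point
(OWNER: helper80)
-/

set_option autoImplicit false

open MvPolynomial

namespace Pool.Agent.JM69

open Pool.Agent.H15JM

variable {k : Type} [Field k] {m : ℕ}

section
variable {Ω : Type} [Field Ω] [Algebra (FF k (m + 1)) Ω]

/-- The value of `zpoly` at the tautological point. -/
theorem zpoly_eval_tautAlg (p : MvPolynomial (Fin (m + 1)) k) :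
    (zpoly ((algebraMap (FF k (m + 1)) Ω).comp (emb k m).toRingHom) p).eval
      (algebraMap (FF k (m + 1)) Ω (toFF (X 0))) = algebraMap (FF k (m + 1)) Ω (toFF p) := by
  rw [zpoly_comp, Polynomial.eval_map_apply, zpoly_eval]

/-- The Taylor coefficients at the tautological point are the Hasse derivatives. -/
theorem taylor_coeff_tautAlg [CharZero k] (j : ℕ) (p : MvPolynomial (Fin (m + 1)) k) :
    ((zpoly ((algebraMap (FF k (m + 1)) Ω).comp (emb k m).toRingHom) p).taylor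
      (algebraMap (FF k (m + 1)) Ω (toFF (X 0)))).coeff j
      = algebraMap (FF k (m + 1)) Ω (dd (pd 0) j (toFF p)) := by
  rw [taylor_coeff_eq, zpoly_eval_tautAlg, toFF_hsd]

variable [CharZero k] (v : RVal (FF k (m + 1))) (W : RVal Ω)
  (hW : ∀ y : FF k (m + 1), y ≠ 0 → W (algebraMap (FF k (m + 1)) Ω y) = v y)

include hW

/-- The bridge. -/
theorem isG_iff_isGP (ρ : ℝ) (f : MvPolynomial (Fin (m + 1)) k) (V : ℝ) (Q : ℕ) :
    IsG v (pd 0) ρ (toFF f) V Q ↔
      IsGP W ρ ((zpoly ((algebraMap (FF k (m + 1)) Ω).comp (emb k m).toRingHom) f).taylor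
        (algebraMap (FF k (m + 1)) Ω (toFF (X 0)))) V Q := by
  have h0 : ∀ j : ℕ, algebraMap (FF k (m + 1)) Ω (dd (pd 0) j (toFF f)) ≠ 0 ↔
      dd (pd 0) j (toFF f) ≠ 0 := fun j =>
    (map_ne_zero_iff _ (algebraMap (FF k (m + 1)) Ω).injective)
  have hv : ∀ j : ℕ, dd (pd 0) j (toFF f) ≠ 0 →
      W (algebraMap (FF k (m + 1)) Ω (dd (pd 0) j (toFF f))) = v (dd (pd 0) j (toFF f)) :=
    fun j hj => hW _ hj
  simp only [IsG, IsGP, taylor_coeff_tautAlg, h0]
  constructor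
  · rintro ⟨h1, h2, h3, h4⟩
    refine ⟨h1, by rw [hv Q h1]; exact h2, fun j hj => by rw [hv j hj]; exact h3 j hj,
      fun j hjQ hj => by rw [hv j hj]; exact h4 j hjQ hj⟩
  · rintro ⟨h1, h2, h3, h4⟩
    refine ⟨h1, by rw [← hv Q h1]; exact h2, fun j hj => by rw [← hv j hj]; exact h3 j hj,
      fun j hjQ hj => by rw [← hv j hj]; exact h4 j hjQ hj⟩

end

/-- `IsGP` is helper39's `IsN`. -/
theorem isGP_iff_isN {Ω : Type*} [Field Ω] (W : RVal Ω) (ρ : ℝ) (P : Polynomial Ω) (V : ℝ)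
    (Q : ℕ) : IsGP W ρ P V Q ↔ JMF.IsN W ρ P V Q := Iff.rfl

end Pool.Agent.JM69
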