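import Pool.Agent.Lib.JM69.Base
import Pool.Agent.Lib.JMF.SApi

/-!
# Row CPT: the class of test valuations is compact (OWNER: helper96)
-/

set_option autoImplicit false

open MvPolynomial

namespace Pool.Agent.JM69

open Pool.Agent.H15JM

variable {k : Type} [Field k] [CharZero k]

/-- The class of test valuations, as a set of functions (value `0` at `0`). -/
def clsSet {n : ℕ} (x : MvPolynomial (Fin n) k) (α B : ℝ) : Set (FF k n → ℝ) :=
  {φ | ∃ w : RVal (FF k n), Cls n x α B w ∧ φ 0 = 0 ∧ ∀ f, f ≠ 0 → φ f = w f}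

omit [CharZero k] in
theorem isClosed_cls {n : ℕ} (x : MvPolynomial (Fin n) k) (α B : ℝ) :
    IsClosed (clsSet x α B) := by
  classical
  have c : ∀ f : FF k n, Continuous fun φ : FF k n → ℝ => φ f := fun f => continuous_apply f
  have h1 : IsClosed {φ : FF k n → ℝ | φ 0 = 0} := isClosed_eq (c 0) continuous_const
  have h2 : ∀ y z : FF k n, IsClosed {φ : FF k n → ℝ | φ (y * z) = φ y + φ z} :=
    fun y z => isClosed_eq (c _) ((c _).add (c _))
  have h3 : ∀ y z : FF k n, IsClosed {φ : FF k n → ℝ | min (φ y) (φ z) ≤ φ (y + z)} :=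
    fun y z => isClosed_le ((c _).min (c _)) (c _)
  have h4 : ∀ p : MvPolynomial (Fin n) k, IsClosed {φ : FF k n → ℝ | 0 ≤ φ (toFF p)} :=
    fun p => isClosed_le continuous_const (c _)
  have h5 : IsClosed {φ : FF k n → ℝ | φ (toFF x) = α} := isClosed_eq (c _) continuous_const
  have h6 : ∀ f : Fin n → FF k n,
      IsClosed {φ : FF k n → ℝ | ∑ i, φ (f i) - φ (jacD pd f) ≤ B} :=
    fun f => isClosed_le ((continuous_finsetSum _ fun i _ => c (f i)).sub (c _)) continuous_const
  have key : clsSet x α B = {φ : FF k n → ℝ | φ 0 = 0} ∩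
      ((⋂ y : FF k n, ⋂ z : FF k n, ⋂ _ : y ≠ 0, ⋂ _ : z ≠ 0,
        {φ : FF k n → ℝ | φ (y * z) = φ y + φ z}) ∩
      ((⋂ y : FF k n, ⋂ z : FF k n, ⋂ _ : y ≠ 0, ⋂ _ : z ≠ 0, ⋂ _ : y + z ≠ 0,
        {φ : FF k n → ℝ | min (φ y) (φ z) ≤ φ (y + z)}) ∩
      ((⋂ p : MvPolynomial (Fin n) k, ⋂ _ : p ≠ 0, {φ : FF k n → ℝ | 0 ≤ φ (toFF p)}) ∩
      ((⋂ _ : x ≠ 0, {φ : FF k n → ℝ | φ (toFF x) = α}) ∩
      (⋂ f : Fin n → FF k n, ⋂ _ : jacD pd f ≠ 0,
        {φ : FF k n → ℝ | ∑ i, φ (f i) - φ (jacD pd f) ≤ B}))))) := by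
    ext φ
    simp only [Set.mem_inter_iff, Set.mem_iInter, Set.mem_ofPred_eq, clsSet]
    constructor
    · rintro ⟨w, ⟨hw1, hw2, hw3⟩, h0, hf⟩
      refine ⟨h0, ?_, ?_, ?_, ?_, ?_⟩
      · intro y z hy hz
        rw [hf _ (mul_ne_zero hy hz), hf _ hy, hf _ hz, w.map_mul hy hz]
      · intro y z hy hz hyz
        rw [hf _ hyz, hf _ hy, hf _ hz]
        exact w.map_add hy hz hyz
      · intro p hp
        rw [hf _ (toFF_ne_zero hp)]
        exact hw1 p hp
      · intro hx
        rw [hf _ (toFF_ne_zero hx)]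
        exact hw2
      · intro f hJ
        rw [hf _ hJ]
        have : ∑ i, φ (f i) = ∑ i, w (f i) :=
          Finset.sum_congr rfl fun i _ => hf _ (JMF.jacD_ne_zero_of pd f hJ i)
        rw [this]
        exact hw3 f hJ
    · rintro ⟨h0, hm, ha, hp, hx, hJ⟩
      refine ⟨⟨fun f => if f = 0 then α else φ f, ?_, ?_⟩, ⟨?_, ?_, ?_⟩, h0, ?_⟩
      · intro y z hy hz
        rw [if_neg hy, if_neg hz, if_neg (mul_ne_zero hy hz)]
        exact hm y z hy hz
      · intro y z hy hz hyz
        rw [if_neg hy, if_neg hz, if_neg hyz]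
        exact ha y z hy hz hyz
      · intro p hp0
        change 0 ≤ if toFF p = 0 then α else φ (toFF p)
        rw [if_neg (toFF_ne_zero hp0)]
        exact hp p hp0
      · change (if toFF x = 0 then α else φ (toFF x)) = α
        by_cases h : x = 0
        · rw [if_pos (by rw [h, map_zero])]
        · rw [if_neg (toFF_ne_zero h)]
          exact hx h
      · intro f hf
        change ∑ i, (if f i = 0 then α else φ (f i)) - (if jacD pd f = 0 then α else φ (jacD pd f)) ≤ B
        rw [if_neg hf]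
        have : ∑ i, (if f i = 0 then α else φ (f i)) = ∑ i, φ (f i) :=
          Finset.sum_congr rfl fun i _ => if_neg (JMF.jacD_ne_zero_of pd f hf i)
        rw [this]
        exact hJ f hf
      · intro f hf
        exact (if_neg hf).symm
  rw [key]
  refine h1.inter (IsClosed.inter ?_ (IsClosed.inter ?_ (IsClosed.inter ?_
    (IsClosed.inter ?_ ?_))))
  · exact isClosed_iInter fun y => isClosed_iInter fun z => isClosed_iInter fun _ =>
      isClosed_iInter fun _ => h2 y z
  · exact isClosed_iInter fun y => isClosed_iInter fun z => isClosed_iInter fun _ =>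
      isClosed_iInter fun _ => isClosed_iInter fun _ => h3 y z
  · exact isClosed_iInter fun p => isClosed_iInter fun _ => h4 p
  · exact isClosed_iInter fun _ => h5
  · exact isClosed_iInter fun f => isClosed_iInter fun _ => h6 f

/-- ROW CPT. The class of test valuations is compact in the topology of pointwise convergence. -/
theorem isCompact_cls {n : ℕ} (x : MvPolynomial (Fin n) k) (α B : ℝ) :
    IsCompact {φ : FF k n → ℝ | ∃ w : RVal (FF k n), Cls n x α B w ∧ φ 0 = 0 ∧
      ∀ f, f ≠ 0 → φ f = w f} := by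
  classical
  have hcl : IsClosed (clsSet x α B) := isClosed_cls x α B
  -- a bound for the values
  have hbd : ∀ f : FF k n, ∃ b : ℝ, ∀ φ ∈ clsSet x α B, φ f ∈ Set.Icc (-b) b := by
    intro f
    by_cases hf : f = 0
    · refine ⟨0, ?_⟩
      rintro φ ⟨w, -, h0, -⟩
      rw [hf, h0, neg_zero]
      exact ⟨le_rfl, le_rfl⟩
    · obtain ⟨p, q, hq, hpq⟩ := exists_frac f
      have hp : p ≠ 0 := by
        intro h
        rw [h, map_zero, zero_div] at hpq
        exact hf hpq
      refine ⟨|(p.totalDegree : ℝ) * B| + |(q.totalDegree : ℝ) * B|, ?_⟩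
      rintro φ ⟨w, ⟨hw1, -, hw3⟩, -, hφ⟩
      have h1 := JMF.izumi_frac hw1 hw3 p q hp hq
      rw [hφ f hf, hpq]
      have h2 := le_abs_self ((p.totalDegree : ℝ) * B)
      have h3 := le_abs_self ((q.totalDegree : ℝ) * B)
      have h4 := abs_nonneg ((p.totalDegree : ℝ) * B)
      have h5 := abs_nonneg ((q.totalDegree : ℝ) * B)
      exact ⟨by linarith [h1.1], by linarith [h1.2]⟩
  choose b hb using hbd
  have hcpt : IsCompact (Set.pi Set.univ fun f : FF k n => Set.Icc (-(b f)) (b f)) :=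
    isCompact_univ_pi fun f => isCompact_Icc
  have hsub : clsSet x α B ⊆ Set.pi Set.univ fun f : FF k n => Set.Icc (-(b f)) (b f) :=
    fun φ hφ f _ => hb f φ hφ
  exact hcpt.of_isClosed_subset hcl hsub

end Pool.Agent.JM69
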