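import Pool.Agent.Lib.JM69.TayRow

/-!
# The polynomials `x^⌈j s / α⌉ f^[j]`
-/

set_option autoImplicit false

open MvPolynomial

namespace Pool.Agent.JM69

open Pool.Agent.H15JM

variable {k : Type} [Field k] {m : ℕ}

/-- `x^⌈j s / α⌉ f^[j]`. -/
noncomputable def hx (x : MvPolynomial (Fin m) k) (α s : ℝ) (j : ℕ)
    (f : MvPolynomial (Fin (m + 1)) k) : MvPolynomial (Fin (m + 1)) k :=
  (rename Fin.succ x) ^ ⌈j * s / α⌉₊ * hsd j f

end Pool.Agent.JM69
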