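import Pool.Agent.Lib.JM69.Res2
import Pool.Agent.Lib.JM69.Hx
import Pool.Agent.Lib.JMF.Thick

/-!
# Row D0 of the descent: the family of test polynomials (OWNER: helper9)
-/

set_option autoImplicit false

open MvPolynomial

namespace Pool.Agent.JM69

open Pool.Agent.H15JM

variable {k : Type} [Field k] [CharZero k] {m : ℕ}

section
variable (v : RVal (FF k (m + 1))) (D : ℕ) (E l : ℝ)

omit [CharZero k] in
theorem Fam.add {f g : MvPolynomial (Fin (m + 1)) k} (hf : f ∈ Fam v D E l)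
    (hg : g ∈ Fam v D E l) : f + g ∈ Fam v D E l := by
  obtain ⟨hf1, hf2, hf3⟩ := hf
  obtain ⟨hg1, hg2, hg3⟩ := hg
  refine ⟨?_, ?_, ?_⟩
  · rw [_root_.map_add]
    exact (Polynomial.natDegree_add_le _ _).trans (max_le hf1 hg1)
  · have h : ((f + g).totalDegree : ℝ) ≤ max (f.totalDegree : ℝ) (g.totalDegree : ℝ) := by
      exact_mod_cast totalDegree_add f g
    exact h.trans (max_le hf2 hg2)
  · rw [_root_.map_add]
    exact hf3.add hg3

omit [CharZero k] in
theorem Fam.val_C (hv0 : ∀ p : MvPolynomial (Fin (m + 1)) k, p ≠ 0 → 0 ≤ v (toFF p)) (c : k)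
    (hc : c ≠ 0) : v (toFF (C c)) = 0 := by
  have h1 := hv0 (C c) (by simpa using hc)
  have h2 := hv0 (C c⁻¹) (by simpa using hc)
  have h3 : v (toFF (C c : MvPolynomial (Fin (m + 1)) k) * toFF (C c⁻¹)) = 0 := by
    rw [← _root_.map_mul, ← C_mul, mul_inv_cancel₀ hc, C_1, _root_.map_one, v.map_one]
  rw [v.map_mul (toFF_ne_zero (by simpa using hc)) (toFF_ne_zero (by simpa using hc))] at h3
  linarith

omit [CharZero k] in
theorem Fam.C_mul (hv0 : ∀ p : MvPolynomial (Fin (m + 1)) k, p ≠ 0 → 0 ≤ v (toFF p))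
    (c : k) {f : MvPolynomial (Fin (m + 1)) k} (hf : f ∈ Fam v D E l) : C c * f ∈ Fam v D E l := by
  obtain ⟨hf1, hf2, hf3⟩ := hf
  refine ⟨?_, ?_, ?_⟩
  · have h : finSuccEquiv k m (C c) = Polynomial.C (C c) := by
      rw [finSuccEquiv_apply]
      simp
    rw [_root_.map_mul, h]
    exact (Polynomial.natDegree_C_mul_le _ _).trans hf1
  · have h : (C c * f).totalDegree ≤ f.totalDegree := by
      have := totalDegree_mul (C c) f
      rwa [totalDegree_C, zero_add] at this
    have h' : ((C c * f).totalDegree : ℝ) ≤ (f.totalDegree : ℝ) := by exact_mod_cast h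
    exact h'.trans hf2
  · by_cases hc : c = 0
    · subst hc
      rw [C_0, zero_mul, _root_.map_zero]
      exact RVal.Ge.zero
    · rw [_root_.map_mul]
      have h1 : v.Ge 0 (toFF (C c : MvPolynomial (Fin (m + 1)) k)) :=
        RVal.Ge.of_le (Fam.val_C v hv0 c hc).ge
      exact (h1.mul hf3).mono (by rw [zero_add])

omit [CharZero k] in
theorem Fam.zero (hE : 0 ≤ E) : (0 : MvPolynomial (Fin (m + 1)) k) ∈ Fam v D E l := by
  refine ⟨?_, ?_, ?_⟩
  · rw [_root_.map_zero]
    simp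
  · simpa using hE
  · rw [_root_.map_zero]
    exact RVal.Ge.zero

omit [CharZero k] in
theorem Fam.sum (hv0 : ∀ p : MvPolynomial (Fin (m + 1)) k, p ≠ 0 → 0 ≤ v (toFF p))
    (hE : 0 ≤ E) {ι : Type} (s : Finset ι) (c : ι → k) (f : ι → MvPolynomial (Fin (m + 1)) k)
    (hf : ∀ i ∈ s, f i ∈ Fam v D E l) : ∑ i ∈ s, C (c i) * f i ∈ Fam v D E l := by
  classical
  induction s using Finset.induction_on with
  | empty =>
    rw [Finset.sum_empty]
    exact Fam.zero v D E l hE
  | insert a s ha ih =>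
    rw [Finset.sum_insert ha]
    exact Fam.add v D E l (Fam.C_mul v D E l hv0 _ (hf a (Finset.mem_insert_self a s)))
      (ih fun i hi => hf i (Finset.mem_insert_of_mem hi))

theorem Fam.val_natCast (hv0 : ∀ p : MvPolynomial (Fin (m + 1)) k, p ≠ 0 → 0 ≤ v (toFF p))
    (j : ℕ) (hj : j ≠ 0) : v ((j : FF k (m + 1))) = 0 := by
  have h := Fam.val_C v hv0 (j : k) (by exact_mod_cast hj)
  rwa [C_eq_coe_nat, _root_.map_natCast] at h

/-- ROW D0a. (4.1) -/
theorem Fam_lower (hv0 : ∀ p : MvPolynomial (Fin (m + 1)) k, p ≠ 0 → 0 ≤ v (toFF p))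
    (s : ℝ) (hs0 : 0 < s) (hs : ∀ g, pd 0 g ≠ 0 → v g - v (pd 0 g) ≤ s)
    (hl : 0 ≤ l) (hD : l ≤ 2 * D * s) (f g : MvPolynomial (Fin (m + 1)) k)
    (hf : f ∈ Fam v D E l) (hg : g ∈ Fam v D E l) :
    (comap v (emb k m).toRingHom).Ge (l ^ 2 / (2 * s)) (toFF (Rs D f g)) := by
  have hchar : CharZero (FF k (m + 1)) :=
    charZero_of_injective_algebraMap (algebraMap k (FF k (m + 1))).injective
  have key : (emb k m).toRingHom (toFF (Rs D f g))
      = ((zpoly (emb k m).toRingHom f).taylor (toFF (X 0))).resultant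
          ((zpoly (emb k m).toRingHom g).taylor (toFF (X 0))) D D := by
    rw [Rs_map, res_taylor]
    · rw [zpoly_natDegree]; exact hf.1
    · rw [zpoly_natDegree]; exact hg.1
  have hcoef : ∀ (h : MvPolynomial (Fin (m + 1)) k) (j : ℕ),
      ((zpoly (emb k m).toRingHom h).taylor (toFF (X 0))).coeff j = dd (pd 0) j (toFF h) := by
    intro h j
    rw [taylor_coeff_eq, zpoly_eval, toFF_hsd]
  have hcoef' : ∀ (h : MvPolynomial (Fin (m + 1)) k) (j : ℕ),
      ((zpoly (emb k m).toRingHom h).taylor (toFF (X 0))).coeff j = toFF (hsd j h) := by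
    intro h j
    rw [taylor_coeff_eq, zpoly_eval]
  have h0 : ∀ (h : MvPolynomial (Fin (m + 1)) k) (j : ℕ),
      v.Ge 0 (((zpoly (emb k m).toRingHom h).taylor (toFF (X 0))).coeff j) := by
    intro h j
    rw [hcoef']
    intro hne
    exact hv0 _ (by rintro h1; exact hne (by rw [h1, _root_.map_zero]))
  have h1 : ∀ (h : MvPolynomial (Fin (m + 1)) k) (_ : h ∈ Fam v D E l) (j : ℕ),
      v.Ge (l - j * s) (((zpoly (emb k m).toRingHom h).taylor (toFF (X 0))).coeff j) := by
    intro h hh j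
    rw [hcoef]
    by_cases hz : h = 0
    · rw [hz, _root_.map_zero, dd_map_zero]
      exact RVal.Ge.zero
    · refine (ge_dd v (fun i hi => Fam.val_natCast v hv0 i hi) (pd 0) s hs (toFF h) j).mono ?_
      have := hh.2.2 (toFF_ne_zero hz)
      linarith
  have hmain := res_lower v D _ _ l s hs0 hD hl (h0 f) (h0 g) (h1 f hf) (h1 g hg)
  intro hne
  rw [comap_apply, key]
  refine hmain ?_
  rw [← key]
  exact (map_ne_zero (emb k m).toRingHom).mpr hne

end

/-- ROW D0b. -/
theorem hx_mem (v : RVal (FF k (m + 1)))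
    (hv0 : ∀ p : MvPolynomial (Fin (m + 1)) k, p ≠ 0 → 0 ≤ v (toFF p))
    (s : ℝ) (hs0 : 0 < s) (hs : ∀ g, pd 0 g ≠ 0 → v g - v (pd 0 g) ≤ s)
    (x : MvPolynomial (Fin m) k) (hx1 : x.totalDegree ≤ 1) (α : ℝ) (hα : 0 < α)
    (hxv : v (toFF (rename Fin.succ x)) = α)
    (D : ℕ) (E l : ℝ) (j : ℕ) (hj : j ≤ D) (f : MvPolynomial (Fin (m + 1)) k)
    (hfD : (finSuccEquiv k m f).natDegree ≤ D)
    (hfE : (f.totalDegree : ℝ) + D * s / α + 1 ≤ E) (hfl : v.Ge l (toFF f)) :
    hx x α s j f ∈ Fam v D E l := by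
  have hchar : CharZero (FF k (m + 1)) :=
    charZero_of_injective_algebraMap (algebraMap k (FF k (m + 1))).injective
  set N : ℕ := ⌈j * s / α⌉₊ with hN
  have hN1 : (j : ℝ) * s / α ≤ N := Nat.le_ceil _
  have hN2 : (N : ℝ) < j * s / α + 1 := Nat.ceil_lt_add_one (by positivity)
  refine ⟨?_, ?_, ?_⟩
  · rw [← zpoly_natDegree (RingHom.id (FF k m)), hx, zpoly_mul]
    have h1 : zpoly (RingHom.id (FF k m)) ((rename Fin.succ x) ^ N)
        = Polynomial.C ((RingHom.id (FF k m)) (toFF (x ^ N))) := by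
      rw [← _root_.map_pow, zpoly_rename]
    rw [h1]
    refine (Polynomial.natDegree_C_mul_le _ _).trans ?_
    rw [zpoly_natDegree]
    exact (hsd_natDegree j f).trans hfD
  · have h1 : (hx x α s j f).totalDegree ≤ N + f.totalDegree := by
      rw [hx]
      refine (totalDegree_mul _ _).trans (add_le_add ?_ (hsd_totalDegree j f))
      refine (totalDegree_pow _ _).trans ?_
      calc N * (rename Fin.succ x).totalDegree ≤ N * 1 :=
            Nat.mul_le_mul_left _ ((totalDegree_rename_le _ _).trans hx1)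
        _ = N := mul_one _
    have h2 : ((hx x α s j f).totalDegree : ℝ) ≤ N + f.totalDegree := by exact_mod_cast h1
    have h3 : (j : ℝ) * s / α ≤ D * s / α := by
      have : (j : ℝ) ≤ D := by exact_mod_cast hj
      gcongr
    linarith
  · rw [hx, _root_.map_mul, toFF_hsd, _root_.map_pow, ← hN]
    by_cases hz : f = 0
    · rw [hz, _root_.map_zero, dd_map_zero, mul_zero]
      exact RVal.Ge.zero
    by_cases hx0 : toFF (rename Fin.succ x : MvPolynomial (Fin (m + 1)) k) = 0
    · by_cases hN0 : N = 0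
      · have h1 := ge_dd v (fun i hi => Fam.val_natCast v hv0 i hi) (pd 0) s hs (toFF f) j
        rw [hN0, pow_zero, one_mul]
        refine h1.mono ?_
        have h2 : (j : ℝ) * s / α ≤ 0 := by rw [hN0] at hN1; simpa using hN1
        have h3 : (j : ℝ) * s ≤ 0 := by
          rw [div_le_iff₀ hα, zero_mul] at h2
          exact h2
        have := hfl (toFF_ne_zero hz)
        linarith
      · rw [hx0, zero_pow hN0, zero_mul]
        exact RVal.Ge.zero
    · have h1 := ge_dd v (fun i hi => Fam.val_natCast v hv0 i hi) (pd 0) s hs (toFF f) j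
      have h2 : v.Ge (N * α) (toFF (rename Fin.succ x : MvPolynomial (Fin (m + 1)) k) ^ N) := by
        intro _
        rw [v.map_pow hx0, hxv]
      refine (h2.mul h1).mono ?_
      have h3 := hfl (toFF_ne_zero hz)
      rw [div_le_iff₀ hα] at hN1
      linarith

end Pool.Agent.JM69
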