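import Pool.Agent.Lib.JM69.Base
import Pool.Agent.Lib.JMF.Gen
import Pool.Agent.Lib.JMF.Thick

/-!
# Row D1: growth
-/

set_option autoImplicit false

open MvPolynomial

namespace Pool.Agent.JM69

open Pool.Agent.H15JM

variable {k : Type} [Field k] {m : ℕ}

theorem val_alg_of_nonneg {n : ℕ} (w : RVal (FF k n))
    (hw : ∀ p : MvPolynomial (Fin n) k, p ≠ 0 → 0 ≤ w (toFF p)) (c : k) (hc : c ≠ 0) :
    w (algebraMap k (FF k n) c) = 0 := by
  have hC : algebraMap k (FF k n) c = toFF (C c) := by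
    rw [← MvPolynomial.algebraMap_eq, AlgHom.commutes]
  have hCi : algebraMap k (FF k n) c⁻¹ = toFF (C c⁻¹) := by
    rw [← MvPolynomial.algebraMap_eq, AlgHom.commutes]
  have h1 : 0 ≤ w (algebraMap k (FF k n) c) := by
    rw [hC]
    exact hw _ (C_ne_zero.mpr hc)
  have h2 : 0 ≤ w (algebraMap k (FF k n) c⁻¹) := by
    rw [hCi]
    exact hw _ (C_ne_zero.mpr (inv_ne_zero hc))
  rw [map_inv₀, w.map_inv ((map_ne_zero _).mpr hc)] at h2
  linarith

/-- The polynomial `T ↦ Res(f₀ + T f₁, g₀)` with coefficients in `k(X_1, …, X_m)`. -/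
noncomputable def resPoly (D : ℕ) (f₀ f₁ g₀ : MvPolynomial (Fin (m + 1)) k) :
    Polynomial (FF k m) :=
  (Polynomial.resultant
    ((finSuccEquiv k m f₀).map Polynomial.C
      + Polynomial.C Polynomial.X * (finSuccEquiv k m f₁).map Polynomial.C)
    ((finSuccEquiv k m g₀).map Polynomial.C) D D).map (toFF (k := k) (n := m)).toRingHom

theorem resPoly_eval (D : ℕ) (f₀ f₁ g₀ : MvPolynomial (Fin (m + 1)) k) (c : k) :
    (resPoly D f₀ f₁ g₀).eval (algebraMap k (FF k m) c) = toFF (Rs D (f₀ + C c * f₁) g₀) := by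
  have hC : algebraMap k (FF k m) c = toFF (C c) := by
    rw [← MvPolynomial.algebraMap_eq, AlgHom.commutes]
  have hfs : finSuccEquiv k m (C c) = Polynomial.C (C c) := by
    rw [← MvPolynomial.algebraMap_eq, AlgEquiv.commutes]
    rfl
  rw [resPoly, hC]
  have h1 : toFF (C c : MvPolynomial (Fin m) k) = (toFF (k := k) (n := m)).toRingHom (C c) := rfl
  rw [h1, Polynomial.eval_map_apply]
  have h2 : ∀ P : Polynomial (MvPolynomial (Fin m) k),
      P.eval (C c) = Polynomial.evalRingHom (C c : MvPolynomial (Fin m) k) P := fun P => rfl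
  rw [h2, ← Polynomial.resultant_map_map]
  change toFF _ = toFF _
  congr 1
  rw [Rs, _root_.map_add, _root_.map_mul, hfs]
  congr 1
  · rw [Polynomial.map_add, Polynomial.map_mul, Polynomial.map_map, Polynomial.map_map,
      Polynomial.map_C]
    have h3 : (Polynomial.evalRingHom (C c : MvPolynomial (Fin m) k)).comp Polynomial.C
        = RingHom.id _ := by
      ext x <;> simp
    rw [h3, Polynomial.map_id, Polynomial.map_id]
    simp
  · rw [Polynomial.map_map]
    have h3 : (Polynomial.evalRingHom (C c : MvPolynomial (Fin m) k)).comp Polynomial.C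
        = RingHom.id _ := by
      ext x <;> simp
    rw [h3, Polynomial.map_id]

/-- ROW D1 (growth). -/
theorem growth [CharZero k] (v : RVal (FF k (m + 1)))
    (hv0 : ∀ p : MvPolynomial (Fin (m + 1)) k, p ≠ 0 → 0 ≤ v (toFF p))
    (s : ℝ) (hs0 : 0 < s) (hs : ∀ g, pd 0 g ≠ 0 → v g - v (pd 0 g) ≤ s)
    (D : ℕ) (E l : ℝ) (b : ℝ) (hb : 0 < b) (V : RVal (FF k (m + 1)))
    (hV : ∀ p : MvPolynomial (Fin (m + 1)) k, p ≠ 0 →
      ∃ Q, IsG v (pd 0) (s - b) (toFF p) (V (toFF p)) Q)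
    (f₀ g₀ f₁ : MvPolynomial (Fin (m + 1)) k) (hf₀ : f₀ ∈ Fam v D E l) (hg₀ : g₀ ∈ Fam v D E l)
    (hf₁ : f₁ ∈ Fam v D E l) (h0 : Rs D f₀ g₀ ≠ 0) (hf₁0 : f₁ ≠ 0) (θ : ℝ)
    (hθ : V (toFF f₁) ≤ l - θ) :
    ∃ f ∈ Fam v D E l, f ≠ 0 ∧ Rs D f g₀ ≠ 0 ∧
      comap v (emb k m).toRingHom (toFF (Rs D f g₀))
        ≤ comap v (emb k m).toRingHom (toFF (Rs D f₀ g₀)) ∧
      ∃ Q : ℕ, IsG v (pd 0) (s - b) (toFF f) (V (toFF f)) Q ∧ θ ≤ Q * b := by
  classical
  have : CharZero (FF k (m + 1)) :=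
    charZero_of_injective_algebraMap (algebraMap k (FF k (m + 1))).injective
  have : Infinite k := CharZero.infinite k
  have hk : ∀ c : k, c ≠ 0 → v (algebraMap k (FF k (m + 1)) c) = 0 := val_alg_of_nonneg v hv0
  have hn : ∀ m' : ℕ, m' ≠ 0 → v ((m' : FF k (m + 1))) = 0 := by
    intro m' hm
    have := hk (m' : k) (by exact_mod_cast hm)
    rwa [map_natCast] at this
  have halg : ∀ c : k, algebraMap k (FF k (m + 1)) c = toFF (C c) := fun c => by
    rw [← MvPolynomial.algebraMap_eq, AlgHom.commutes]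
  -- the constants have `V`-value `0`
  have hkV : ∀ c : k, c ≠ 0 → V (algebraMap k (FF k (m + 1)) c) = 0 := by
    intro c hc
    obtain ⟨Q, hQ1, hQ2, -, -⟩ := hV (C c) (C_ne_zero.mpr hc)
    have hdd : ∀ j : ℕ, j ≠ 0 → dd (pd 0) j (toFF (C c : MvPolynomial (Fin (m + 1)) k)) = 0 := by
      intro j hj
      obtain ⟨i, rfl⟩ := Nat.exists_eq_succ_of_ne_zero hj
      rw [dd, Function.iterate_succ_apply, pd_toFF, pderiv_C, _root_.map_zero, iter_zero, mul_zero]
    have hQ0 : Q = 0 := by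
      by_contra h
      exact hQ1 (hdd Q h)
    subst hQ0
    rw [halg, ← hQ2, dd_zero, ← halg, hk c hc]
    simp
  set W := comap v (emb k m).toRingHom with hW
  have hkW : ∀ c : k, c ≠ 0 → W (algebraMap k (FF k m) c) = 0 := by
    intro c hc
    rw [hW, comap_apply]
    have : (emb k m).toRingHom (algebraMap k (FF k m) c) = algebraMap k (FF k (m + 1)) c :=
      (emb k m).commutes c
    rw [this]
    exact hk c hc
  -- the first polynomial in `T`
  have hP0 : (resPoly D f₀ f₁ g₀).coeff 0 = toFF (Rs D f₀ g₀) := by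
    have := resPoly_eval D f₀ f₁ g₀ (0 : k)
    rw [_root_.map_zero, C_0, zero_mul, add_zero] at this
    rw [← this, Polynomial.coeff_zero_eq_eval_zero]
  have hP0' : (resPoly D f₀ f₁ g₀).coeff 0 ≠ 0 := by
    rw [hP0]
    exact toFF_ne_zero h0
  -- the second polynomial in `T`
  set P' : Polynomial (FF k (m + 1)) :=
    Polynomial.C (toFF f₀) + Polynomial.C (toFF f₁) * Polynomial.X with hP'def
  have hP'1 : P'.coeff 1 = toFF f₁ := by
    rw [hP'def]
    simp
  have hP'1' : P'.coeff 1 ≠ 0 := by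
    rw [hP'1]
    exact toFF_ne_zero hf₁0
  have hfin := (JMF.gen_one W hkW (resPoly D f₀ f₁ g₀)).union (JMF.gen_one V hkV P')
  obtain ⟨c, hc⟩ := hfin.exists_notMem
  rw [Set.mem_union, not_or] at hc
  obtain ⟨hc1, hc2⟩ := hc
  rw [Set.mem_ofPred_eq, not_not] at hc1 hc2
  replace hc1 := hc1 0 hP0'
  replace hc2 := hc2 1 hP'1'
  rw [resPoly_eval] at hc1
  have hev : P'.eval (algebraMap k (FF k (m + 1)) c) = toFF (f₀ + C c * f₁) := by
    rw [hP'def, _root_.map_add, _root_.map_mul, halg]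
    simp
    ring
  rw [hev] at hc2
  set f : MvPolynomial (Fin (m + 1)) k := f₀ + C c * f₁ with hf
  have hfne : f ≠ 0 := by
    intro h
    rw [h, _root_.map_zero] at hc2
    exact hc2.1 rfl
  -- membership
  have hfs : finSuccEquiv k m (C c) = Polynomial.C (C c) := by
    rw [← MvPolynomial.algebraMap_eq, AlgEquiv.commutes]
    rfl
  have hmem : f ∈ Fam v D E l := by
    refine ⟨?_, ?_, ?_⟩
    · rw [hf, _root_.map_add, _root_.map_mul, hfs]
      refine (Polynomial.natDegree_add_le _ _).trans (max_le hf₀.1 ?_)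
      exact (Polynomial.natDegree_C_mul_le _ _).trans hf₁.1
    · have h1 : f.totalDegree ≤ max f₀.totalDegree f₁.totalDegree := by
        rw [hf]
        refine (totalDegree_add _ _).trans (max_le_max le_rfl ?_)
        refine (totalDegree_mul _ _).trans ?_
        rw [totalDegree_C, zero_add]
      have h2 : ((f.totalDegree : ℕ) : ℝ) ≤ max (f₀.totalDegree : ℝ) (f₁.totalDegree : ℝ) := by
        exact_mod_cast h1
      exact h2.trans (max_le hf₀.2.1 hf₁.2.1)
    · rw [hf, _root_.map_add, _root_.map_mul]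
      refine hf₀.2.2.add ?_
      by_cases hc0 : c = 0
      · subst hc0
        rw [C_0, _root_.map_zero, zero_mul]
        exact RVal.Ge.zero
      · have h3 : v.Ge 0 (toFF (C c : MvPolynomial (Fin (m + 1)) k)) := by
          rw [← halg]
          intro _
          rw [hk c hc0]
        have := h3.mul hf₁.2.2
        rwa [zero_add] at this
  refine ⟨f, hmem, hfne, fun h => ?_, ?_, ?_⟩
  · rw [h, _root_.map_zero] at hc1
    exact hc1.1 rfl
  · have := hc1.2
    rwa [hP0] at this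
  · obtain ⟨Q, hQ⟩ := hV f hfne
    refine ⟨Q, hQ, ?_⟩
    have h1 : V (toFF f) ≤ V (toFF f₁) := by
      have := hc2.2
      rwa [hP'1] at this
    have h2 := ge_dd v hn (pd 0) s hs (toFF f) Q hQ.1
    have h3 := hmem.2.2 (toFF_ne_zero hfne)
    have h4 := hQ.2.1
    nlinarith [h1, h2, h3, h4, hθ]

end Pool.Agent.JM69
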