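import Pool.Agent.Lib.JM69.Base

/-!
# Row GV: Gauss values of polynomials, and the Gauss valuation of the fraction field
(OWNER: helper95)
-/

set_option autoImplicit false

open Polynomial

namespace Pool.Agent.JM69

open Pool.Agent.H15JM

/-- A real valuation of a domain extends to the fraction field. -/
theorem exists_rval_frac {R K : Type*} [CommRing R] [IsDomain R] [Field K] [Algebra R K]
    [IsFractionRing R K] (φ : R → ℝ)
    (hmul : ∀ x y, x ≠ 0 → y ≠ 0 → φ (x * y) = φ x + φ y)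
    (hadd : ∀ x y, x ≠ 0 → y ≠ 0 → x + y ≠ 0 → min (φ x) (φ y) ≤ φ (x + y)) :
    ∃ V : RVal K, ∀ x : R, x ≠ 0 → V (algebraMap R K x) = φ x := by
  have hinj : Function.Injective (algebraMap R K) := IsFractionRing.injective R K
  have hne : ∀ x : R, x ≠ 0 → algebraMap R K x ≠ 0 := fun x hx h =>
    hx (hinj (by rw [h, _root_.map_zero]))
  have hsurj : ∀ x : K, ∃ a b : R, b ≠ 0 ∧ x = algebraMap R K a / algebraMap R K b := by
    intro x
    obtain ⟨a, b, hb, h⟩ := IsFractionRing.div_surjective (A := R) x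
    exact ⟨a, b, nonZeroDivisors.ne_zero hb, h.symm⟩
  choose a b hb hab using hsurj
  have key : ∀ (x : K) (c d : R), x ≠ 0 → d ≠ 0 → x = algebraMap R K c / algebraMap R K d →
      φ (a x) - φ (b x) = φ c - φ d := by
    intro x c d hx hd hcd
    have hc : c ≠ 0 := by
      rintro rfl
      exact hx (by rw [hcd, _root_.map_zero, zero_div])
    have ha : a x ≠ 0 := by
      intro h
      exact hx (by rw [hab x, h, _root_.map_zero, zero_div])
    have h1 : a x * d = c * b x := by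
      apply hinj
      rw [_root_.map_mul, _root_.map_mul]
      have h3 := hne _ hd
      have h4 := hne _ (hb x)
      have h2 : algebraMap R K (a x) / algebraMap R K (b x)
          = algebraMap R K c / algebraMap R K d := by rw [← hab x, ← hcd]
      rwa [div_eq_div_iff h4 h3] at h2
    have h2 := congrArg φ h1
    rw [hmul _ _ ha hd, hmul _ _ hc (hb x)] at h2
    linarith
  refine ⟨⟨fun x => φ (a x) - φ (b x), ?_, ?_⟩, ?_⟩
  · intro x y hx hy
    have hax : a x ≠ 0 := fun h => hx (by rw [hab x, h, _root_.map_zero, zero_div])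
    have hay : a y ≠ 0 := fun h => hy (by rw [hab y, h, _root_.map_zero, zero_div])
    rw [key (x * y) (a x * a y) (b x * b y) (mul_ne_zero hx hy) (mul_ne_zero (hb x) (hb y)),
      hmul _ _ hax hay, hmul _ _ (hb x) (hb y)]
    · ring
    · conv_lhs => rw [hab x, hab y]
      rw [_root_.map_mul, _root_.map_mul, div_mul_div_comm]
  · intro x y hx hy hxy
    have hax : a x ≠ 0 := fun h => hx (by rw [hab x, h, _root_.map_zero, zero_div])
    have hay : a y ≠ 0 := fun h => hy (by rw [hab y, h, _root_.map_zero, zero_div])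
    have hbx := hb x
    have hby := hb y
    have h1 : x + y = algebraMap R K (a x * b y + a y * b x) / algebraMap R K (b x * b y) := by
      conv_lhs => rw [hab x, hab y]
      rw [_root_.map_mul, _root_.map_add, _root_.map_mul, _root_.map_mul]
      have h3 := hne _ hbx
      have h4 := hne _ hby
      field_simp
    rw [key (x + y) _ _ hxy (mul_ne_zero hbx hby) h1]
    have h2 : a x * b y + a y * b x ≠ 0 := by
      intro h
      exact hxy (by rw [h1, h, _root_.map_zero, zero_div])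
    have h3 := hadd _ _ (mul_ne_zero hax hby) (mul_ne_zero hay hbx) h2
    rw [hmul _ _ hax hby, hmul _ _ hay hbx] at h3
    rw [hmul _ _ hbx hby]
    have h4 : min (φ (a x) - φ (b x)) (φ (a y) - φ (b y)) =
        min (φ (a x) + φ (b y)) (φ (a y) + φ (b x)) - (φ (b x) + φ (b y)) := by
      rw [← min_sub_sub_right]
      congr 1 <;> ring
    show min (φ (a x) - φ (b x)) (φ (a y) - φ (b y)) ≤ _
    rw [h4]
    linarith
  · intro x hx
    show φ (a (algebraMap R K x)) - φ (b (algebraMap R K x)) = φ x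
    have h0 : φ 1 = 0 := by
      have := hmul 1 1 one_ne_zero one_ne_zero
      rw [mul_one] at this
      linarith
    rw [key _ x 1 (hne x hx) one_ne_zero (by rw [_root_.map_one, div_one]), h0, sub_zero]

variable {Ω : Type} [Field Ω] (W : RVal Ω) (ρ : ℝ)

theorem IsGP.unique {P : Polynomial Ω} {V V' : ℝ} {Q Q' : ℕ} (h : IsGP W ρ P V Q)
    (h' : IsGP W ρ P V' Q') : V = V' ∧ Q = Q' := by
  obtain ⟨h1, h2, h3, h4⟩ := h
  obtain ⟨h1', h2', h3', h4'⟩ := h'
  have e : V = V' := le_antisymm (by rw [← h2']; exact h3 _ h1') (by rw [← h2]; exact h3' _ h1)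
  refine ⟨e, ?_⟩
  rcases lt_trichotomy Q Q' with hlt | heq | hlt
  · have := h4' _ hlt h1
    rw [h2, e] at this
    exact absurd this (lt_irrefl _)
  · exact heq
  · have := h4 _ hlt h1'
    rw [h2', e] at this
    exact absurd this (lt_irrefl _)

theorem exists_isGP (P : Polynomial Ω) (hP : P ≠ 0) : ∃ V Q, IsGP W ρ P V Q := by
  classical
  obtain ⟨i, hi, hmin⟩ := Finset.exists_min_image P.support (fun i => W (P.coeff i) + i * ρ)
    (support_nonempty.mpr hP)
  have hex : ∃ i, P.coeff i ≠ 0 ∧ ∀ j, P.coeff j ≠ 0 →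
      W (P.coeff i) + i * ρ ≤ W (P.coeff j) + j * ρ :=
    ⟨i, mem_support_iff.mp hi, fun j hj => hmin j (mem_support_iff.mpr hj)⟩
  refine ⟨W (P.coeff (Nat.find hex)) + Nat.find hex * ρ, Nat.find hex, (Nat.find_spec hex).1, rfl,
    (Nat.find_spec hex).2, ?_⟩
  intro m hm hm0
  by_contra hcon
  push Not at hcon
  exact Nat.find_min hex hm ⟨hm0, fun j hj => hcon.trans ((Nat.find_spec hex).2 j hj)⟩

variable {W ρ} in
theorem IsGP.ge {P : Polynomial Ω} {V : ℝ} {Q : ℕ} (h : IsGP W ρ P V Q) (i : ℕ) :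
    W.Ge (V - i * ρ) (P.coeff i) := by
  intro hi
  have := h.2.2.1 i hi
  linarith

variable {W ρ} in
theorem IsGP.gt {P : Polynomial Ω} {V : ℝ} {Q : ℕ} (h : IsGP W ρ P V Q) {i : ℕ} (hi : i < Q) :
    W.Gt (V - i * ρ) (P.coeff i) := by
  intro hi0
  have := h.2.2.2 i hi hi0
  linarith

theorem IsGP.mul {P P' : Polynomial Ω} {V V' : ℝ} {Q Q' : ℕ} (h : IsGP W ρ P V Q)
    (h' : IsGP W ρ P' V' Q') : IsGP W ρ (P * P') (V + V') (Q + Q') := by
  classical
  -- general terms
  have hge : ∀ a b, W.Ge (V + V' - (a + b : ℕ) * ρ) (P.coeff a * P'.coeff b) := by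
    intro a b
    refine ((h.ge a).mul (h'.ge b)).mono (le_of_eq ?_)
    push_cast
    ring
  have hgt : ∀ a b, (a < Q ∨ b < Q') →
      W.Gt (V + V' - (a + b : ℕ) * ρ) (P.coeff a * P'.coeff b) := by
    intro a b hab
    have e : V + V' - (a + b : ℕ) * ρ = (V - a * ρ) + (V' - b * ρ) := by
      push_cast
      ring
    rw [e]
    rcases hab with ha | hb
    · exact (h.gt ha).mul_ge (h'.ge b)
    · exact (h.ge a).mul_gt (h'.gt hb)
  have hGe : ∀ n : ℕ, W.Ge (V + V' - n * ρ) ((P * P').coeff n) := by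
    intro n
    rw [coeff_mul]
    refine RVal.Ge.sum _ _ fun ab hab => ?_
    have := hge ab.1 ab.2
    rwa [Finset.HasAntidiagonal.mem_antidiagonal.mp hab] at this
  have hGt : ∀ n : ℕ, n < Q + Q' → W.Gt (V + V' - n * ρ) ((P * P').coeff n) := by
    intro n hn
    rw [coeff_mul]
    refine RVal.Gt.sum _ _ fun ab hab => ?_
    have h1 := Finset.HasAntidiagonal.mem_antidiagonal.mp hab
    have := hgt ab.1 ab.2 (by omega)
    rwa [h1] at this
  have htop : (P * P').coeff (Q + Q') ≠ 0 ∧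
      W ((P * P').coeff (Q + Q')) = V + V' - (Q + Q' : ℕ) * ρ := by
    rw [coeff_mul, ← Finset.add_sum_erase _ _
      (Finset.HasAntidiagonal.mem_antidiagonal.mpr (rfl : (Q, Q').1 + (Q, Q').2 = Q + Q'))]
    have h1 : P.coeff Q * P'.coeff Q' ≠ 0 := mul_ne_zero h.1 h'.1
    have h2 : W (P.coeff Q * P'.coeff Q') = V + V' - (Q + Q' : ℕ) * ρ := by
      rw [W.map_mul h.1 h'.1]
      have e1 := h.2.1
      have e2 := h'.2.1
      push_cast
      linarith
    have h3 : W.Gt (V + V' - (Q + Q' : ℕ) * ρ)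
        (∑ x ∈ (Finset.HasAntidiagonal.antidiagonal (Q + Q')).erase (Q, Q'), P.coeff x.1 * P'.coeff x.2) := by
      refine RVal.Gt.sum _ _ fun ab hab => ?_
      obtain ⟨hne, hmem⟩ := Finset.mem_erase.mp hab
      have h1 := Finset.HasAntidiagonal.mem_antidiagonal.mp hmem
      have hcase : ab.1 < Q ∨ ab.2 < Q' := by
        by_contra hcon
        push Not at hcon
        exact hne (Prod.ext (by omega) (by omega))
      have := hgt ab.1 ab.2 hcase
      rwa [h1] at this
    exact RVal.add_of_gt h1 h2 h3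
  refine ⟨htop.1, by rw [htop.2]; ring, fun n hn => ?_, fun n hn hn0 => ?_⟩
  · have := hGe n hn
    linarith
  · have := hGt n hn hn0
    linarith

/-- `V(P + P') ≥ min`. -/
theorem IsGP.add_ge {P P' : Polynomial Ω} {V V' V'' : ℝ} {Q Q' Q'' : ℕ} (h : IsGP W ρ P V Q)
    (h' : IsGP W ρ P' V' Q') (h'' : IsGP W ρ (P + P') V'' Q'') : min V V' ≤ V'' := by
  have h1 := ((h.ge Q'').mono (sub_le_sub_right (min_le_left V V') _)).add
    ((h'.ge Q'').mono (sub_le_sub_right (min_le_right V V') _))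
  rw [← coeff_add] at h1
  have h2 := h1 h''.1
  have h3 := h''.2.1
  linarith

/-- The Gauss value of a nonzero polynomial. -/
noncomputable def gpoly (P : Polynomial Ω) : ℝ := by
  classical
  exact if h : P ≠ 0 then (exists_isGP W ρ P h).choose else 0

theorem isGP_gpoly (P : Polynomial Ω) (hP : P ≠ 0) : ∃ Q, IsGP W ρ P (gpoly W ρ P) Q := by
  classical
  rw [gpoly, dif_pos hP]
  exact (exists_isGP W ρ P hP).choose_spec

theorem gpoly_eq {P : Polynomial Ω} {V : ℝ} {Q : ℕ} (h : IsGP W ρ P V Q) : gpoly W ρ P = V := by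
  have hP : P ≠ 0 := by
    rintro rfl
    exact h.1 (coeff_zero Q)
  obtain ⟨Q', h'⟩ := isGP_gpoly W ρ P hP
  exact (IsGP.unique W ρ h' h).1

theorem gpoly_mul (P Q : Polynomial Ω) (hP : P ≠ 0) (hQ : Q ≠ 0) :
    gpoly W ρ (P * Q) = gpoly W ρ P + gpoly W ρ Q := by
  obtain ⟨n, h⟩ := isGP_gpoly W ρ P hP
  obtain ⟨n', h'⟩ := isGP_gpoly W ρ Q hQ
  exact gpoly_eq W ρ (IsGP.mul W ρ h h')

theorem gpoly_add (P Q : Polynomial Ω) (hP : P ≠ 0) (hQ : Q ≠ 0) (hPQ : P + Q ≠ 0) :
    min (gpoly W ρ P) (gpoly W ρ Q) ≤ gpoly W ρ (P + Q) := by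
  obtain ⟨n, h⟩ := isGP_gpoly W ρ P hP
  obtain ⟨n', h'⟩ := isGP_gpoly W ρ Q hQ
  obtain ⟨n'', h''⟩ := isGP_gpoly W ρ (P + Q) hPQ
  exact IsGP.add_ge W ρ h h' h''

theorem gpoly_le {P : Polynomial Ω} (i : ℕ) (hi : P.coeff i ≠ 0) :
    gpoly W ρ P ≤ W (P.coeff i) + i * ρ := by
  have hP : P ≠ 0 := by
    rintro rfl
    exact hi (coeff_zero i)
  obtain ⟨n, h⟩ := isGP_gpoly W ρ P hP
  exact h.2.2.1 i hi

theorem gpoly_attained {P : Polynomial Ω} (hP : P ≠ 0) :
    ∃ i, P.coeff i ≠ 0 ∧ gpoly W ρ P = W (P.coeff i) + i * ρ := by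
  obtain ⟨n, h⟩ := isGP_gpoly W ρ P hP
  exact ⟨n, h.1, h.2.1.symm⟩

theorem le_gpoly (c : ℝ) {P : Polynomial Ω} (hP : P ≠ 0)
    (h : ∀ i, P.coeff i ≠ 0 → c ≤ W (P.coeff i) + i * ρ) : c ≤ gpoly W ρ P := by
  obtain ⟨i, hi, h1⟩ := gpoly_attained W ρ hP
  rw [h1]
  exact h i hi

/-- ROW GV. The Gauss valuation of the field of fractions. -/
theorem exists_gaussP : ∃ G : RVal (FractionRing (Polynomial Ω)), ∀ P : Polynomial Ω, P ≠ 0 →
    ∃ Q, IsGP W ρ P (G (algebraMap _ _ P)) Q := by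
  obtain ⟨G, hG⟩ := exists_rval_frac (K := FractionRing (Polynomial Ω)) (gpoly W ρ)
    (gpoly_mul W ρ) (gpoly_add W ρ)
  refine ⟨G, fun P hP => ?_⟩
  rw [hG P hP]
  exact isGP_gpoly W ρ P hP

end Pool.Agent.JM69
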