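import Pool.Agent.Lib.JM69.GenComb
import Pool.Agent.Lib.JM69.GV
import Pool.Agent.Lib.JMF.Res
import Pool.Agent.Lib.JMF.SApi
import Pool.Agent.Lib.JMF.Newton
import Pool.Agent.Lib.JMF.Emb

/-!
# Row D2: the gain at the near roots (OWNER: helper83)
-/

set_option autoImplicit false

open MvPolynomial

namespace Pool.Agent.JM69

open Pool.Agent.H15JM

variable {k : Type} [Field k] {m : ℕ}

/-- ROW NEWT (from helper39's Newton.lean). The number of the roots `ζ` of `f` with `ζ = z` or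
`W(ζ - z) > ρ` is the smallest index that attains the Gauss value of `f(T + z)` for the
radius `ρ`. -/
theorem near_roots {Ω : Type} [Field Ω] (W : RVal Ω) (ρ : ℝ) (f : Polynomial Ω) (hf : f.Splits)
    (z : Ω) (V : ℝ) (Q : ℕ) (h : IsGP W ρ (f.taylor z) V Q)
    [DecidablePred fun ζ : Ω => ζ = z ∨ ρ < W (ζ - z)] :
    (f.roots.filter fun ζ => ζ = z ∨ ρ < W (ζ - z)).card = Q := by
  classical
  have h1 := JMF.newton_count_at (w := W) (r := ρ) hf z (V := V) (Q := Q) h
  rw [← h1]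
  congr 1
  refine Multiset.filter_congr fun ζ _ => ?_
  rw [JMF.Near, sub_eq_zero]

section Gain

variable [CharZero k]

/-- The Taylor coefficients at the tautological point. -/
theorem taylor_coeff_dd {Ω : Type} [Field Ω] [Algebra (FF k (m + 1)) Ω] (j : ℕ)
    (p : MvPolynomial (Fin (m + 1)) k) :
    ((zpoly ((algebraMap (FF k (m + 1)) Ω).comp (emb k m).toRingHom) p).taylor
      (algebraMap (FF k (m + 1)) Ω (toFF (X 0)))).coeff j
      = algebraMap (FF k (m + 1)) Ω (dd (pd 0) j (toFF p)) := by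
  rw [taylor_coeff_eq, zpoly_eval_ext, toFF_hsd]

/-- ROW D2 (gain). The new `g_a`. -/
theorem gain (v : RVal (FF k (m + 1)))
    (hv0 : ∀ p : MvPolynomial (Fin (m + 1)) k, p ≠ 0 → 0 ≤ v (toFF p))
    {Ω : Type} [Field Ω] [IsAlgClosed Ω] [Algebra (FF k (m + 1)) Ω] (W : RVal Ω)
    (hW : ∀ y : FF k (m + 1), y ≠ 0 → W (algebraMap (FF k (m + 1)) Ω y) = v y)
    (s : ℝ) (hs0 : 0 < s) (hs : ∀ g, pd 0 g ≠ 0 → v g - v (pd 0 g) ≤ s)
    (x : MvPolynomial (Fin m) k) (hx0 : x ≠ 0) (α : ℝ) (hα : 0 < α)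
    (hxv : v (toFF (rename Fin.succ x)) = α)
    (D : ℕ) (E l b : ℝ) (hb : 0 < b) (_hbs : b < s)
    (f₀ g₀ : MvPolynomial (Fin (m + 1)) k) (hf₀ : f₀ ∈ Fam v D E l) (hg₀ : g₀ ∈ Fam v D E l)
    (hf0 : f₀ ≠ 0) (h0 : Rs D f₀ g₀ ≠ 0) (V₀ : ℝ) (Q : ℕ)
    (hQ : IsG v (pd 0) (s - b) (toFF f₀) V₀ Q)
    (g : MvPolynomial (Fin (m + 1)) k) (hg : g ≠ 0)
    (hgD : (finSuccEquiv k m g).natDegree ≤ D) (t : ℝ) (hgt : v (toFF g) ≤ t) :
    ∃ μ : ℕ → k, ∀ g' : MvPolynomial (Fin (m + 1)) k,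
      g' = g₀ + ∑ j ∈ Finset.range (D + 1), C (μ j) * hx x α s j g →
      Rs D f₀ g' ≠ 0 ∧ comap v (emb k m).toRingHom (toFF (Rs D f₀ g'))
        ≤ comap v (emb k m).toRingHom (toFF (Rs D f₀ g₀)) - Q * (l - t - 2 * D * b - α) := by
  classical
  have : CharZero (FF k (m + 1)) :=
    charZero_of_injective_algebraMap (algebraMap k (FF k (m + 1))).injective
  set φ : FF k m →+* Ω := (algebraMap (FF k (m + 1)) Ω).comp (emb k m).toRingHom with hφ
  set z : Ω := algebraMap (FF k (m + 1)) Ω (toFF (X 0)) with hz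
  have hmap : ∀ y : FF k (m + 1), y ≠ 0 → algebraMap (FF k (m + 1)) Ω y ≠ 0 := fun y hy =>
    (map_ne_zero _).mpr hy
  have hkv : ∀ c : k, c ≠ 0 → v (algebraMap k (FF k (m + 1)) c) = 0 := val_const hv0
  have hk : ∀ c : k, c ≠ 0 → W (φ (algebraMap k (FF k m) c)) = 0 := by
    intro c hc
    have h1 : (emb k m).toRingHom (algebraMap k (FF k m) c) = algebraMap k (FF k (m + 1)) c :=
      (emb k m).commutes c
    rw [hφ, RingHom.comp_apply, h1, hW _ ((map_ne_zero _).mpr hc), hkv c hc]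
  have hn : ∀ m' : ℕ, m' ≠ 0 → v ((m' : FF k (m + 1))) = 0 := by
    intro m' hm
    have := hkv (m' : k) (by exact_mod_cast hm)
    rwa [map_natCast] at this
  -- the polynomials in `z`
  have hdeg : ∀ p : MvPolynomial (Fin (m + 1)) k, (finSuccEquiv k m p).natDegree ≤ D →
      (zpoly φ p).natDegree ≤ D := fun p hp => by rwa [zpoly_natDegree]
  have hF0 : zpoly φ f₀ ≠ 0 := by
    intro h
    apply hf0
    apply zpoly_injective φ
    rw [h, zpoly, _root_.map_zero, Polynomial.map_zero]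
  have hFs : (zpoly φ f₀).Splits := IsAlgClosed.splits _
  have hR : ∀ p : MvPolynomial (Fin (m + 1)) k, Rs D f₀ p ≠ 0 →
      (zpoly φ f₀).resultant (zpoly φ p) D D ≠ 0 ∧
      comap v (emb k m).toRingHom (toFF (Rs D f₀ p))
        = W ((zpoly φ f₀).resultant (zpoly φ p) D D) := by
    intro p hp
    have h1 := Rs_map φ D f₀ p
    have h2 : toFF (Rs D f₀ p) ≠ 0 := toFF_ne_zero hp
    refine ⟨by rw [← h1]; exact (map_ne_zero _).mpr h2, ?_⟩
    rw [← h1, hφ, RingHom.comp_apply, comap_apply]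
    exact (hW _ ((map_ne_zero _).mpr h2)).symm
  -- the generic combination
  let a : Fin (D + 2) → MvPolynomial (Fin (m + 1)) k := Fin.cons g₀ fun j => hx x α s j g
  obtain ⟨μ, hμ0, hμ1, hμ2⟩ := exists_gen_comb W φ hk a (zpoly φ f₀).roots.toFinset D
  refine ⟨fun j => μ ^ (j + 1), ?_⟩
  intro g' hg'
  have hg'2 : g' = ∑ i : Fin (D + 2), C (μ ^ (i : ℕ)) * a i := by
    rw [hg', Fin.sum_univ_succ]
    simp only [a, Fin.cons_zero, Fin.cons_succ, Fin.val_zero, pow_zero, C_1, one_mul, Fin.val_succ]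
    rw [Finset.sum_range]
  rw [← hg'2] at hμ1 hμ2
  obtain ⟨hr0, hrv⟩ := hR g₀ h0
  have hhxD : ∀ j, (finSuccEquiv k m (hx x α s j g)).natDegree ≤ D := by
    intro j
    have h1 : finSuccEquiv k m ((rename Fin.succ x) ^ ⌈j * s / α⌉₊)
        = Polynomial.C (x ^ ⌈j * s / α⌉₊) := by
      rw [← _root_.map_pow]
      exact JMF.embP_eq _
    rw [hx, _root_.map_mul, h1]
    exact (Polynomial.natDegree_C_mul_le _ _).trans ((hsd_natDegree j g).trans hgD)
  have hg'D : (finSuccEquiv k m g').natDegree ≤ D := by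
    rw [hg', _root_.map_add, _root_.map_sum]
    refine (Polynomial.natDegree_add_le _ _).trans (max_le hg₀.1 ?_)
    refine Polynomial.natDegree_sum_le_of_forall_le _ _ fun j _ => ?_
    have h1 : finSuccEquiv k m (C (μ ^ (j + 1))) = Polynomial.C (C (μ ^ (j + 1))) := by
      rw [finSuccEquiv_apply, eval₂Hom_C]
      rfl
    rw [_root_.map_mul, h1]
    exact (Polynomial.natDegree_C_mul_le _ _).trans (hhxD j)
  have hiff := JMF.resultant_ne_zero_iff (zpoly φ f₀) (zpoly φ g₀) D hFs hF0 (hdeg _ hf₀.1)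
    (hdeg _ hg₀.1)
  obtain ⟨hroot, hinf⟩ := hiff.mp hr0
  have hgt' := JMF.val_resultant_gain W (zpoly φ f₀) (zpoly φ g₀) (zpoly φ g') D hFs hF0
    (hdeg _ hf₀.1) (hdeg _ hg₀.1) (hdeg _ hg'D) hr0 (fun ζ => ζ = z ∨ s - b < W (ζ - z))
    (l - t - 2 * D * b - α) ?_ ?_ ?_
  · obtain ⟨h1, h2⟩ := hgt'
    have h3 : Rs D f₀ g' ≠ 0 := by
      intro h
      have := Rs_map φ D f₀ g'
      rw [h, _root_.map_zero, _root_.map_zero] at this
      exact h1 this.symm
    refine ⟨h3, ?_⟩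
    rw [(hR g' h3).2, hrv]
    have h4 : IsGP W (s - b) ((zpoly φ f₀).taylor z) V₀ Q := by
      obtain ⟨q1, q2, q3, q4⟩ := hQ
      have hco : ∀ j, ((zpoly φ f₀).taylor z).coeff j
          = algebraMap (FF k (m + 1)) Ω (dd (pd 0) j (toFF f₀)) := fun j =>
        taylor_coeff_dd j f₀
      refine ⟨?_, ?_, ?_, ?_⟩
      · rw [hco]; exact hmap _ q1
      · rw [hco, hW _ q1]; exact q2
      · intro j hj
        rw [hco] at hj ⊢
        have hj' := (map_ne_zero _).mp hj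
        rw [hW _ hj']
        exact q3 j hj'
      · intro j hjQ hj
        rw [hco] at hj ⊢
        have hj' := (map_ne_zero _).mp hj
        rw [hW _ hj']
        exact q4 j hjQ hj'
    have h5 := near_roots W (s - b) (zpoly φ f₀) hFs z V₀ Q h4
    rw [h5] at h2
    exact h2
  · intro ζ hζ
    have h1 := hμ1 ζ (Multiset.mem_toFinset.mpr hζ) 0 (hroot ζ hζ)
    exact h1
  · intro ζ hζ hnear
    have hgne : (zpoly φ g).eval z ≠ 0 := by
      rw [zpoly_eval_ext]
      exact hmap _ (toFF_ne_zero hg)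
    have hgv : W ((zpoly φ g).eval z) ≤ t := by
      rw [zpoly_eval_ext, hW _ (toFF_ne_zero hg)]
      exact hgt
    obtain ⟨j, hj0, hj⟩ := exists_coeff_le W (zpoly φ g) ζ z (s - b) t hnear hgne hgv
    have hjD : j ≤ D := by
      by_contra hlt
      push Not at hlt
      apply hj0
      apply Polynomial.coeff_eq_zero_of_natDegree_lt
      rw [Polynomial.natDegree_taylor]
      exact lt_of_le_of_lt (hdeg _ hgD) hlt
    -- the value of `hx j g` at `ζ`
    have hxne : φ (toFF x) ≠ 0 := (map_ne_zero _).mpr (toFF_ne_zero hx0)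
    have hxval : W (φ (toFF x)) = α := by
      rw [hφ, RingHom.comp_apply]
      have h1 : (emb k m).toRingHom (toFF x) = toFF (rename Fin.succ x) := emb_toFF x
      rw [h1, hW, hxv]
      rw [← h1]
      exact (map_ne_zero _).mpr (toFF_ne_zero hx0)
    have hev : (zpoly φ (hx x α s j g)).eval ζ
        = φ (toFF x) ^ ⌈j * s / α⌉₊ * ((zpoly φ g).taylor ζ).coeff j := by
      have hpow : ∀ N : ℕ, zpoly φ ((rename Fin.succ x) ^ N)
          = Polynomial.C (φ (toFF x) ^ N) := by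
        intro N
        rw [← _root_.map_pow, zpoly_rename, _root_.map_pow, _root_.map_pow]
      rw [hx, zpoly_mul, hpow, Polynomial.eval_mul, Polynomial.eval_C, taylor_coeff_eq]
    have hpne : φ (toFF x) ^ ⌈j * s / α⌉₊ ≠ 0 := pow_ne_zero _ hxne
    have hne : (zpoly φ (hx x α s j g)).eval ζ ≠ 0 := by
      rw [hev]
      exact mul_ne_zero hpne hj0
    have hval : W ((zpoly φ (hx x α s j g)).eval ζ) ≤ t + D * b + α := by
      rw [hev, W.map_mul hpne hj0, W.map_pow hxne, hxval]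
      have h1 : (⌈(j : ℝ) * s / α⌉₊ : ℝ) ≤ j * s / α + 1 :=
        (Nat.ceil_lt_add_one (by positivity)).le
      have h2 : (⌈(j : ℝ) * s / α⌉₊ : ℝ) * α ≤ (j * s / α + 1) * α :=
        mul_le_mul_of_nonneg_right h1 hα.le
      have h3 : ((j : ℝ) * s / α + 1) * α = j * s + α := by
        field_simp
      have h4 : (j : ℝ) * b ≤ D * b := mul_le_mul_of_nonneg_right (by exact_mod_cast hjD) hb.le
      linarith
    have h1 := hμ1 ζ (Multiset.mem_toFinset.mpr hζ) (Fin.succ ⟨j, by omega⟩) hne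
    have h2 : W ((zpoly φ g').eval ζ) ≤ t + D * b + α := h1.2.trans hval
    have h3 : W.Ge (l - D * (s - (s - b))) ((zpoly φ g₀).eval ζ) := by
      refine ge_eval_near W (zpoly φ g₀) ζ z (s - b) s l D (hdeg _ hg₀.1) hnear (by linarith) ?_
      intro j
      rw [taylor_coeff_dd]
      intro h5
      have h6 := (map_ne_zero _).mp h5
      rw [hW _ h6]
      exact JMF.dd_ge hn hs hg₀.2.2 j h6
    have h4 := h3 (hroot ζ hζ)
    linarith
  · intro hlt
    exact hμ2 0 (hinf hlt)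

end Gain

end Pool.Agent.JM69
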