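import Pool.Agent.Lib.JM69.D0
import Pool.Agent.Lib.JMF.Gen
import Pool.Agent.Lib.JMF.Res

/-!
# Row D3: domination
-/

set_option autoImplicit false

open MvPolynomial

namespace Pool.Agent.JM69

open Pool.Agent.H15JM

namespace RowD3

section Generic

/-- A generic combination has the least possible value at finitely many places at once. -/
theorem exists_generic {k Ω A : Type} [Field k] [CharZero k] [Field Ω] (ι : k →+* Ω)
    (W : RVal Ω) (hk : ∀ c : k, c ≠ 0 → W (ι c) = 0) (N : ℕ) (S : Finset A) (y : A → ℕ → Ω) :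
    ∃ t : k, ∀ a ∈ S, ∀ i < N, y a i ≠ 0 →
      ∑ j ∈ Finset.range N, ι (t ^ j) * y a j ≠ 0 ∧
        W (∑ j ∈ Finset.range N, ι (t ^ j) * y a j) ≤ W (y a i) := by
  classical
  let P : A → Polynomial Ω := fun a =>
    ∑ j ∈ Finset.range N, Polynomial.C (y a j) * Polynomial.X ^ j
  have hPc : ∀ a, ∀ i < N, (P a).coeff i = y a i := by
    intro a i hi
    simp only [P, Polynomial.finsetSum_coeff, Polynomial.coeff_C_mul, Polynomial.coeff_X_pow,
      mul_ite, mul_one, mul_zero]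
    rw [Finset.sum_ite_eq (Finset.range N) i (fun j => y a j), if_pos (Finset.mem_range.mpr hi)]
  have hPe : ∀ a (t : k), (P a).eval (ι t) = ∑ j ∈ Finset.range N, ι (t ^ j) * y a j := by
    intro a t
    simp only [P, Polynomial.eval_finsetSum, Polynomial.eval_mul, Polynomial.eval_C,
      Polynomial.eval_pow, Polynomial.eval_X, _root_.map_pow]
    exact Finset.sum_congr rfl fun j _ => mul_comm _ _
  let _ : Algebra k Ω := ι.toAlgebra
  have hk' : ∀ c : k, c ≠ 0 → W (algebraMap k Ω c) = 0 := hk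
  let bad : A → Set k := fun a =>
    {μ : k | ¬ ∀ i, (P a).coeff i ≠ 0 → (P a).eval (algebraMap k Ω μ) ≠ 0 ∧
      W ((P a).eval (algebraMap k Ω μ)) ≤ W ((P a).coeff i)}
  have hbad : (⋃ a ∈ S, bad a).Finite :=
    Set.Finite.biUnion S.finite_toSet fun a _ => JMF.gen_one W hk' (P a)
  obtain ⟨t, ht⟩ := hbad.exists_notMem
  refine ⟨t, fun a ha i hi hy => ?_⟩
  have h1 : t ∉ bad a := fun h => ht (Set.mem_biUnion ha h)
  simp only [bad, Set.mem_ofPred_eq, not_not] at h1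
  have h2 := h1 i (by rwa [hPc a i hi])
  have h3 : (P a).eval (algebraMap k Ω t) = ∑ j ∈ Finset.range N, ι (t ^ j) * y a j := hPe a t
  rw [h3, hPc a i hi] at h2
  exact h2

end Generic

section ZHom

variable {k : Type} [Field k] {m : ℕ}

variable {Ω : Type} [Field Ω] (φ : FF k m →+* Ω)

/-- `zpoly` as a ring homomorphism. -/
noncomputable def zpolyHom : MvPolynomial (Fin (m + 1)) k →+* Polynomial Ω :=
  (Polynomial.mapRingHom (φ.comp (toFF (k := k) (n := m)).toRingHom)).comp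
    (finSuccEquiv k m).toAlgHom.toRingHom

theorem zpolyHom_apply (p : MvPolynomial (Fin (m + 1)) k) : zpolyHom φ p = zpoly φ p := rfl

end ZHom

section Rest

variable {k : Type} [Field k] {m : ℕ}

/-- The value of the constants. -/
theorem val_const (w : RVal (FF k m)) (hw0 : ∀ p : MvPolynomial (Fin m) k, p ≠ 0 → 0 ≤ w (toFF p))
    (c : k) (hc : c ≠ 0) : w (algebraMap k (FF k m) c) = 0 := by
  have h : ∀ c : k, algebraMap k (FF k m) c = toFF (C c) := by
    intro c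
    rw [← MvPolynomial.algebraMap_eq, AlgHom.commutes]
  have h1 : 0 ≤ w (algebraMap k (FF k m) c) := by
    rw [h]
    exact hw0 _ (by simpa using hc)
  have h2 : 0 ≤ w (algebraMap k (FF k m) c⁻¹) := by
    rw [h]
    exact hw0 _ (by simpa using hc)
  have hne : algebraMap k (FF k m) c ≠ 0 := (map_ne_zero _).mpr hc
  rw [map_inv₀, w.map_inv hne] at h2
  linarith

section Main

variable {Ω : Type} [Field Ω] [Algebra (FF k m) Ω] (W : RVal Ω)

theorem eval_hx [CharZero k] (x : MvPolynomial (Fin m) k) (α s : ℝ) (j : ℕ)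
    (f : MvPolynomial (Fin (m + 1)) k) (ζ : Ω) :
    (zpoly (algebraMap (FF k m) Ω) (hx x α s j f)).eval ζ
      = algebraMap (FF k m) Ω (toFF x) ^ ⌈j * s / α⌉₊
        * ((zpoly (algebraMap (FF k m) Ω) f).taylor ζ).coeff j := by
  rw [hx, zpoly_mul, zpoly_pow, zpoly_rename, Polynomial.eval_mul, Polynomial.eval_pow,
    Polynomial.eval_C, taylor_coeff_eq]

/-- The factor `x^⌈j s / α⌉` has value between `j s` and `j s + α`. -/
theorem val_factor (w : RVal (FF k m))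
    (hW : ∀ y : FF k m, y ≠ 0 → W (algebraMap (FF k m) Ω y) = w y)
    (x : MvPolynomial (Fin m) k) (hx0 : x ≠ 0) (α : ℝ) (hα : 0 < α) (hxw : w (toFF x) = α)
    (s : ℝ) (hs0 : 0 < s) (j : ℕ) (y : Ω) (hy : y ≠ 0) :
    algebraMap (FF k m) Ω (toFF x) ^ ⌈j * s / α⌉₊ * y ≠ 0 ∧
    j * s + W y ≤ W (algebraMap (FF k m) Ω (toFF x) ^ ⌈j * s / α⌉₊ * y) ∧
    W (algebraMap (FF k m) Ω (toFF x) ^ ⌈j * s / α⌉₊ * y) ≤ j * s + α + W y := by
  have hx' : algebraMap (FF k m) Ω (toFF x) ≠ 0 := (map_ne_zero _).mpr (toFF_ne_zero hx0)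
  have h1 : W (algebraMap (FF k m) Ω (toFF x) ^ ⌈j * s / α⌉₊ * y)
      = (⌈j * s / α⌉₊ : ℝ) * α + W y := by
    rw [W.map_mul (pow_ne_zero _ hx') hy, W.map_pow hx', hW _ (toFF_ne_zero hx0), hxw]
  have h2 : (j : ℝ) * s / α ≤ (⌈j * s / α⌉₊ : ℝ) := Nat.le_ceil _
  have h3 : (⌈j * s / α⌉₊ : ℝ) < j * s / α + 1 := Nat.ceil_lt_add_one (by positivity)
  have h4 : (j : ℝ) * s / α * α = j * s := by field_simp
  refine ⟨mul_ne_zero (pow_ne_zero _ hx') hy, ?_, ?_⟩
  · rw [h1]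
    nlinarith
  · rw [h1]
    nlinarith

theorem zpoly_val (w : RVal (FF k m))
    (hw0 : ∀ p : MvPolynomial (Fin m) k, p ≠ 0 → 0 ≤ w (toFF p))
    (hW : ∀ y : FF k m, y ≠ 0 → W (algebraMap (FF k m) Ω y) = w y)
    (p : MvPolynomial (Fin (m + 1)) k) (j : ℕ) :
    W.Ge 0 ((zpoly (algebraMap (FF k m) Ω) p).coeff j) := by
  rw [zpoly_coeff]
  intro h
  have h1 : (finSuccEquiv k m p).coeff j ≠ 0 := by
    intro h0
    apply h
    rw [h0, _root_.map_zero, _root_.map_zero]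
  rw [hW _ (toFF_ne_zero h1)]
  exact hw0 _ h1

theorem eval_C_mul (c : k) (p : MvPolynomial (Fin (m + 1)) k) (ζ : Ω) :
    (zpoly (algebraMap (FF k m) Ω) (C c * p)).eval ζ
      = algebraMap (FF k m) Ω (algebraMap k (FF k m) c)
        * (zpoly (algebraMap (FF k m) Ω) p).eval ζ := by
  rw [zpoly_mul, zpoly_C, Polynomial.eval_mul, Polynomial.eval_C]

theorem coeff_C_mul' (c : k) (p : MvPolynomial (Fin (m + 1)) k) (n : ℕ) :
    (zpoly (algebraMap (FF k m) Ω) (C c * p)).coeff n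
      = algebraMap (FF k m) Ω (algebraMap k (FF k m) c)
        * (zpoly (algebraMap (FF k m) Ω) p).coeff n := by
  rw [zpoly_mul, zpoly_C, Polynomial.coeff_C_mul]

/-- `g' - g₀` at a place `ζ`. -/
theorem gprime_ge [CharZero k] (w : RVal (FF k m))
    (hw0 : ∀ p : MvPolynomial (Fin m) k, p ≠ 0 → 0 ≤ w (toFF p))
    (hW : ∀ y : FF k m, y ≠ 0 → W (algebraMap (FF k m) Ω y) = w y)
    (x : MvPolynomial (Fin m) k) (hx0 : x ≠ 0) (α : ℝ) (hα : 0 < α) (hxw : w (toFF x) = α)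
    (s : ℝ) (hs0 : 0 < s) (D : ℕ) (g₀ g : MvPolynomial (Fin (m + 1)) k) (μ : ℕ → k) (ζ : Ω)
    (U : ℝ) (Q : ℕ) (hU : IsGP W s ((zpoly (algebraMap (FF k m) Ω) g).taylor ζ) U Q) :
    W.Ge U ((zpoly (algebraMap (FF k m) Ω)
        (g₀ + ∑ j ∈ Finset.range (D + 1), C (μ j) * hx x α s j g)).eval ζ
      - (zpoly (algebraMap (FF k m) Ω) g₀).eval ζ) := by
  rw [zpoly_add, zpoly_sum, Polynomial.eval_add, Polynomial.eval_finsetSum, add_sub_cancel_left]
  refine RVal.Ge.sum _ _ fun j _ => ?_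
  rw [eval_C_mul, eval_hx]
  have h1 : W.Ge 0 (algebraMap (FF k m) Ω (algebraMap k (FF k m) (μ j))) := by
    intro h
    have hμ : μ j ≠ 0 := by
      intro h0
      apply h
      rw [h0, _root_.map_zero, _root_.map_zero]
    rw [hW _ ((map_ne_zero _).mpr hμ), val_const w hw0 _ hμ]
  have h2 : W.Ge U (algebraMap (FF k m) Ω (toFF x) ^ ⌈j * s / α⌉₊
        * ((zpoly (algebraMap (FF k m) Ω) g).taylor ζ).coeff j) := by
    by_cases hy : ((zpoly (algebraMap (FF k m) Ω) g).taylor ζ).coeff j = 0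
    · rw [hy, mul_zero]
      exact RVal.Ge.zero
    · obtain ⟨_, h3, _⟩ := val_factor W w hW x hx0 α hα hxw s hs0 j _ hy
      have h4 := hU.2.2.1 j hy
      exact RVal.Ge.of_le (by linarith)
  have h3 := h1.mul h2
  rwa [zero_add] at h3

end Main

theorem Xpow_mem (v : RVal (FF k (m + 1))) (c : k) (ν : ℝ) (hc : ν ≤ v (toFF (X 0 - C c)))
    (D : ℕ) (E l : ℝ) (hDE : (D : ℝ) ≤ E) (hDl : l ≤ D * ν) :
    (X 0 - C c : MvPolynomial (Fin (m + 1)) k) ^ D ∈ Fam v D E l := by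
  have h1 : finSuccEquiv k m (X 0 - C c) = Polynomial.X - Polynomial.C (C c) := by
    rw [map_sub, finSuccEquiv_X_zero]
    congr 1
    rw [finSuccEquiv_apply, eval₂Hom_C]
    rfl
  have hne : (X 0 - C c : MvPolynomial (Fin (m + 1)) k) ≠ 0 := by
    intro h0
    rw [h0, _root_.map_zero] at h1
    exact Polynomial.X_sub_C_ne_zero _ h1.symm
  refine ⟨?_, ?_, ?_⟩
  · rw [_root_.map_pow, h1, Polynomial.natDegree_pow, Polynomial.natDegree_X_sub_C, mul_one]
  · refine le_trans ?_ hDE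
    have h2 := totalDegree_pow (X 0 - C c : MvPolynomial (Fin (m + 1)) k) D
    have h3 : (X 0 - C c : MvPolynomial (Fin (m + 1)) k).totalDegree ≤ 1 := by
      refine (totalDegree_sub _ _).trans ?_
      rw [totalDegree_X, totalDegree_C]
      exact le_rfl
    have h4 : ((X 0 - C c : MvPolynomial (Fin (m + 1)) k) ^ D).totalDegree ≤ D :=
      h2.trans (by nlinarith)
    exact_mod_cast h4
  · refine RVal.Ge.of_le ?_
    rw [_root_.map_pow, v.map_pow (toFF_ne_zero hne)]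
    exact hDl.trans (mul_le_mul_of_nonneg_left hc (Nat.cast_nonneg D))

end Rest

end RowD3

open RowD3

/-- Domination: the new first polynomial. -/
theorem domination {k : Type} [Field k] [CharZero k] {m : ℕ} (v : RVal (FF k (m + 1)))
    (hv0 : ∀ p : MvPolynomial (Fin (m + 1)) k, p ≠ 0 → 0 ≤ v (toFF p))
    (w : RVal (FF k m)) (hw0 : ∀ p : MvPolynomial (Fin m) k, p ≠ 0 → 0 ≤ w (toFF p))
    {Ω : Type} [Field Ω] [IsAlgClosed Ω] [Algebra (FF k m) Ω] (W : RVal Ω)
    (hW : ∀ y : FF k m, y ≠ 0 → W (algebraMap (FF k m) Ω y) = w y)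
    (s : ℝ) (hs0 : 0 < s) (hs : ∀ g, pd 0 g ≠ 0 → v g - v (pd 0 g) ≤ s)
    (x : MvPolynomial (Fin m) k) (hx0 : x ≠ 0) (hx1 : x.totalDegree ≤ 1) (α : ℝ) (hα : 0 < α)
    (hxv : v (toFF (rename Fin.succ x)) = α) (hxw : w (toFF x) = α)
    (c : k) (ν : ℝ) (hν : 0 < ν) (hc : ν ≤ v (toFF (X 0 - C c)))
    (D : ℕ) (E l E₀ : ℝ) (hE₀ : E₀ + D * s / α + 1 ≤ E) (hDE : (D : ℝ) ≤ E) (hDl : l ≤ D * ν)
    (hE₀D : ⌊E₀⌋₊ ≤ D)
    (f₀ g₀ : MvPolynomial (Fin (m + 1)) k) (hf₀ : f₀ ∈ Fam v D E l) (hg₀ : g₀ ∈ Fam v D E l)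
    (hf0 : f₀ ≠ 0)
    (g : MvPolynomial (Fin (m + 1)) k) (hg : g ≠ 0)
    (hgD : (finSuccEquiv k m g).natDegree ≤ D) (μ : ℕ → k)
    (g' : MvPolynomial (Fin (m + 1)) k)
    (hg' : g' = g₀ + ∑ j ∈ Finset.range (D + 1), C (μ j) * hx x α s j g)
    (hRs : Rs D f₀ g' ≠ 0) (η : ℝ) (hη : 0 ≤ η)
    (hdom : ∀ ζ : Ω, (ζ ≠ 0 → 0 ≤ W ζ) → ∃ (u : RVal (FF k (m + 1)))
      (f : MvPolynomial (Fin (m + 1)) k),
      (∀ h : MvPolynomial (Fin (m + 1)) k, h ≠ 0 →
        ∃ Q, IsGP W s ((zpoly (algebraMap (FF k m) Ω) h).taylor ζ) (u (toFF h)) Q) ∧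
      f ≠ 0 ∧ (f.totalDegree : ℝ) ≤ E₀ ∧ l ≤ v (toFF f) ∧ u (toFF f) ≤ u (toFF g) + η) :
    ∃ g₁ ∈ Fam v D E l, Rs D f₀ g₁ ≠ 0 ∧
      w (toFF (Rs D f₀ g₁)) ≤ w (toFF (Rs D f₀ g')) + D * (η + α) := by
  classical
  set φ : FF k m →+* Ω := algebraMap (FF k m) Ω with hφ
  have hE : 0 ≤ E := le_trans (Nat.cast_nonneg D) hDE
  -- the degree of `g'`
  have hg'D : (zpoly φ g').natDegree ≤ D := by
    rw [hg', zpoly_add, zpoly_sum]
    refine Polynomial.natDegree_add_le_of_degree_le ?_ ?_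
    · rw [zpoly_natDegree]
      exact hg₀.1
    · refine Polynomial.natDegree_sum_le_of_forall_le _ _ fun j _ => ?_
      rw [zpoly_mul, zpoly_C, hx, zpoly_mul, zpoly_pow, zpoly_rename, ← Polynomial.C_pow]
      refine (Polynomial.natDegree_C_mul_le _ _).trans ((Polynomial.natDegree_C_mul_le _ _).trans ?_)
      rw [zpoly_natDegree]
      exact (hsd_natDegree j g).trans hgD
  -- the polynomials for the roots
  have key : ∀ ζ : Ω, (ζ ≠ 0 → 0 ≤ W ζ) → ∃ (U : ℝ) (h : MvPolynomial (Fin (m + 1)) k),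
      h ∈ Fam v D E l ∧ (zpoly φ h).eval ζ ≠ 0 ∧ W ((zpoly φ h).eval ζ) ≤ U + (η + α) ∧
        W.Ge U ((zpoly φ g').eval ζ - (zpoly φ g₀).eval ζ) := by
    intro ζ hζ
    obtain ⟨u, f, hu, hf, hfE, hfl, huf⟩ := hdom ζ hζ
    obtain ⟨Q, hQ⟩ := hu f hf
    obtain ⟨Qg, hQg⟩ := hu g hg
    have hQD : Q ≤ D := by
      have h1 : Q ≤ (zpoly φ f).natDegree := by
        have := Polynomial.le_natDegree_of_ne_zero hQ.1
        rwa [Polynomial.natDegree_taylor] at this
      rw [zpoly_natDegree] at h1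
      have h2 := finSuccEquiv_natDegree_le f
      have h3 : f.totalDegree ≤ ⌊E₀⌋₊ := Nat.le_floor hfE
      omega
    have hfD : (finSuccEquiv k m f).natDegree ≤ D := by
      have h2 := finSuccEquiv_natDegree_le f
      have h3 : f.totalDegree ≤ ⌊E₀⌋₊ := Nat.le_floor hfE
      omega
    refine ⟨u (toFF g), hx x α s Q f, ?_, ?_, ?_, ?_⟩
    · exact hx_mem v hv0 s hs0 hs x hx1 α hα hxv D E l Q hQD f hfD (by linarith)
        (RVal.Ge.of_le hfl)
    · rw [eval_hx]
      exact (val_factor W w hW x hx0 α hα hxw s hs0 Q _ hQ.1).1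
    · rw [eval_hx]
      have h1 := (val_factor W w hW x hx0 α hα hxw s hs0 Q _ hQ.1).2.2
      have h2 := hQ.2.1
      linarith
    · rw [hg']
      exact gprime_ge W w hw0 hW x hx0 α hα hxw s hs0 D g₀ g μ ζ _ Qg hQg
  choose! U h hmem hne hle hge using key
  -- the places
  set P := zpoly φ f₀ with hP
  have hP0 : P ≠ 0 := by
    intro h0
    apply hf0
    apply zpoly_injective φ
    rw [← hP, h0, ← zpolyHom_apply, _root_.map_zero]
  set R := P.roots.toFinset with hR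
  let h' : Ω → MvPolynomial (Fin (m + 1)) k := fun ζ => if (ζ ≠ 0 → 0 ≤ W ζ) then h ζ else 0
  have hzero : (0 : MvPolynomial (Fin (m + 1)) k) ∈ Fam v D E l := by
    refine ⟨by simp, by simpa using hE, ?_⟩
    rw [_root_.map_zero]
    exact RVal.Ge.zero
  have h'mem : ∀ ζ, h' ζ ∈ Fam v D E l := by
    intro ζ
    by_cases hζ : ζ ≠ 0 → 0 ≤ W ζ
    · simp only [h', if_pos hζ]
      exact hmem ζ hζ
    · simp only [h', if_neg hζ]
      exact hzero
  have hXmem : (X 0 - C c : MvPolynomial (Fin (m + 1)) k) ^ D ∈ Fam v D E l :=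
    Xpow_mem v c ν hc D E l hDE hDl
  let q : ℕ → MvPolynomial (Fin (m + 1)) k := fun i =>
    if i = 0 then g₀ else if i = 1 then (X 0 - C c) ^ D else
      if hi : i - 2 < R.card then h' ((R.equivFin.symm ⟨i - 2, hi⟩ : R) : Ω) else 0
  have hqmem : ∀ i, q i ∈ Fam v D E l := by
    intro i
    simp only [q]
    split_ifs
    · exact hg₀
    · exact hXmem
    · exact h'mem _
    · exact hzero
  have hq2 : ∀ ζ ∈ R, ∃ i < R.card + 2, q i = h' ζ := by
    intro ζ hζ
    refine ⟨(R.equivFin ⟨ζ, hζ⟩ : ℕ) + 2, by omega, ?_⟩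
    have h1 : (R.equivFin ⟨ζ, hζ⟩ : ℕ) < R.card := (R.equivFin ⟨ζ, hζ⟩).2
    simp only [q]
    rw [if_neg (by omega), if_neg (by omega), dif_pos (by omega)]
    congr 1
    have h2 : (⟨(R.equivFin ⟨ζ, hζ⟩ : ℕ) + 2 - 2, by omega⟩ : Fin R.card) = R.equivFin ⟨ζ, hζ⟩ := by
      ext
      simp
    rw [h2, Equiv.symm_apply_apply]
  -- the generic parameter
  have hk : ∀ a : k, a ≠ 0 → W ((φ.comp (algebraMap k (FF k m))) a) = 0 := by
    intro a ha
    rw [RingHom.comp_apply, hφ, hW _ ((map_ne_zero _).mpr ha), val_const w hw0 a ha]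
  let y : Option Ω → ℕ → Ω := fun a i =>
    match a with
    | none => (zpoly φ (q i)).coeff D
    | some ζ => (zpoly φ (q i)).eval ζ
  obtain ⟨t, ht⟩ := exists_generic (φ.comp (algebraMap k (FF k m))) W hk (R.card + 2)
    (insert none (R.image some)) y
  set g₁ : MvPolynomial (Fin (m + 1)) k :=
    ∑ j ∈ Finset.range (R.card + 2), C (t ^ j) * q j with hg₁
  have e1 : ∀ ζ, (zpoly φ g₁).eval ζ
      = ∑ j ∈ Finset.range (R.card + 2), (φ.comp (algebraMap k (FF k m))) (t ^ j) * y (some ζ) j := by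
    intro ζ
    rw [hg₁, zpoly_sum, Polynomial.eval_finsetSum]
    refine Finset.sum_congr rfl fun j _ => ?_
    rw [hφ, eval_C_mul]
    rfl
  have e2 : (zpoly φ g₁).coeff D
      = ∑ j ∈ Finset.range (R.card + 2), (φ.comp (algebraMap k (FF k m))) (t ^ j) * y none j := by
    rw [hg₁, zpoly_sum, Polynomial.finsetSum_coeff]
    refine Finset.sum_congr rfl fun j _ => ?_
    rw [hφ, coeff_C_mul']
    rfl
  have hg₁mem : g₁ ∈ Fam v D E l :=
    Fam.sum v D E l hv0 hE (Finset.range (R.card + 2)) (fun j => t ^ j) q fun j _ => hqmem j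
  refine ⟨g₁, hg₁mem, ?_⟩
  have hq1 : q 1 = (X 0 - C c) ^ D := rfl
  have hq0 : q 0 = g₀ := rfl
  have hroot : ∀ ζ ∈ P.roots, (zpoly φ g').eval ζ ≠ 0 →
      (zpoly φ g₁).eval ζ ≠ 0 ∧ W ((zpoly φ g₁).eval ζ) ≤ W ((zpoly φ g').eval ζ) + (η + α) := by
    intro ζ hζ hg'ζ
    have hζR : ζ ∈ R := Multiset.mem_toFinset.mpr hζ
    have hS : (some ζ : Option Ω) ∈ insert none (R.image some) :=
      Finset.mem_insert_of_mem (Finset.mem_image_of_mem _ hζR)
    by_cases hc1 : ζ ≠ 0 → 0 ≤ W ζ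
    · obtain ⟨i, hi, hqi⟩ := hq2 ζ hζR
      have hqi' : q i = h ζ := by rw [hqi]; simp only [h', if_pos hc1]
      have h1 := ht _ hS i hi (by
        change (zpoly φ (q i)).eval ζ ≠ 0
        rw [hqi']
        exact hne ζ hc1)
      rw [← e1 ζ] at h1
      have h2 : W (y (some ζ) i) = W ((zpoly φ (h ζ)).eval ζ) := by
        change W ((zpoly φ (q i)).eval ζ) = _
        rw [hqi']
      rw [h2] at h1
      refine ⟨h1.1, ?_⟩
      have h3 := hle ζ hc1
      have h4 := hge ζ hc1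
      by_cases h5 : (zpoly φ g₀).eval ζ = 0
      · rw [h5, sub_zero] at h4
        have h6 := h4 hg'ζ
        linarith [h1.2]
      · have h6 := ht _ hS 0 (by omega) (by
          change (zpoly φ (q 0)).eval ζ ≠ 0
          rw [hq0]
          exact h5)
        rw [← e1 ζ] at h6
        have h7 : W (y (some ζ) 0) = W ((zpoly φ g₀).eval ζ) := by
          change W ((zpoly φ (q 0)).eval ζ) = _
          rw [hq0]
        rw [h7] at h6
        have h8 : W.Ge (min (U ζ) (W ((zpoly φ g₀).eval ζ))) ((zpoly φ g').eval ζ) := by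
          have h9 := (h4.mono (min_le_left (U ζ) (W ((zpoly φ g₀).eval ζ)))).add
            ((RVal.ge_self ((zpoly φ g₀).eval ζ)).mono
              (min_le_right (U ζ) (W ((zpoly φ g₀).eval ζ))))
          rwa [sub_add_cancel] at h9
        have h9 := h8 hg'ζ
        rcases min_le_iff.mp h9 with h10 | h10
        · linarith [h1.2]
        · linarith [h6.2]
    · push Not at hc1
      obtain ⟨hζ0, hζn⟩ := hc1
      have hev : (zpoly φ (q 1)).eval ζ = (ζ - φ (algebraMap k (FF k m) c)) ^ D := by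
        rw [hq1, zpoly_pow, ← zpolyHom_apply, map_sub, zpolyHom_apply, zpolyHom_apply, zpoly_X0,
          zpoly_C, Polynomial.eval_pow, Polynomial.eval_sub, Polynomial.eval_X, Polynomial.eval_C]
      have hv1 : ζ - φ (algebraMap k (FF k m) c) ≠ 0 ∧
          W (ζ - φ (algebraMap k (FF k m) c)) = W ζ := by
        by_cases hc0 : c = 0
        · rw [hc0, _root_.map_zero, _root_.map_zero, sub_zero]
          exact ⟨hζ0, rfl⟩
        · have h1 : φ (algebraMap k (FF k m) c) ≠ 0 :=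
            (map_ne_zero _).mpr ((map_ne_zero _).mpr hc0)
          have h2 : W (-φ (algebraMap k (FF k m) c)) = 0 := by
            rw [W.map_neg _ h1]
            exact hk c hc0
          rw [sub_eq_add_neg]
          exact W.add_of_lt hζ0 (neg_ne_zero.mpr h1) (by rw [h2]; exact hζn)
      have h1 := ht _ hS 1 (by omega) (by
        change (zpoly φ (q 1)).eval ζ ≠ 0
        rw [hev]
        exact pow_ne_zero _ hv1.1)
      rw [← e1 ζ] at h1
      have h2 : W (y (some ζ) 1) = D * W ζ := by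
        change W ((zpoly φ (q 1)).eval ζ) = _
        rw [hev, W.map_pow hv1.1, hv1.2]
      rw [h2] at h1
      refine ⟨h1.1, ?_⟩
      have h3 : W.Ge (D * W ζ) ((zpoly φ g').eval ζ) := by
        rw [Polynomial.eval_eq_sum_range' (Nat.lt_succ_of_le hg'D)]
        refine RVal.Ge.sum _ _ fun i hi => ?_
        have h4 : W.Ge (D * W ζ) (ζ ^ i) := by
          intro _
          rw [W.map_pow hζ0]
          have h5 : (i : ℝ) ≤ D := by
            exact_mod_cast Nat.lt_succ_iff.mp (Finset.mem_range.mp hi)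
          exact mul_le_mul_of_nonpos_right h5 hζn.le
        have h5 := (zpoly_val W w hw0 hW g' i).mul h4
        rwa [zero_add] at h5
      have h4 := h3 hg'ζ
      linarith [h1.2]
  have hinf : P.natDegree < D → (zpoly φ g').coeff D ≠ 0 →
      (zpoly φ g₁).coeff D ≠ 0 ∧ W ((zpoly φ g₁).coeff D) ≤ W ((zpoly φ g').coeff D) + (η + α) := by
    intro _ hcD
    have hev : (zpoly φ (q 1)).coeff D = 1 := by
      rw [hq1, zpoly_pow, ← zpolyHom_apply, map_sub, zpolyHom_apply, zpolyHom_apply, zpoly_X0,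
        zpoly_C]
      have h1 := (Polynomial.monic_X_sub_C (φ (algebraMap k (FF k m) c))).pow D
      have h2 : ((Polynomial.X - Polynomial.C (φ (algebraMap k (FF k m) c))) ^ D).natDegree = D := by
        rw [Polynomial.natDegree_pow, Polynomial.natDegree_X_sub_C, mul_one]
      have h3 := h1.coeff_natDegree
      rwa [h2] at h3
    have h1 := ht none (Finset.mem_insert_self _ _) 1 (by omega) (by
      change (zpoly φ (q 1)).coeff D ≠ 0
      rw [hev]
      exact one_ne_zero)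
    rw [← e2] at h1
    have h2 : W (y none 1) = 0 := by
      change W ((zpoly φ (q 1)).coeff D) = _
      rw [hev, W.map_one]
    rw [h2] at h1
    refine ⟨h1.1, ?_⟩
    have h3 := zpoly_val W w hw0 hW g' D hcD
    linarith [h1.2]
  have hPD : P.natDegree ≤ D := by
    rw [hP, zpoly_natDegree]
    exact hf₀.1
  have h1D : (zpoly φ g₁).natDegree ≤ D := by
    rw [zpoly_natDegree]
    exact hg₁mem.1
  have h2 : P.resultant (zpoly φ g') D D ≠ 0 := by
    rw [hP, ← Rs_map]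
    exact (map_ne_zero _).mpr (toFF_ne_zero hRs)
  have h20 := (JMF.resultant_ne_zero_iff P (zpoly φ g') D (IsAlgClosed.splits P) hP0 hPD hg'D).mp h2
  obtain ⟨h3, h4⟩ := JMF.val_resultant_le W P (zpoly φ g') (zpoly φ g₁) D (IsAlgClosed.splits P)
    hP0 hPD hg'D h1D h2 (η + α) (fun ζ hζ => hroot ζ hζ (h20.1 ζ hζ))
    (fun hlt => hinf hlt (h20.2 hlt))
  have h5 : Rs D f₀ g₁ ≠ 0 := by
    intro h0
    apply h3
    rw [hP, ← Rs_map, h0, _root_.map_zero, _root_.map_zero]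
  refine ⟨h5, ?_⟩
  rw [hP, ← Rs_map, ← Rs_map, hφ, hW _ (toFF_ne_zero h5), hW _ (toFF_ne_zero hRs)] at h4
  exact h4

end Pool.Agent.JM69
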