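import Pool.Agent.Lib.JM_H15.Compl
import Pool.Agent.Lib.MP_0c183c_TD.DerLift
import Pool.Agent.Lib.JM69.Base

/-!
# Row OMEGA: the algebraic closure of the completion, with the spectral norm (OWNER: helper29)
-/

set_option autoImplicit false

namespace Pool.Agent.JM69

open Pool.Agent.H15JM UniformSpace

variable {k : Type} [Field k]

/-- The spectral valuation of the algebraic closure of a complete field. -/
theorem exists_spec {M : Type} [NormedField M] [CompleteSpace M]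
    (hum : ∀ x y : M, ‖x + y‖ ≤ max ‖x‖ ‖y‖) (hnt : ∃ x : M, x ≠ 0 ∧ ‖x‖ ≠ 1) :
    ∃ (Ω : Type) (_ : Field Ω) (_ : Algebra M Ω) (_ : IsAlgClosed Ω)
      (_ : Algebra.IsAlgebraic M Ω) (W : RVal Ω),
      (∀ x : M, W (algebraMap M Ω x) = - Real.log ‖x‖) ∧
      ∀ (σ : Ω ≃ₐ[M] Ω) (x : Ω), W (σ x) = W x := by
  let i1 : NontriviallyNormedField M := NontriviallyNormedField.ofNormNeOne hnt
  have i2 : IsUltrametricDist M := ⟨fun x y z => by
    rw [dist_eq_norm, dist_eq_norm, dist_eq_norm, ← sub_add_sub_cancel x y z]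
    exact hum _ _⟩
  have hpos : ∀ x : AlgebraicClosure M, x ≠ 0 → 0 < spectralNorm M (AlgebraicClosure M) x :=
    fun x hx => spectralNorm_zero_lt hx (Algebra.IsAlgebraic.isAlgebraic x)
  refine ⟨AlgebraicClosure M, inferInstance, inferInstance, inferInstance, inferInstance,
          { toFun := fun x => - Real.log (spectralNorm M (AlgebraicClosure M) x)
            map_mul' := ?_
            map_add' := ?_ }, ?_, ?_⟩
  · intro x y hx hy
    have h := spectralAlgNorm_mul (K := M) x y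
    rw [spectralAlgNorm_def, spectralAlgNorm_def, spectralAlgNorm_def] at h
    rw [h, Real.log_mul (hpos x hx).ne' (hpos y hy).ne', neg_add]
  · intro x y hx hy hxy
    have h := isNonarchimedean_spectralNorm (K := M) x y
    rcases le_max_iff.1 h with h1 | h1
    · exact min_le_of_left_le (neg_le_neg (Real.log_le_log (hpos _ hxy) h1))
    · exact min_le_of_right_le (neg_le_neg (Real.log_le_log (hpos _ hxy) h1))
  · intro x
    change - Real.log (spectralNorm M (AlgebraicClosure M) (algebraMap M _ x)) = _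
    rw [spectralNorm_extends]
  · intro σ x
    change - Real.log (spectralNorm M (AlgebraicClosure M) (σ x)) =
      - Real.log (spectralNorm M (AlgebraicClosure M) x)
    rw [← spectralNorm_eq_of_equiv σ x]

section Aux

variable {K : Type} [NormedField K] [CharZero K] [Algebra k K]

omit [CharZero K] in
/-- The extension of a bounded derivation to the completion, as a derivation. -/
theorem exists_compl_der (D : Derivation k K K) {C : ℝ} (hC : 0 ≤ C)
    (hD : ∀ f, ‖D f‖ ≤ C * ‖f‖) [Algebra k (Completion K)]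
    (halg : ∀ c : k, algebraMap k (Completion K) c = ((algebraMap k K c : K) : Completion K)) :
    ∃ E : Derivation k (Completion K) (Completion K),
      (∀ x : K, E (x : Completion K) = ((D x : K) : Completion K)) ∧
      ∀ x, E x = complMap D x := by
  let L : Completion K →ₗ[k] Completion K :=
    { toFun := complMap D
      map_add' := complMap_add D hC hD
      map_smul' := fun c x => by
        rw [Algebra.smul_def, RingHom.id_apply, Algebra.smul_def, halg, complMap_mul D hC hD,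
          complMap_coe D hC hD, Derivation.map_algebraMap, Completion.coe_zero, mul_zero,
          add_zero] }
  let E : Derivation k (Completion K) (Completion K) :=
    Derivation.mk' L fun x y => complMap_mul D hC hD x y
  exact ⟨E, fun x => complMap_coe D hC hD x, fun x => rfl⟩

omit [CharZero K] in
variable (k K) in
/-- The completion, as an abstract complete field. -/
theorem exists_compl (hum : ∀ x y : K, ‖x + y‖ ≤ max ‖x‖ ‖y‖) :
    ∃ (M : Type) (_ : NormedField M) (_ : CompleteSpace M) (_ : Algebra k M) (ι : K →+* M),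
      (∀ c : k, algebraMap k M c = ι (algebraMap k K c)) ∧ (∀ x, ‖ι x‖ = ‖x‖) ∧
      (∀ x y : M, ‖x + y‖ ≤ max ‖x‖ ‖y‖) ∧
      (∀ (z : M) (ε : ℝ), 0 < ε → ∃ y : K, ‖z - ι y‖ < ε) ∧
      ∀ (D : Derivation k K K) (C₀ : ℝ), 0 ≤ C₀ → (∀ f, ‖D f‖ ≤ C₀ * ‖f‖) →
        ∃ E : Derivation k M M, (∀ x, E (ι x) = ι (D x)) ∧
          ∀ C : ℝ, 0 ≤ C → (∀ f, ‖D f‖ ≤ C * ‖f‖) → ∀ x, ‖E x‖ ≤ C * ‖x‖ := by
  let aKM : K →+* Completion K := Completion.coeRingHom
  let algM : Algebra k (Completion K) := (aKM.comp (algebraMap k K)).toAlgebra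
  refine ⟨Completion K, inferInstance, inferInstance, algM, aKM, fun c => rfl,
    fun x => Completion.norm_coe x, compl_um hum, ?_, ?_⟩
  · intro z ε hε
    obtain ⟨y, hy⟩ := (Completion.denseRange_coe (α := K)).exists_dist_lt z hε
    exact ⟨y, by rw [dist_eq_norm] at hy; exact hy⟩
  · intro D C₀ hC₀ hD
    obtain ⟨E, hE, hE'⟩ := exists_compl_der D hC₀ hD fun c => rfl
    refine ⟨E, hE, fun C hC hDC x => ?_⟩
    rw [hE']
    exact complMap_norm D hC hDC x

theorem exists_omega_aux (hum : ∀ x y : K, ‖x + y‖ ≤ max ‖x‖ ‖y‖)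
    (hnt : ∃ x : K, x ≠ 0 ∧ ‖x‖ ≠ 1) :
    ∃ (Ω : Type) (_ : Field Ω) (_ : Algebra K Ω) (_ : Algebra k Ω) (_ : IsScalarTower k K Ω)
      (_ : IsAlgClosed Ω) (W : RVal Ω) (M₀ : Subfield Ω),
      (∀ x : K, x ≠ 0 → W (algebraMap K Ω x) = - Real.log ‖x‖) ∧
      (∀ x : K, algebraMap K Ω x ∈ M₀) ∧
      Algebra.IsAlgebraic M₀ Ω ∧
      (∀ x y : Ω, x ≠ 0 → y ≠ 0 → minpoly M₀ x = minpoly M₀ y → W x = W y) ∧
      (∀ x ∈ M₀, ∀ C : ℝ, ∃ a : K, W.Ge C (x - algebraMap K Ω a)) ∧
      ∀ E : Derivation k K K, (∃ C : ℝ, ∀ g, ‖E g‖ ≤ Real.exp C * ‖g‖) →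
        ∃ E' : Derivation k Ω Ω, (∀ g, E' (algebraMap K Ω g) = algebraMap K Ω (E g)) ∧
          ∀ C : ℝ, (∀ g, ‖E g‖ ≤ Real.exp C * ‖g‖) → ∀ x ∈ M₀, E' x ≠ 0 →
            W x - W (E' x) ≤ C := by
  obtain ⟨M, iMn, iMc, algM, ι, hιk, hιn, hum', hdense, hder⟩ := exists_compl k K hum
  have hnt' : ∃ x : M, x ≠ 0 ∧ ‖x‖ ≠ 1 := by
    obtain ⟨x, hx, hx1⟩ := hnt
    exact ⟨ι x, (map_ne_zero ι).2 hx, by rwa [hιn]⟩
  obtain ⟨Ω, iF, iM, iC, iA, W, hW, hinv⟩ := exists_spec hum' hnt'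
  let algK : Algebra K Ω := ((algebraMap M Ω).comp ι).toAlgebra
  let algk : Algebra k Ω := ((algebraMap K Ω).comp (algebraMap k K)).toAlgebra
  have htow : IsScalarTower k K Ω := IsScalarTower.of_algebraMap_eq fun c => rfl
  have htow' : IsScalarTower k M Ω := IsScalarTower.of_algebraMap_eq fun c => by
    rw [hιk]
    rfl
  have hK : ∀ x : K, algebraMap K Ω x = algebraMap M Ω (ι x) := fun x => rfl
  have hC0 : CharZero M := charZero_of_injective_ringHom ι.injective
  let M₀ : Subfield Ω := (algebraMap M Ω).fieldRange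
  have hM₀ : ∀ x : M, algebraMap M Ω x ∈ M₀ := fun x => ⟨x, rfl⟩
  have halg : Algebra.IsAlgebraic M₀ Ω := by
    refine ⟨fun x => ?_⟩
    obtain ⟨P, hP, hx⟩ := Algebra.IsAlgebraic.isAlgebraic (R := M) x
    let φ : M →+* M₀ := (algebraMap M Ω).rangeRestrictField
    refine ⟨P.map φ, (Polynomial.map_ne_zero_iff φ.injective).2 hP, ?_⟩
    rw [Polynomial.aeval_def, Polynomial.eval₂_map]
    exact hx
  refine ⟨Ω, iF, algK, algk, htow, iC, W, M₀, ?_, ?_, halg, ?_, ?_, ?_⟩
  · intro x _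
    rw [hK, hW, hιn]
  · intro x
    exact hM₀ _
  · intro x y _ _ hxy
    have hac : IsAlgClosure M₀ Ω := ⟨inferInstance, inferInstance⟩
    obtain ⟨σ, hσ⟩ := (isConjRoot_def.2 hxy).exists_algEquiv
    let τ : Ω ≃ₐ[M] Ω := AlgEquiv.ofRingEquiv (f := σ.toRingEquiv) fun x =>
      σ.commutes ⟨algebraMap M Ω x, hM₀ x⟩
    have h1 := hinv τ y
    have h2 : τ y = x := hσ
    rw [h2] at h1
    exact h1
  · rintro x ⟨z, rfl⟩ C
    obtain ⟨y, hy⟩ := hdense z _ (Real.exp_pos (-C))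
    refine ⟨y, fun hne => ?_⟩
    rw [hK, ← map_sub] at hne ⊢
    rw [hW]
    have h0 : z - ι y ≠ 0 := fun h => hne (by rw [h, map_zero])
    have := Real.log_lt_log (norm_pos_iff.2 h0) hy
    rw [Real.log_exp] at this
    linarith
  · rintro E ⟨C₀, hC₀⟩
    obtain ⟨E₁, hE₁, hE₁'⟩ := hder E _ (Real.exp_pos C₀).le hC₀
    let d : Derivation k M Ω := (Algebra.linearMap M Ω).compDer E₁
    have hd : ∀ x : M, d x = algebraMap M Ω (E₁ x) := fun x => rfl
    have hfe : Algebra.FormallyEtale M Ω := Algebra.FormallyEtale.of_isSeparable M Ω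
    obtain ⟨E', hE'⟩ := Lib.MP_0c183c_TD.exists_der_lift (R := k) (S := M) (T := Ω) d
    refine ⟨E', fun g => ?_, fun C hC => ?_⟩
    · rw [hK, hE', hd, hE₁, hK]
    · rintro x ⟨z, rfl⟩ hne
      rw [hE', hd] at hne ⊢
      rw [hW, hW]
      have h1 := hE₁' _ (Real.exp_pos C).le hC z
      have h2 : E₁ z ≠ 0 := fun h => hne (by rw [h, map_zero])
      have h3 : z ≠ 0 := fun h => h2 (by rw [h, map_zero])
      have h4 := Real.log_le_log (norm_pos_iff.2 h2) h1
      rw [Real.log_mul (Real.exp_pos _).ne' (norm_ne_zero_iff.2 h3), Real.log_exp] at h4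
      linarith

end Aux

/-- ROW OMEGA. The algebraic closure of the completion, with the spectral norm.
`M₀` is (the image of) the completion of `F`. -/
theorem exists_omega {F : Type} [Field F] [CharZero F] [Algebra k F] (w : RVal F)
    (hk : ∀ c : k, c ≠ 0 → w (algebraMap k F c) = 0) :
    ∃ (Ω : Type) (_ : Field Ω) (_ : Algebra F Ω) (_ : Algebra k Ω) (_ : IsScalarTower k F Ω)
      (_ : IsAlgClosed Ω) (W : RVal Ω) (M₀ : Subfield Ω),
      (∀ x : F, x ≠ 0 → W (algebraMap F Ω x) = w x) ∧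
      (∀ x : F, algebraMap F Ω x ∈ M₀) ∧
      Algebra.IsAlgebraic M₀ Ω ∧
      (∀ x y : Ω, x ≠ 0 → y ≠ 0 → minpoly M₀ x = minpoly M₀ y → W x = W y) ∧
      (∀ x ∈ M₀, ∀ C : ℝ, ∃ a : F, W.Ge C (x - algebraMap F Ω a)) ∧
      ∀ E : Derivation k F F, (∃ C, ∀ g, E g ≠ 0 → w g - w (E g) ≤ C) →
        ∃ E' : Derivation k Ω Ω, (∀ g, E' (algebraMap F Ω g) = algebraMap F Ω (E g)) ∧
          ∀ C, (∀ g, E g ≠ 0 → w g - w (E g) ≤ C) → ∀ x ∈ M₀, E' x ≠ 0 → W x - W (E' x) ≤ C := by
  by_cases hnt : ∃ x : F, x ≠ 0 ∧ w x ≠ 0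
  · let nf : NormedField F := nfield w
    have hnorm : ∀ x : F, ‖x‖ = nrm w x := fun x => rfl
    have hbd : ∀ (E : Derivation k F F) (C : ℝ), (∀ g, E g ≠ 0 → w g - w (E g) ≤ C) →
        ∀ g, ‖E g‖ ≤ Real.exp C * ‖g‖ := by
      intro E C hC g
      rw [hnorm, hnorm]
      by_cases hf : E g = 0
      · rw [hf, nrm_zero]
        exact mul_nonneg (Real.exp_pos _).le (nrm_nonneg w g)
      · have hf0 : g ≠ 0 := by
          intro h0
          exact hf (by rw [h0, map_zero])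
        rw [nrm_of_ne w hf, nrm_of_ne w hf0, ← Real.exp_add]
        exact Real.exp_le_exp.2 (by linarith [hC g hf])
    obtain ⟨Ω, i1, i2, i3, i4, i5, W, M₀, h1, h2, h3, h4, h5, h6⟩ :=
      exists_omega_aux (k := k) (K := F) (fun x y => nrm_add w x y) (by
        obtain ⟨x, hx, hx1⟩ := hnt
        refine ⟨x, hx, ?_⟩
        rw [hnorm, nrm_of_ne w hx]
        intro h
        rw [Real.exp_eq_one_iff, neg_eq_zero] at h
        exact hx1 h)
    refine ⟨Ω, i1, i2, i3, i4, i5, W, M₀, ?_, h2, h3, h4, h5, ?_⟩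
    · intro x hx
      rw [h1 x hx, hnorm, nrm_of_ne w hx, Real.log_exp, neg_neg]
    · rintro E ⟨C₀, hC₀⟩
      obtain ⟨E', hE', hE''⟩ := h6 E ⟨C₀, hbd E C₀ hC₀⟩
      exact ⟨E', hE', fun C hC => hE'' C (hbd E C hC)⟩
  · push Not at hnt
    let Ω := AlgebraicClosure F
    let W : RVal Ω := ⟨fun _ => 0, fun _ _ _ _ => by simp, fun _ _ _ _ _ => by simp⟩
    have hW : ∀ x : Ω, W x = 0 := fun _ => rfl
    let M₀ : Subfield Ω := (algebraMap F Ω).fieldRange
    have htow : IsScalarTower k F Ω := inferInstance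
    refine ⟨Ω, inferInstance, inferInstance, inferInstance, htow, inferInstance, W, M₀, ?_, ?_, ?_,
      ?_, ?_, ?_⟩
    · intro x hx
      rw [hnt x hx]
    · intro x
      exact ⟨x, rfl⟩
    · refine ⟨fun x => ?_⟩
      obtain ⟨P, hP, hx⟩ := Algebra.IsAlgebraic.isAlgebraic (R := F) x
      let φ : F →+* M₀ := (algebraMap F Ω).rangeRestrictField
      refine ⟨P.map φ, (Polynomial.map_ne_zero_iff φ.injective).2 hP, ?_⟩
      rw [Polynomial.aeval_def, Polynomial.eval₂_map]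
      exact hx
    · intro x y _ _ _
      rfl
    · rintro x ⟨z, rfl⟩ C
      refine ⟨z, fun h => absurd (sub_self _) h⟩
    · rintro E -
      let d : Derivation k F Ω := (Algebra.linearMap F Ω).compDer E
      have hd : ∀ x : F, d x = algebraMap F Ω (E x) := fun x => rfl
      have hfe : Algebra.FormallyEtale F Ω := Algebra.FormallyEtale.of_isSeparable F Ω
      obtain ⟨E', hE'⟩ := Lib.MP_0c183c_TD.exists_der_lift (R := k) (S := F) (T := Ω) d
      refine ⟨E', fun g => ?_, fun C hC => ?_⟩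
      · rw [hE', hd]
      · rintro x ⟨z, rfl⟩ hne
        rw [hE', hd] at hne
        have h2 : E z ≠ 0 := fun h => hne (by rw [h, map_zero])
        have h3 : z ≠ 0 := fun h => h2 (by rw [h, map_zero])
        have h4 := hC z h2
        rw [hnt _ h2, hnt _ h3] at h4
        exact h4

end Pool.Agent.JM69
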