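import Pool.Agent.Lib.JMF.Cluster
import Pool.Agent.Lib.JM69.Base

/-!
# Row ZORN: bounded derivations on the algebraic closure (OWNER: helper29)
-/

set_option autoImplicit false

namespace Pool.Agent.JM69

open Pool.Agent.H15JM Pool.Agent.JMF

variable {k : Type} [Field k]

/-- `E` is `γ`-bounded on `C`, the valuation is invariant under `Aut (Ω/C)`: then `E` is
`γ`-bounded on `Ω`. -/
theorem bd_all {C Ω : Type} [Field C] [Field Ω] [CharZero Ω] [IsAlgClosed Ω] [Algebra k Ω]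
    [Algebra C Ω] [Algebra.IsAlgebraic C Ω] (w : RVal Ω)
    (hinv : ∀ (σ : Ω ≃ₐ[C] Ω) (x : Ω), w (σ x) = w x) (hn : ∀ m : ℕ, m ≠ 0 → w (m : Ω) = 0)
    (E : Derivation k Ω Ω) (γ : ℝ)
    (hC : ∀ b : C, w.Ge (w (algebraMap C Ω b) - γ) (E (algebraMap C Ω b))) (x : Ω) :
    w.Ge (w x - γ) (E x) := by
  classical
  let S : Set (IntermediateField C Ω) := {M | ∀ x ∈ M, w.Ge (w x - γ) (E x)}
  have hbot : (⊥ : IntermediateField C Ω) ∈ S := by
    intro x hx
    obtain ⟨b, rfl⟩ := IntermediateField.mem_bot.1 hx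
    exact hC b
  obtain ⟨M, -, hM⟩ := zorn_le_nonempty₀ S (fun c hc hch M₀ hM₀ => by
    refine ⟨sSup c, ?_, fun M hM => le_sSup hM⟩
    intro x hx
    have hdir : DirectedOn (· ≤ ·) c := hch.directedOn
    have h1 : x ∈ (⋃ M ∈ c, (M : Set Ω)) := by
      have hne : Nonempty c := ⟨⟨M₀, hM₀⟩⟩
      have h2 := IntermediateField.coe_iSup_of_directed (t := fun M : c => (M : IntermediateField C Ω))
        hdir.directed_val
      rw [sSup_eq_iSup'] at hx
      have : x ∈ ((⨆ M : c, (M : IntermediateField C Ω) : IntermediateField C Ω) : Set Ω) := hx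
      rw [h2] at this
      obtain ⟨M, hM⟩ := Set.mem_iUnion.1 this
      exact Set.mem_biUnion M.2 hM
    obtain ⟨M, hMc, hxM⟩ := Set.mem_iUnion₂.1 h1
    exact hc hMc x hxM) ⊥ hbot
  have hMtop : ∀ y : Ω, y ∈ M := by
    intro y
    by_contra hy
    have halg : Algebra.IsAlgebraic M Ω := Algebra.IsAlgebraic.tower_top (K := C) M
    have hinvM : ∀ (σ : Ω ≃ₐ[M] Ω) (x : Ω), w (σ x) = w x := fun σ x =>
      hinv (σ.restrictScalars C) x
    obtain ⟨θ, hθM, hθ0, hθ⟩ := exists_cluster (B := M) w hinvM hn y (by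
      rintro ⟨b, rfl⟩
      exact hy b.2)
    have h1 := bd_adjoin (B := M) w hinvM E γ (fun b => hM.prop b b.2) hn hθ0 hθ
    let M' : IntermediateField C Ω := (IntermediateField.adjoin M {θ}).restrictScalars C
    have hM' : M' ∈ S := fun x hx => h1 x hx
    have hle : M ≤ M' := by
      intro x hx
      exact (IntermediateField.adjoin M {θ}).algebraMap_mem ⟨x, hx⟩
    have hθM' : θ ∈ M' := IntermediateField.mem_adjoin_simple_self M θ
    exact hθM ⟨⟨θ, hM.le_of_ge hM' hle hθM'⟩, rfl⟩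
  exact hM.prop x (hMtop x)

/-- ROW ZORN. A derivation that is `C`-bounded on `M₀` is `C`-bounded on the algebraic closure
(residue characteristic `0`, conjugates over `M₀` have the same value). -/
theorem contractive_all {Ω : Type} [Field Ω] [CharZero Ω] [IsAlgClosed Ω] [Algebra k Ω]
    (W : RVal Ω) (hn : ∀ m : ℕ, m ≠ 0 → W (m : Ω) = 0) (M₀ : Subfield Ω)
    (halg : Algebra.IsAlgebraic M₀ Ω)
    (hconj : ∀ x y : Ω, x ≠ 0 → y ≠ 0 → minpoly M₀ x = minpoly M₀ y → W x = W y)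
    (E : Derivation k Ω Ω) (C : ℝ) (hC : ∀ x ∈ M₀, E x ≠ 0 → W x - W (E x) ≤ C) (x : Ω)
    (hx : E x ≠ 0) : W x - W (E x) ≤ C := by
  have h := bd_all (C := M₀) W (fun σ x => by
    by_cases hx : x = 0
    · rw [hx, map_zero]
    · refine hconj _ _ (fun h => hx ?_) hx (minpoly.algEquiv_eq σ x)
      rwa [map_eq_zero] at h) hn E C (fun b hb => by
      have h1 := hC b b.2 hb
      change W b - C ≤ W (E b)
      linarith) x hx
  linarith

end Pool.Agent.JM69
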