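import Pool.Agent.Lib.JM69.VolCore
import Pool.Agent.Lib.JM69.Omega
import Pool.Agent.Lib.JM69.Zorn

/-!
# Row VOL (OWNER: helper46)
-/

set_option autoImplicit false

open MvPolynomial

namespace Pool.Agent.JM69

open Pool.Agent.H15JM

variable {k : Type} [Field k]

/-- ROW VOL. -/
theorem exists_vol {F : Type} [Field F] [CharZero F] [Algebra k F] {m : ℕ} (w : RVal F)
    (hk : ∀ c : k, c ≠ 0 → w (algebraMap k F c) = 0) (D : Fin m → Derivation k F F)
    (t : Fin m → F) (ht : ∀ i j, D j (t i) = if i = j then 1 else 0)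
    (hbd : ∃ C, ∀ j g, D j g ≠ 0 → w g - w (D j g) ≤ C) (A : ℝ) (hA : ABd D w A) :
    ∃ (Ω : Type) (_ : Field Ω) (_ : Algebra F Ω) (_ : Algebra k Ω) (_ : IsScalarTower k F Ω)
      (_ : IsAlgClosed Ω) (W : RVal Ω) (D' : Fin m → Derivation k Ω Ω),
      (∀ x : F, x ≠ 0 → W (algebraMap F Ω x) = w x) ∧
      (∀ j g, D' j (algebraMap F Ω g) = algebraMap F Ω (D j g)) ∧ Frame D' W A := by
  obtain ⟨Ω, _, _, _, _, _, W, M₀, hWw, hF, halg, hconj, hdense, hext⟩ := exists_omega w hk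
  obtain ⟨C, hC⟩ := hbd
  have hext' : ∀ j, ∃ E' : Derivation k Ω Ω, (∀ g, E' (algebraMap F Ω g) = algebraMap F Ω (D j g)) ∧
      ∀ C, (∀ g, D j g ≠ 0 → w g - w (D j g) ≤ C) → ∀ x ∈ M₀, E' x ≠ 0 → W x - W (E' x) ≤ C :=
    fun j => hext (D j) ⟨C, hC j⟩
  choose D' hDD' hD'b using hext'
  refine ⟨Ω, _, _, _, inferInstance, inferInstance, W, D', hWw, hDD', ?_⟩
  intro ε hε
  have htj : jacD D t ≠ 0 := by
    have : (Matrix.of fun j i => D j (t i)) = (1 : Matrix (Fin m) (Fin m) F) := by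
      ext j i
      rw [Matrix.of_apply, ht, Matrix.one_apply]
      simp only [eq_comm]
    rw [jacD, this, Matrix.det_one]
    exact one_ne_zero
  obtain ⟨E, c, hc, hcA, hDc, hE⟩ := vol_core w W D D' A hA t htj hWw hDD' M₀ hF hdense C
    (fun j x hx => hD'b j C (hC j) x hx) ε hε
  refine ⟨E, c, hc, hcA, hDc, fun l g hg => ?_⟩
  have hcF : CharZero Ω := charZero_of_injective_algebraMap (algebraMap F Ω).injective
  refine contractive_all W ?_ M₀ halg hconj (E l) ε (hE l) g hg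
  intro n hn
  have h1 : ((n : ℕ) : Ω) = algebraMap F Ω (n : F) := by rw [map_natCast]
  have hnF : (n : F) ≠ 0 := by exact_mod_cast hn
  rw [h1, hWw _ hnF]
  have h2 : (n : F) = algebraMap k F (n : k) := by rw [map_natCast]
  rw [h2]
  apply hk
  intro h0
  rw [h2, h0, _root_.map_zero] at hnF
  exact hnF rfl

end Pool.Agent.JM69
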