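import Pool.Agent.Lib.JM69.GaussU
import Pool.Agent.Lib.JM69.Vol

/-!
# Row GAUSS: the valuations `u_{ζ,s}` and their log discrepancy (OWNER: helper95)
-/

set_option autoImplicit false

open MvPolynomial

namespace Pool.Agent.JM69

open Pool.Agent.H15JM

variable {k : Type} [Field k] [CharZero k]

omit [CharZero k] in
/-- ROW GAUSS. -/
theorem exists_u {m : ℕ} {Ω : Type} [Field Ω] [Algebra (FF k m) Ω] [Algebra k Ω]
    [IsScalarTower k (FF k m) Ω] (W : RVal Ω) (D' : Fin m → Derivation k Ω Ω)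
    (hD' : ∀ j g, D' j (algebraMap (FF k m) Ω g) = algebraMap (FF k m) Ω (pd j g)) (A : ℝ)
    (hF : Frame D' W A) (ζ : Ω) (s : ℝ) :
    ∃ u : RVal (FF k (m + 1)), ABd pd u (A + s) ∧
      ∀ h : MvPolynomial (Fin (m + 1)) k, h ≠ 0 →
        ∃ Q, IsGP W s ((zpoly (algebraMap (FF k m) Ω) h).taylor ζ) (u (toFF h)) Q :=
  exists_u_of W D' hD' A hF ζ s

/-- ROW GAUSS2 (from `exists_vol` and `exists_u`). -/
theorem exists_omega_u {m : ℕ} (w : RVal (FF k m)) (B : ℝ) (hB : ABd pd w B)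
    (hw0 : ∀ p : MvPolynomial (Fin m) k, p ≠ 0 → 0 ≤ w (toFF p)) :
    ∃ (Ω : Type) (_ : Field Ω) (_ : Algebra (FF k m) Ω) (_ : IsAlgClosed Ω) (W : RVal Ω),
      (∀ x : FF k m, x ≠ 0 → W (algebraMap (FF k m) Ω x) = w x) ∧
      ∀ (ζ : Ω) (s : ℝ), ∃ u : RVal (FF k (m + 1)), ABd pd u (B + s) ∧
        ∀ h : MvPolynomial (Fin (m + 1)) k, h ≠ 0 →
          ∃ Q, IsGP W s ((zpoly (algebraMap (FF k m) Ω) h).taylor ζ) (u (toFF h)) Q := by
  have hpdX : ∀ i j : Fin m, pd j (toFF (X i) : FF k m) = if i = j then 1 else 0 := by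
    intro i j
    rw [pd_toFF]
    by_cases h : i = j
    · subst h
      simp
    · rw [pderiv_X_of_ne h, if_neg h, _root_.map_zero]
  have : CharZero (FF k m) :=
    charZero_of_injective_algebraMap (algebraMap k (FF k m)).injective
  have hk : ∀ c : k, c ≠ 0 → w (algebraMap k (FF k m) c) = 0 := fun c hc =>
    (⟨w, hw0⟩ : ValX k m).map_const c hc
  obtain ⟨Ω, i1, i2, i3, i4, i5, W, D', h1, h2, h3⟩ := exists_vol w hk pd
    (fun i => toFF (X i)) hpdX
    ⟨B, fun j g hg => der_bound w pd (fun i => toFF (X i)) hpdX B hB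
      (fun i => hw0 _ (X_ne_zero i)) j g hg⟩ B hB
  exact ⟨Ω, i1, i2, i5, W, h1, fun ζ s => exists_u W D' h2 B h3 ζ s⟩

end Pool.Agent.JM69
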