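import Pool.Agent.Lib.JM69.D0
import Pool.Agent.Lib.JM69.D1
import Pool.Agent.Lib.JM69.D2
import Pool.Agent.Lib.JM69.D3
import Pool.Agent.Lib.JM69.GaussRow
import Pool.Agent.Lib.JMF.SApi
import Pool.Agent.Lib.JMF.Res
import Pool.Agent.Lib.JMF.Thick

/-!
# Row DESC: `S_{m+1} → S_m`
-/

set_option autoImplicit false

open MvPolynomial

namespace Pool.Agent.JM69

open Pool.Agent.H15JM

variable {k : Type} [Field k] [CharZero k] {m : ℕ}

theorem ge_natCast {Ω : Type} [Field Ω] (W : RVal Ω) (n : ℕ) : W.Ge 0 (n : Ω) := by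
  induction n with
  | zero => rw [Nat.cast_zero]; exact RVal.Ge.zero
  | succ n ih =>
    rw [Nat.cast_succ]
    exact ih.add (RVal.Ge.of_le (le_of_eq W.map_one.symm))

theorem ge_zero_pow {Ω : Type} [Field Ω] (W : RVal Ω) {ζ : Ω} (h : W.Ge 0 ζ) (n : ℕ) :
    W.Ge 0 (ζ ^ n) := by
  induction n with
  | zero => rw [pow_zero]; exact RVal.Ge.of_le (le_of_eq W.map_one.symm)
  | succ n ih =>
    rw [pow_succ]
    simpa using ih.mul h

theorem taylor_ge_zero {Ω : Type} [Field Ω] (W : RVal Ω) (P : Polynomial Ω)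
    (hP : ∀ j, W.Ge 0 (P.coeff j)) {ζ : Ω} (h : W.Ge 0 ζ) (j : ℕ) :
    W.Ge 0 ((P.taylor ζ).coeff j) := by
  rw [Polynomial.taylor_coeff, Polynomial.eval_eq_sum_range]
  refine RVal.Ge.sum _ _ fun i _ => ?_
  rw [Polynomial.hasseDeriv_coeff]
  have h1 := ((ge_natCast W ((i + j).choose j)).mul (hP (i + j))).mul (ge_zero_pow W h i)
  simpa using h1

/-- `u_{ζ,s}` is in the class. -/
theorem u_mem_cls {Ω : Type} [Field Ω] [Algebra (FF k m) Ω] (w : RVal (FF k m)) (W : RVal Ω)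
    (hw0 : ∀ p : MvPolynomial (Fin m) k, p ≠ 0 → 0 ≤ w (toFF p))
    (hW : ∀ y : FF k m, y ≠ 0 → W (algebraMap (FF k m) Ω y) = w y) (x : MvPolynomial (Fin m) k)
    (hx0 : x ≠ 0) (ζ : Ω) (hζ : ζ ≠ 0 → 0 ≤ W ζ) (s : ℝ) (hs : 0 ≤ s) (B : ℝ)
    (u : RVal (FF k (m + 1))) (hu : ABd pd u B)
    (hug : ∀ h : MvPolynomial (Fin (m + 1)) k, h ≠ 0 →
      ∃ Q, IsGP W s ((zpoly (algebraMap (FF k m) Ω) h).taylor ζ) (u (toFF h)) Q) :
    Cls (m + 1) (rename Fin.succ x) (w (toFF x)) B u := by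
  refine ⟨fun p hp => ?_, ?_, hu⟩
  · obtain ⟨Q, h1, h2, h3, h4⟩ := hug p hp
    rw [← h2]
    have h5 := taylor_ge_zero W (zpoly (algebraMap (FF k m) Ω) p) (fun j => by
      rw [zpoly_coeff]
      intro hne
      have h6 : toFF ((finSuccEquiv k m p).coeff j) ≠ 0 := by
        intro h0; rw [h0, _root_.map_zero] at hne; exact hne rfl
      rw [hW _ h6]
      refine hw0 _ ?_
      rintro h0; rw [h0, _root_.map_zero] at h6; exact h6 rfl) (ζ := ζ) hζ Q h1
    have : (0 : ℝ) ≤ Q * s := by positivity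
    linarith
  · have hx' : (rename Fin.succ x : MvPolynomial (Fin (m + 1)) k) ≠ 0 := fun h =>
      hx0 (rename_succ_injective (by rw [h, _root_.map_zero]))
    obtain ⟨Q, h1, h2, h3, h4⟩ := hug _ hx'
    rw [zpoly_rename, Polynomial.taylor_C] at h1 h2
    rw [Polynomial.coeff_C] at h1 h2
    by_cases hQ : Q = 0
    · subst hQ
      rw [if_pos rfl] at h2
      rw [← h2, hW _ (toFF_ne_zero hx0)]
      simp
    · rw [if_neg hQ] at h1
      exact absurd rfl h1

/-- ROW DESC. -/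
theorem descent (v : RVal (FF k (m + 1)))
    (hv0 : ∀ p : MvPolynomial (Fin (m + 1)) k, p ≠ 0 → 0 ≤ v (toFF p)) (A : ℝ)
    (hA : ABd pd v A) (x : MvPolynomial (Fin m) k) (hx0 : x ≠ 0) (hx1 : x.totalDegree ≤ 1)
    (α : ℝ) (hα : 0 < α) (hxv : v (toFF (rename Fin.succ x)) = α)
    (c : k) (hc : 0 < v (toFF (X 0 - C c))) (hS : SS (m + 1) v A (rename Fin.succ x) α) :
    ABd pd (comap v (emb k m).toRingHom) (A - JMF.sz v) ∧
      SS m (comap v (emb k m).toRingHom) (A - JMF.sz v) x α := by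
  classical
  have hA' : ABd pd (comap v (emb k m).toRingHom) (A - JMF.sz v) := by
    intro f hf
    exact JMF.disc_emb_sz hA f hf
  refine ⟨hA', ?_⟩
  set s : ℝ := JMF.sz v with hsdef
  set v' : RVal (FF k m) := comap v (emb k m).toRingHom with hv'
  have hs : ∀ g, pd 0 g ≠ 0 → v g - v (pd 0 g) ≤ s := JMF.le_sz hv0 hA
  have hs' : ∀ ε > 0, ∃ g, pd 0 g ≠ 0 ∧ s - ε ≤ v g - v (pd 0 g) := JMF.exists_sz v
  set ν : ℝ := v (toFF (X 0 - C c)) with hν
  have hs0 : 0 < s := by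
    have h1 : pd 0 (toFF (X 0 - C c : MvPolynomial (Fin (m + 1)) k)) = 1 := by
      rw [pd_toFF, _root_.map_sub, pderiv_X_self, pderiv_C, sub_zero, _root_.map_one]
    have h2 := hs (toFF (X 0 - C c)) (by rw [h1]; exact one_ne_zero)
    rw [h1, v.map_one, sub_zero] at h2
    linarith
  obtain ⟨p₀, κ, a₀, hp₀, hκ, ha₀, hS⟩ := hS
  -- the constants
  set p : ℝ := max p₀ (max (2 / ν) (1 / s)) with hp
  have hpp₀ : p₀ ≤ p := le_max_left _ _
  have hpν : 2 / ν ≤ p := (le_max_left _ _).trans (le_max_right _ _)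
  have hps : 1 / s ≤ p := (le_max_right _ _).trans (le_max_right _ _)
  have hp0 : 0 < p := lt_of_lt_of_le hp₀ hpp₀
  set P : ℝ := p + p * s / α + 1 / α + 2 with hP
  have hP0 : 0 < P := by positivity
  refine ⟨4 * s * p * P, κ ^ 2 / (16 * p), a₀, by positivity, by positivity, ha₀, ?_⟩
  intro La hLa ε' hε' l₀'
  -- a lower bound for the elements of La
  obtain ⟨a₁, ha₁, ha₁'⟩ : ∃ a₁ : ℝ, 0 < a₁ ∧ ∀ a ∈ La, a₁ ≤ a := by
    refine exists_pos_le_forall La (fun a => a) fun a ha => (hLa a ha).1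
  set b : ℝ := min (min (a₀ / 2) (s / 2)) (κ * a₁ / (8 * p)) with hb
  have hb0 : 0 < b := by
    refine lt_min (lt_min (by linarith) (by linarith)) (by positivity)
  have hba₀ : b < a₀ := by
    have : b ≤ a₀ / 2 := (min_le_left _ _).trans (min_le_left _ _)
    linarith
  have hbs : b < s := by
    have : b ≤ s / 2 := (min_le_left _ _).trans (min_le_right _ _)
    linarith
  have hbκ : b ≤ κ * a₁ / (8 * p) := min_le_right _ _
  set ε : ℝ := min (κ * b / 2) (ε' / (4 * s * p)) with hε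
  have hε0 : 0 < ε := lt_min (by positivity) (by positivity)
  have hε1 : ε ≤ κ * b / 2 := min_le_left _ _
  have hε2 : ε ≤ ε' / (4 * s * p) := min_le_right _ _
  -- the bound for l
  set l₀ : ℝ := 1 + 2 / p + α + 4 * α / (κ * a₁) + 8 / (κ ^ 2 * a₁) + 4 * s * p * α / ε'
    + 2 * s * |l₀'| with hl₀
  obtain ⟨l, hl, hSl⟩ := hS (insert b La) (by
    intro a ha
    rcases Finset.mem_insert.mp ha with rfl | ha
    · exact ⟨hb0, hba₀⟩
    · exact hLa a ha) ε hε0 l₀
  have hnn1 : 0 ≤ 2 / p := by positivity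
  have hnn2 : 0 ≤ 4 * α / (κ * a₁) := by positivity
  have hnn3 : 0 ≤ 8 / (κ ^ 2 * a₁) := by positivity
  have hnn4 : 0 ≤ 4 * s * p * α / ε' := by positivity
  have hnn5 : 0 ≤ 2 * s * |l₀'| := by positivity
  have hl1 : 1 ≤ l := by linarith
  have hl2 : 2 / p ≤ l := by linarith
  have hl3 : α ≤ l := by linarith
  have hl4 : 4 * α / (κ * a₁) ≤ l := by linarith
  have hl5 : 8 / (κ ^ 2 * a₁) ≤ l := by linarith
  have hl6 : 4 * s * p * α / ε' ≤ l := by linarith
  have hl7 : 2 * s * |l₀'| ≤ l := by linarith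
  have hl0 : 0 < l := by linarith
  -- the degrees
  set D : ℕ := ⌊p * l⌋₊ with hD
  have hDle : (D : ℝ) ≤ p * l := Nat.floor_le (by positivity)
  have hDge : p * l / 2 ≤ D := by
    have h1 : p * l < D + 1 := Nat.lt_floor_add_one _
    have h2 : 2 ≤ p * l := by
      rw [div_le_iff₀ hp0] at hl2
      linarith
    linarith
  have hDν : l ≤ D * ν := by
    have h1 : 2 ≤ p * ν := by
      rw [div_le_iff₀ hc] at hpν
      linarith
    calc l ≤ l * (p * ν) / 2 := by nlinarith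
      _ = (p * l / 2) * ν := by ring
      _ ≤ D * ν := by gcongr
  have hDs : l ≤ 2 * D * s := by
    have h1 : 1 ≤ p * s := by
      rw [div_le_iff₀ hs0] at hps
      linarith
    calc l ≤ l * (p * s) := by nlinarith
      _ = 2 * (p * l / 2) * s := by ring
      _ ≤ 2 * D * s := by gcongr
  set E : ℝ := P * l with hE
  have hE0 : 0 ≤ E := by positivity
  have hDE : (D : ℝ) ≤ E := by
    refine hDle.trans ?_
    rw [hE]
    gcongr
    rw [hP]
    have : 0 ≤ p * s / α := by positivity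
    have : 0 ≤ 1 / α := by positivity
    linarith
  have hE₀ : p * l + D * s / α + 1 ≤ E := by
    have h1 : D * s / α ≤ p * l * s / α := by gcongr
    have h2 : E = p * l + p * s / α * l + (1 / α * l + 2 * l) := by rw [hE, hP]; ring
    have h3 : p * l * s / α = p * s / α * l := by ring
    have h4 : 0 ≤ 1 / α * l := by positivity
    linarith
  -- the family
  have hx' : (rename Fin.succ x : MvPolynomial (Fin (m + 1)) k) ≠ 0 := fun h =>
    hx0 (rename_succ_injective (by rw [h, _root_.map_zero]))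
  set zD : MvPolynomial (Fin (m + 1)) k := (X 0 - C c) ^ D with hzD
  set N : ℕ := ⌈l / α⌉₊ with hN
  set xN : MvPolynomial (Fin (m + 1)) k := (rename Fin.succ x) ^ N with hxN
  have hz0 : (X 0 - C c : MvPolynomial (Fin (m + 1)) k) ≠ 0 := by
    intro h
    have h1 := congrArg (pderiv 0) h
    rw [_root_.map_sub, pderiv_X_self, pderiv_C, sub_zero, _root_.map_zero] at h1
    exact one_ne_zero h1
  have hzdeg : (X 0 - C c : MvPolynomial (Fin (m + 1)) k).totalDegree ≤ 1 := by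
    refine (totalDegree_sub _ _).trans (max_le ?_ ?_)
    · exact (totalDegree_X _).le
    · rw [totalDegree_C]; exact Nat.zero_le _
  have hzDmem : zD ∈ Fam v D E l := by
    refine ⟨?_, ?_, ?_⟩
    · refine (finSuccEquiv_natDegree_le zD).trans ((totalDegree_pow _ _).trans ?_)
      calc D * (X 0 - C c : MvPolynomial (Fin (m + 1)) k).totalDegree ≤ D * 1 :=
            Nat.mul_le_mul_left _ hzdeg
        _ = D := mul_one _
    · refine le_trans ?_ hDE
      have h1 : zD.totalDegree ≤ D := by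
        refine (totalDegree_pow _ _).trans ?_
        calc D * (X 0 - C c : MvPolynomial (Fin (m + 1)) k).totalDegree ≤ D * 1 :=
              Nat.mul_le_mul_left _ hzdeg
          _ = D := mul_one _
      exact_mod_cast h1
    · refine RVal.Ge.of_le ?_
      rw [hzD, _root_.map_pow, v.map_pow (toFF_ne_zero hz0)]
      exact hDν
  have hNle : (N : ℝ) ≤ l / α + 1 := (Nat.ceil_lt_add_one (by positivity)).le
  have hNge : l / α ≤ N := Nat.le_ceil _
  have hxNmem : xN ∈ Fam v D E l := by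
    have hdeg : xN.totalDegree ≤ N := by
      refine (totalDegree_pow _ _).trans ?_
      calc N * (rename Fin.succ x : MvPolynomial (Fin (m + 1)) k).totalDegree ≤ N * 1 := by
            refine Nat.mul_le_mul_left _ ?_
            exact (totalDegree_rename_le _ _).trans hx1
        _ = N := mul_one _
    refine ⟨?_, ?_, ?_⟩
    · have h1 : finSuccEquiv k m xN = Polynomial.C (x ^ N) := by
        rw [hxN, ← _root_.map_pow]
        exact JMF.embP_eq (x ^ N)
      rw [h1, Polynomial.natDegree_C]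
      exact Nat.zero_le _
    · have h1 : (xN.totalDegree : ℝ) ≤ N := by exact_mod_cast hdeg
      refine h1.trans (hNle.trans ?_)
      have h2 : E = 1 / α * l + (p * l + p * s / α * l + 2 * l) := by rw [hE, hP]; ring
      have h3 : l / α = 1 / α * l := by ring
      have h4 : 0 ≤ p * l + p * s / α * l := by positivity
      linarith
    · refine RVal.Ge.of_le ?_
      rw [hxN, _root_.map_pow, v.map_pow (toFF_ne_zero hx'), hxv]
      rwa [div_le_iff₀ hα] at hNge
  -- the infimum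
  set T : Set ℝ := {t | ∃ f ∈ Fam v D E l, ∃ g ∈ Fam v D E l, Rs D f g ≠ 0 ∧
    t = v' (toFF (Rs D f g))} with hT
  have hlow : ∀ f ∈ Fam v D E l, ∀ g ∈ Fam v D E l, Rs D f g ≠ 0 →
      l ^ 2 / (2 * s) ≤ v' (toFF (Rs D f g)) := fun f hf g hg h =>
    Fam_lower v D E l hv0 s hs0 hs hl0.le hDs f g hf hg (toFF_ne_zero h)
  have hTbdd : BddBelow T := ⟨l ^ 2 / (2 * s), by
    rintro t ⟨f, hf, g, hg, h, rfl⟩
    exact hlow f hf g hg h⟩
  have hRzx : Rs D zD xN = x ^ (N * D) := by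
    rw [Rs]
    have h1 : finSuccEquiv k m xN = Polynomial.C (x ^ N) := by
      rw [hxN, ← _root_.map_pow]
      exact JMF.embP_eq (x ^ N)
    have h2 : finSuccEquiv k m zD = (Polynomial.X - Polynomial.C (C c)) ^ D := by
      rw [hzD, _root_.map_pow, _root_.map_sub, finSuccEquiv_X_zero]
      congr 2
      have := JMF.embP_eq (k := k) (m := m) (C c)
      rw [JMF.embP, rename_C] at this
      exact this
    rw [h1, h2, Polynomial.resultant_C_right, pow_mul]
    have h3 : ((Polynomial.X - Polynomial.C (C c : MvPolynomial (Fin m) k)) ^ D).coeff D = 1 := by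
      have h4 := (Polynomial.monic_X_sub_C (C c : MvPolynomial (Fin m) k)).pow D
      have h5 : ((Polynomial.X - Polynomial.C (C c : MvPolynomial (Fin m) k)) ^ D).natDegree = D := by
        rw [Polynomial.natDegree_pow, Polynomial.natDegree_X_sub_C, mul_one]
      have h6 := h4.coeff_natDegree
      rwa [h5] at h6
    rw [h3, one_pow, one_mul]
  have hTmem : v' (toFF (x ^ (N * D))) ∈ T := by
    refine ⟨zD, hzDmem, xN, hxNmem, ?_, by rw [hRzx]⟩
    rw [hRzx]
    exact pow_ne_zero _ hx0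
  set l' : ℝ := sInf T with hl'
  have hl'low : l ^ 2 / (2 * s) ≤ l' := le_csInf ⟨_, hTmem⟩ (by
    rintro t ⟨f, hf, g, hg, h, rfl⟩
    exact hlow f hf g hg h)
  have hl'up : l' ≤ 2 * p * l ^ 2 := by
    refine (csInf_le hTbdd hTmem).trans ?_
    have h1 : v' (toFF (x ^ (N * D))) = (N * D : ℕ) * α := by
      have h2 : v' (toFF x) = α := by
        rw [hv', comap_apply]
        change v (emb k m (toFF x)) = α
        rw [emb_toFF, hxv]
      rw [_root_.map_pow, v'.map_pow (toFF_ne_zero hx0), h2]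
    rw [h1]
    push_cast
    have h2 : (N : ℝ) * α ≤ l + α := by
      calc (N : ℝ) * α ≤ (l / α + 1) * α := by gcongr
        _ = l + α := by field_simp
    calc (N : ℝ) * D * α = D * (N * α) := by ring
      _ ≤ (p * l) * (l + α) := by gcongr
      _ ≤ (p * l) * (l + l) := by gcongr
      _ = 2 * p * l ^ 2 := by ring
  have hl'0 : 0 < l' := lt_of_lt_of_le (by positivity) hl'low
  -- a pair that is almost minimal
  obtain ⟨t₀, ⟨f₀, hf₀, g₀, hg₀, hR₀, rfl⟩, ht₀⟩ := exists_lt_of_csInf_lt (s := T) ⟨_, hTmem⟩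
    (show sInf T < l' + 1 by rw [← hl']; linarith)
  -- growth
  obtain ⟨V, hV0, hVv, hVx, hVA, hVG⟩ := Pool.Agent.H15JM.exists_thick v hv0 A hA 0 s hs hs' b hbs
  have hVcls : Cls (m + 1) (rename Fin.succ x) α (A - b) V := by
    refine ⟨hV0, ?_, hVA⟩
    rw [hVx _ hx' (pderiv_zero_rename x), hxv]
  obtain ⟨gb, hgb0, hgbdeg, hgbv, hgbdom⟩ := hSl b (Finset.mem_insert_self _ _)
  obtain ⟨f₁, hf₁0, hf₁deg, hf₁v, hf₁V⟩ := hgbdom V hVcls
  have hdegD : ∀ f : MvPolynomial (Fin (m + 1)) k, (f.totalDegree : ℝ) ≤ p₀ * l →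
      f.totalDegree ≤ D := by
    intro f hf
    rw [hD]
    exact Nat.le_floor (hf.trans (by gcongr))
  have hf₁mem : f₁ ∈ Fam v D E l := by
    refine ⟨(finSuccEquiv_natDegree_le f₁).trans (hdegD f₁ hf₁deg), ?_, RVal.Ge.of_le hf₁v⟩
    have h1 : (f₁.totalDegree : ℝ) ≤ D := by exact_mod_cast hdegD f₁ hf₁deg
    exact h1.trans hDE
  have hVf₁ : V (toFF f₁) ≤ l - (κ * b - ε) * l := by
    have h1 := hVv gb hgb0
    have h2 : l - (κ * b - ε) * l = (l - κ * b * l) + ε * l := by ring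
    linarith
  obtain ⟨f, hf, hf0, hRf, hRfle, Q, hQG, hQb⟩ := growth v hv0 s hs0 hs D E l b hb0 V
    (fun p hp => by obtain ⟨Q, hQ, _⟩ := hVG p hp; exact ⟨Q, hQ⟩) f₀ g₀ f₁ hf₀ hg₀ hf₁mem hR₀
    hf₁0 _ hVf₁
  have hQ2 : κ * l / 2 ≤ Q := by
    have h1 : κ * b / 2 * l ≤ (κ * b - ε) * l := by
      gcongr
      linarith
    have h2 : (κ * l / 2) * b ≤ Q * b := by
      calc (κ * l / 2) * b = κ * b / 2 * l := by ring
        _ ≤ _ := h1.trans hQb
    exact le_of_mul_le_mul_right h2 hb0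
  -- the algebraically closed field over `v`
  obtain ⟨Ωv, _, _, _, Wv, hWv, -⟩ := exists_omega_u v A hA hv0
  refine ⟨l', ?_, ?_⟩
  · have h1 : |l₀'| ≤ l ^ 2 / (2 * s) := by
      rw [le_div_iff₀ (by positivity)]
      calc |l₀'| * (2 * s) = 2 * s * |l₀'| := by ring
        _ ≤ l := hl7
        _ ≤ l ^ 2 := by nlinarith
    exact (le_abs_self _).trans (h1.trans hl'low)
  intro a ha
  have haLa := hLa a ha
  have ha1 := ha₁' a ha
  obtain ⟨g, hg0, hgdeg, hgv, hgdom⟩ := hSl a (Finset.mem_insert_of_mem ha)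
  have hgD : (finSuccEquiv k m g).natDegree ≤ D :=
    (finSuccEquiv_natDegree_le g).trans (hdegD g hgdeg)
  obtain ⟨μ, hμ⟩ := gain v hv0 Wv hWv s hs0 hs x hx0 α hα hxv D E l b hb0 hbs f g₀ hf hg₀ hf0
    hRf _ Q hQG g hg0 hgD _ hgv
  set g' : MvPolynomial (Fin (m + 1)) k :=
    g₀ + ∑ j ∈ Finset.range (D + 1), C (μ j) * hx x α s j g with hg'
  obtain ⟨hRg', hRg'le⟩ := hμ g' rfl
  -- degrees of g'
  have hg'Fam : g' ∈ Fam v D E 0 := by
    have hE₀' : (g.totalDegree : ℝ) + D * s / α + 1 ≤ E := by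
      have : (g.totalDegree : ℝ) ≤ p * l := hgdeg.trans (by gcongr)
      linarith
    refine Fam.add v D E 0 ?_ ?_
    · exact ⟨hg₀.1, hg₀.2.1, hg₀.2.2.mono hl0.le⟩
    · refine Fam.sum v D E 0 hv0 hE0 _ _ _ fun j hj => ?_
      refine hx_mem v hv0 s hs0 hs x hx1 α hα hxv D E 0 j ?_ g hgD hE₀' ?_
      · have := Finset.mem_range.mp hj
        omega
      · exact RVal.Ge.of_le (hv0 g hg0)
  have hdegRs : ∀ g₁ : MvPolynomial (Fin (m + 1)) k, (g₁.totalDegree : ℝ) ≤ E →
      ((Rs D f g₁).totalDegree : ℝ) ≤ 4 * s * p * P * l' := by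
    intro g₁ hg₁
    have h1 : f.totalDegree ≤ ⌊E⌋₊ := Nat.le_floor hf.2.1
    have h2 : g₁.totalDegree ≤ ⌊E⌋₊ := Nat.le_floor hg₁
    have h3 := Rs_totalDegree D ⌊E⌋₊ f g₁ h1 h2
    have h4 : ((⌊E⌋₊ : ℕ) : ℝ) ≤ E := Nat.floor_le hE0
    have h5 : l ^ 2 ≤ 2 * s * l' := by
      rw [div_le_iff₀ (by positivity)] at hl'low
      linarith
    calc ((Rs D f g₁).totalDegree : ℝ) ≤ ((2 * D * ⌊E⌋₊ : ℕ) : ℝ) := by exact_mod_cast h3
      _ = 2 * D * (⌊E⌋₊ : ℕ) := by push_cast; ring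
      _ ≤ 2 * (p * l) * (P * l) := by gcongr
      _ = 2 * p * P * l ^ 2 := by ring
      _ ≤ 2 * p * P * (2 * s * l') := by gcongr
      _ = 4 * s * p * P * l' := by ring
  refine ⟨Rs D f g', hRg', hdegRs g' hg'Fam.2.1, ?_, ?_⟩
  · -- the gain
    have h1 : κ * a * l / 2 ≤ l - (l - κ * a * l) - 2 * D * b - α := by
      have h2 : 2 * D * b ≤ κ * a * l / 4 := by
        calc 2 * D * b ≤ 2 * (p * l) * (κ * a₁ / (8 * p)) := by gcongr
          _ = κ * a₁ * l / 4 := by field_simp; ring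
          _ ≤ κ * a * l / 4 := by gcongr
      have h3 : α ≤ κ * a * l / 4 := by
        have h4 : 4 * α ≤ κ * a₁ * l := by
          rw [div_le_iff₀ (by positivity)] at hl4
          linarith
        have h5 : κ * a₁ * l ≤ κ * a * l := by gcongr
        linarith
      linarith
    have h2 : κ ^ 2 * a * l ^ 2 / 4 ≤ Q * (l - (l - κ * a * l) - 2 * D * b - α) := by
      calc κ ^ 2 * a * l ^ 2 / 4 = (κ * l / 2) * (κ * a * l / 2) := by ring
        _ ≤ Q * (l - (l - κ * a * l) - 2 * D * b - α) := by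
          have : 0 ≤ κ * a * l / 2 := by have := haLa.1; positivity
          gcongr
    have h3 : 1 ≤ κ ^ 2 * a * l ^ 2 / 8 := by
      have h4 : 8 ≤ κ ^ 2 * a₁ * l := by
        rw [div_le_iff₀ (by positivity)] at hl5
        linarith
      have h5 : κ ^ 2 * a₁ * l ≤ κ ^ 2 * a * l := by gcongr
      have h6 : κ ^ 2 * a * l ≤ κ ^ 2 * a * l ^ 2 := by
        have : 0 ≤ κ ^ 2 * a := by have := haLa.1; positivity
        nlinarith
      linarith
    have h4 : κ ^ 2 / (16 * p) * a * l' ≤ κ ^ 2 * a * l ^ 2 / 8 := by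
      have := haLa.1
      calc κ ^ 2 / (16 * p) * a * l' ≤ κ ^ 2 / (16 * p) * a * (2 * p * l ^ 2) := by gcongr
        _ = κ ^ 2 * a * l ^ 2 / 8 := by field_simp; ring
    have h5 : v' (toFF (Rs D f g')) ≤ v' (toFF (Rs D f g₀))
      - Q * (l - (l - κ * a * l) - 2 * D * b - α) := hRg'le
    have h6 : v' (toFF (Rs D f g₀)) ≤ v' (toFF (Rs D f₀ g₀)) := hRfle
    linarith
  · -- the domination
    intro w hw
    obtain ⟨hw0, hwx, hwB⟩ := hw
    obtain ⟨Ω, _, _, _, W, hW, hu⟩ := exists_omega_u w _ hwB hw0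
    obtain ⟨g₁, hg₁, hRg₁, hRg₁le⟩ := domination v hv0 w hw0 W hW s hs0 hs x hx0 hx1 α hα hxv
      hwx c ν hc le_rfl D E l (p * l) hE₀ hDE hDν (by rw [hD]) f g₀ hf hg₀ hf0 g hg0 hgD μ g' rfl
      hRg' (ε * l) (by positivity) (by
        intro ζ hζ
        obtain ⟨u, huB, hug⟩ := hu ζ s
        have hucls := u_mem_cls w W hw0 hW x hx0 ζ hζ s hs0.le _ u huB hug
        rw [hwx] at hucls
        have e : A - s - a + s = A - a := by ring
        rw [e] at hucls
        obtain ⟨f', hf'0, hf'deg, hf'v, hf'u⟩ := hgdom u hucls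
        exact ⟨u, f', hug, hf'0, hf'deg.trans (by gcongr), hf'v, hf'u⟩)
    refine ⟨Rs D f g₁, hRg₁, hdegRs g₁ hg₁.2.1, csInf_le hTbdd ⟨f, hf, g₁, hg₁, hRg₁, rfl⟩, ?_⟩
    refine hRg₁le.trans ?_
    have h1 : D * (ε * l + α) ≤ ε' * l' := by
      have h2 : p * l * (ε * l) ≤ ε' * (l ^ 2 / (4 * s)) := by
        calc p * l * (ε * l) ≤ p * l * (ε' / (4 * s * p) * l) := by gcongr
          _ = ε' * (l ^ 2 / (4 * s)) := by field_simp
      have h3 : p * l * α ≤ ε' * (l ^ 2 / (4 * s)) := by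
        have h4 : 4 * s * p * α ≤ l * ε' := by rwa [div_le_iff₀ hε'] at hl6
        rw [← mul_div_assoc, le_div_iff₀ (by positivity)]
        calc p * l * α * (4 * s) = (4 * s * p * α) * l := by ring
          _ ≤ (l * ε') * l := by gcongr
          _ = ε' * l ^ 2 := by ring
      calc D * (ε * l + α) ≤ (p * l) * (ε * l + α) := by gcongr
        _ = p * l * (ε * l) + p * l * α := by ring
        _ ≤ ε' * (l ^ 2 / (4 * s)) + ε' * (l ^ 2 / (4 * s)) := add_le_add h2 h3
        _ = ε' * (l ^ 2 / (2 * s)) := by field_simp; ring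
        _ ≤ ε' * l' := by gcongr
    linarith

end Pool.Agent.JM69
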