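import Mathlib

/-!
# Row DEXT: derivations extend along formally étale extensions
-/

set_option autoImplicit false

open TensorProduct

namespace Pool.Agent.JM69

variable {k : Type} [Field k]

/-- ROW DEXT. Derivations extend along formally étale extensions (localizations, separable
algebraic extensions of fields). -/
theorem exists_ext_derivation {A B : Type} [CommRing A] [CommRing B] [Algebra k A] [Algebra k B]
    [Algebra A B] [IsScalarTower k A B] [Algebra.FormallyEtale A B] (d : Derivation k A B) :
    ∃ D : Derivation k B B, ∀ a, D (algebraMap A B a) = d a := by
  refine ⟨(LinearMap.liftBaseChange B d.liftKaehlerDifferential ∘ₗ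
    (KaehlerDifferential.tensorKaehlerEquivOfFormallyEtale k A B).symm.toLinearMap).compDer
      (KaehlerDifferential.D k B), fun a => ?_⟩
  change LinearMap.liftBaseChange B d.liftKaehlerDifferential
    ((KaehlerDifferential.tensorKaehlerEquivOfFormallyEtale k A B).symm
      (KaehlerDifferential.D k B (algebraMap A B a))) = d a
  rw [KaehlerDifferential.tensorKaehlerEquivOfFormallyEtale_symm_D_algebraMap,
    LinearMap.liftBaseChange_tmul, one_smul, Derivation.liftKaehlerDifferential_comp_D]

end Pool.Agent.JM69
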