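import Pool.Agent.Lib.JM69.GV
import Pool.Agent.Lib.JM_H15.Good

/-!
# Row GAUSS: the valuations `u_{ζ,s}` and their log discrepancy (OWNER: helper95)
-/

set_option autoImplicit false

open Polynomial

namespace Pool.Agent.JM69

open Pool.Agent.H15JM

section Subst

variable {F L Ω : Type*} [Field F] [Field L] [Field Ω] (emb : F →+* L) (z : L) (ι : F →+* Ω)
  (ζ : Ω)

/-- The substitution `z ↦ T + ζ`. -/
theorem exists_subst (hz : ∀ P : Polynomial F, P ≠ 0 → P.eval₂ emb z ≠ 0)
    (hfr : ∀ x : L, ∃ P Q : Polynomial F, Q.eval₂ emb z ≠ 0 ∧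
      x = P.eval₂ emb z / Q.eval₂ emb z) :
    ∃ j : L →+* FractionRing (Polynomial Ω), ∀ P : Polynomial F,
      j (P.eval₂ emb z) = algebraMap _ _ (taylor ζ (P.map ι)) := by
  let _ : Algebra (Polynomial F) L := (eval₂RingHom emb z).toAlgebra
  have halg : ∀ P : Polynomial F, algebraMap (Polynomial F) L P = P.eval₂ emb z := fun P => rfl
  have hinj : Function.Injective (algebraMap (Polynomial F) L) := by
    rw [injective_iff_map_eq_zero]
    intro P hP
    by_contra h
    exact hz P h hP
  have : FaithfulSMul (Polynomial F) L := (faithfulSMul_iff_algebraMap_injective _ _).mpr hinj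
  have : IsFractionRing (Polynomial F) L := by
    refine IsFractionRing.of_field (Polynomial F) L fun x => ?_
    obtain ⟨P, Q, _, h⟩ := hfr x
    exact ⟨P, Q, by rw [halg, halg]; exact h⟩
  let g : Polynomial F →+* FractionRing (Polynomial Ω) :=
    (algebraMap (Polynomial Ω) (FractionRing (Polynomial Ω))).comp
      ((taylorAlgHom ζ).toRingHom.comp (mapRingHom ι))
  have hg : ∀ P : Polynomial F, g P = algebraMap _ _ (taylor ζ (P.map ι)) := fun P => rfl
  have hginj : Function.Injective g := by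
    intro P Q h
    rw [hg, hg] at h
    exact map_injective ι ι.injective
      (taylor_injective ζ (IsFractionRing.injective (Polynomial Ω) _ h))
  exact ⟨IsFractionRing.lift hginj, fun P => by
    rw [← halg, IsFractionRing.lift_algebraMap hginj, hg]⟩

end Subst

section Der

variable {k F L : Type*} {Ω : Type} [Field k] [Field F] [Field L] [Field Ω] [Algebra k F]
  [Algebra k L] [Algebra k Ω] (emb : F →+* L) (z : L) (ι : F →+* Ω) (ζ : Ω)

/-- The derivation acting on the coefficients. -/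
noncomputable def coefD (E : Derivation k Ω Ω) : Derivation k (Polynomial Ω) (Polynomial Ω) :=
  PolynomialModule.equivPolynomialSelf.compDer E.mapCoeffs

theorem coefD_coeff (E : Derivation k Ω Ω) (P : Polynomial Ω) (i : ℕ) :
    (coefD E P).coeff i = E (P.coeff i) := rfl

theorem coefD_C (E : Derivation k Ω Ω) (a : Ω) : coefD E (C a) = C (E a) := by
  ext i
  rw [coefD_coeff, coeff_C, coeff_C]
  split_ifs
  · rfl
  · exact _root_.map_zero _

theorem coefD_X (E : Derivation k Ω Ω) : coefD E (X : Polynomial Ω) = 0 := by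
  ext i
  rw [coefD_coeff, coeff_X, coeff_zero]
  split_ifs
  · exact E.map_one_eq_zero
  · exact _root_.map_zero _

theorem gpoly_coefD (W : RVal Ω) (s ε : ℝ) (E : Derivation k Ω Ω)
    (hE : ∀ g, E g ≠ 0 → W g - W (E g) ≤ ε) (P : Polynomial Ω) (h : coefD E P ≠ 0) :
    gpoly W s P - ε ≤ gpoly W s (coefD E P) := by
  refine le_gpoly W s _ h fun i hi => ?_
  rw [coefD_coeff] at hi ⊢
  have h0 : P.coeff i ≠ 0 := by
    intro h0
    rw [h0, _root_.map_zero] at hi
    exact hi rfl
  have h1 := hE _ hi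
  have h2 := gpoly_le W s i h0
  linarith

theorem gpoly_X_mul_derivative (W : RVal Ω) (s : ℝ) (hn : ∀ m : ℕ, W.Ge 0 (m : Ω))
    (P : Polynomial Ω) (h : X * derivative P ≠ 0) :
    gpoly W s P ≤ gpoly W s (X * derivative P) := by
  refine le_gpoly W s _ h fun i hi => ?_
  cases i with
  | zero => simp at hi
  | succ i =>
    rw [coeff_X_mul, coeff_derivative] at hi ⊢
    have h0 : P.coeff (i + 1) ≠ 0 := left_ne_zero_of_mul hi
    have h1 : ((i : Ω) + 1) ≠ 0 := right_ne_zero_of_mul hi
    have h2 := gpoly_le W s (i + 1) h0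
    have h3 : 0 ≤ W ((i : Ω) + 1) := by
      have := hn (i + 1)
      push_cast at this
      exact this h1
    rw [W.map_mul h0 h1]
    linarith

/-- Extension of a contractivity bound from the polynomials to the field. -/
theorem contr_frac {K : Type*} [Field K] (G : RVal K) (j : L →+* K) (Λ : L → K)
    (hmul : ∀ x y, Λ (x * y) = j x * Λ y + j y * Λ x) (ε : ℝ)
    (hfr : ∀ x : L, ∃ P Q : Polynomial F, Q.eval₂ emb z ≠ 0 ∧ x = P.eval₂ emb z / Q.eval₂ emb z)
    (hP : ∀ P : Polynomial F, P.eval₂ emb z ≠ 0 →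
      G.Ge (G (j (P.eval₂ emb z)) - ε) (Λ (P.eval₂ emb z))) (h : L) (hh : h ≠ 0) :
    G.Ge (G (j h) - ε) (Λ h) := by
  obtain ⟨P, Q, hQ, hPQ⟩ := hfr h
  have hP0 : P.eval₂ emb z ≠ 0 := by
    intro h0
    rw [h0, zero_div] at hPQ
    exact hh hPQ
  have hjQ : j (Q.eval₂ emb z) ≠ 0 := (map_ne_zero j).mpr hQ
  have hjP : j (P.eval₂ emb z) ≠ 0 := (map_ne_zero j).mpr hP0
  have hjh : j h ≠ 0 := (map_ne_zero j).mpr hh
  have h1 : P.eval₂ emb z = Q.eval₂ emb z * h := by
    rw [hPQ, mul_div_cancel₀ _ hQ]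
  have h2 := hmul (Q.eval₂ emb z) h
  rw [← h1] at h2
  have h3 : G (j (P.eval₂ emb z)) = G (j (Q.eval₂ emb z)) + G (j h) := by
    rw [h1, _root_.map_mul, G.map_mul hjQ hjh]
  have h4 : j (Q.eval₂ emb z) * Λ h = Λ (P.eval₂ emb z) - j h * Λ (Q.eval₂ emb z) := by
    rw [h2]
    ring
  have h5 : G.Ge (G (j (P.eval₂ emb z)) - ε) (j (Q.eval₂ emb z) * Λ h) := by
    rw [h4]
    refine (hP P hP0).sub ?_
    have h6 := (RVal.ge_self (v := G) (j h)).mul (hP Q hQ)
    refine h6.mono ?_
    rw [h3]
    linarith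
  intro hne
  have h7 := h5 (mul_ne_zero hjQ hne)
  rw [G.map_mul hjQ hne, h3] at h7
  linarith

/-- The operator `E` on the coefficients, pulled back along `z ↦ T + ζ`. -/
theorem lam_poly (j : L →+* FractionRing (Polynomial Ω))
    (hj : ∀ P : Polynomial F, j (P.eval₂ emb z) = algebraMap _ _ (taylor ζ (P.map ι)))
    (EF : Derivation k F F) (EL : Derivation k L L) (EΩ : Derivation k Ω Ω)
    (Dz : Derivation k L L) (h1 : ∀ f, EL (emb f) = emb (EF f)) (h2 : EL z = 0)
    (h3 : ∀ f, EΩ (ι f) = ι (EF f)) (h4 : ∀ f, Dz (emb f) = 0) (h5 : Dz z = 1)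
    (P : Polynomial F) :
    j (EL (P.eval₂ emb z)) + algebraMap _ _ (C (EΩ ζ)) * j (Dz (P.eval₂ emb z))
      = algebraMap _ _ (coefD EΩ (taylor ζ (P.map ι))) := by
  have hC : ∀ a : F, j (emb a) = algebraMap _ _ (C (ι a)) := by
    intro a
    have := hj (C a)
    rwa [eval₂_C, Polynomial.map_C, taylor_C] at this
  have hX : j z = algebraMap _ _ (X + C ζ) := by
    have := hj X
    rwa [eval₂_X, Polynomial.map_X, taylor_X] at this
  induction P using Polynomial.induction_on with
  | C a =>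
    rw [eval₂_C, h1, h4, hC, _root_.map_zero, mul_zero, add_zero, Polynomial.map_C, taylor_C,
      coefD_C, h3]
  | add P Q hP hQ =>
    rw [eval₂_add, _root_.map_add, _root_.map_add, _root_.map_add, _root_.map_add, mul_add,
      Polynomial.map_add, _root_.map_add, _root_.map_add, _root_.map_add, ← hP, ← hQ]
    ring
  | monomial n a ih =>
    have e1 : (C a * X ^ (n + 1) : Polynomial F).eval₂ emb z
        = (C a * X ^ n : Polynomial F).eval₂ emb z * z := by
      rw [pow_succ, ← mul_assoc, eval₂_mul, eval₂_X]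
    have e2 : taylor ζ ((C a * X ^ (n + 1) : Polynomial F).map ι)
        = taylor ζ ((C a * X ^ n : Polynomial F).map ι) * (X + C ζ) := by
      rw [pow_succ, ← mul_assoc, Polynomial.map_mul, taylor_mul, Polynomial.map_X, taylor_X]
    rw [e1, e2]
    set y := (C a * X ^ n : Polynomial F).eval₂ emb z with hy
    set Y := taylor ζ ((C a * X ^ n : Polynomial F).map ι) with hY
    have e3 : j y = algebraMap _ _ Y := hj _
    have e4 : coefD EΩ (Y * (X + C ζ)) = Y * C (EΩ ζ) + (X + C ζ) * coefD EΩ Y := by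
      rw [Derivation.leibniz, _root_.map_add, coefD_X, coefD_C, zero_add, smul_eq_mul, smul_eq_mul]
    rw [EL.leibniz, Dz.leibniz, h2, h5, e4]
    simp only [smul_eq_mul, _root_.map_add, _root_.map_mul, mul_zero, mul_one, zero_add, hX, ← ih,
      e3]
    ring

omit [Algebra k F] [Algebra k Ω] in
/-- The derivative with respect to `T`, pulled back along `z ↦ T + ζ`. -/
theorem dz_poly (j : L →+* FractionRing (Polynomial Ω))
    (hj : ∀ P : Polynomial F, j (P.eval₂ emb z) = algebraMap _ _ (taylor ζ (P.map ι)))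
    (Dz : Derivation k L L) (h4 : ∀ f, Dz (emb f) = 0) (h5 : Dz z = 1) (P : Polynomial F) :
    j (Dz (P.eval₂ emb z)) = algebraMap _ _ (derivative (taylor ζ (P.map ι))) := by
  have hX : j z = algebraMap _ _ (X + C ζ) := by
    have := hj X
    rwa [eval₂_X, Polynomial.map_X, taylor_X] at this
  induction P using Polynomial.induction_on with
  | C a =>
    rw [eval₂_C, h4, _root_.map_zero, Polynomial.map_C, taylor_C, derivative_C, _root_.map_zero]
  | add P Q hP hQ =>
    rw [eval₂_add, _root_.map_add, _root_.map_add, Polynomial.map_add, _root_.map_add,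
      derivative_add, _root_.map_add, ← hP, ← hQ]
  | monomial n a ih =>
    have e1 : (C a * X ^ (n + 1) : Polynomial F).eval₂ emb z
        = (C a * X ^ n : Polynomial F).eval₂ emb z * z := by
      rw [pow_succ, ← mul_assoc, eval₂_mul, eval₂_X]
    have e2 : taylor ζ ((C a * X ^ (n + 1) : Polynomial F).map ι)
        = taylor ζ ((C a * X ^ n : Polynomial F).map ι) * (X + C ζ) := by
      rw [pow_succ, ← mul_assoc, Polynomial.map_mul, taylor_mul, Polynomial.map_X, taylor_X]
    rw [e1, e2, Dz.leibniz, h5, derivative_mul, derivative_add, derivative_X, derivative_C,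
      add_zero, mul_one, smul_eq_mul, smul_eq_mul, mul_one, _root_.map_add, _root_.map_add,
      _root_.map_mul, _root_.map_mul, hX, ih, hj]
    ring

end Der

/-- Leibniz bound for a determinant. -/
theorem det_ge {K : Type*} [Field K] (G : RVal K) {n : ℕ} (N : Matrix (Fin n) (Fin n) K)
    (c : Fin n → ℝ) (h : ∀ l i, G.Ge (c i) (N l i)) : G.Ge (∑ i, c i) N.det := by
  rw [Matrix.det_apply]
  refine RVal.Ge.sum _ _ fun σ _ => ?_
  have h1 : G.Ge (∑ i, c i) (∏ i, N (σ i) i) := RVal.Ge.prod c _ _ fun i _ => h (σ i) i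
  rcases Int.units_eq_one_or (Equiv.Perm.sign σ) with h2 | h2
  · rw [h2, one_smul]
    exact h1
  · rw [h2, Units.neg_smul, one_smul]
    exact h1.neg

section Disc

variable {k : Type} [Field k] {m : ℕ} {F L : Type*} {Ω : Type} [Field F] [Field L] [Field Ω]
  [Algebra k F] [Algebra k L] [Algebra k Ω]

/-- The log discrepancy of the restriction of the Gauss valuation along `z ↦ T + ζ`. -/
theorem disc_gauss (emb : F →+* L) (z : L) (ι : F →+* Ω) (ζ : Ω)
    (d : Fin m → Derivation k F F) (D : Fin (m + 1) → Derivation k L L)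
    (D' : Fin m → Derivation k Ω Ω)
    (hD1 : ∀ (j : Fin m) f, D j.succ (emb f) = emb (d j f))
    (hD2 : ∀ j : Fin m, D j.succ z = 0)
    (hD3 : ∀ f, D 0 (emb f) = 0) (hD4 : D 0 z = 1)
    (hD' : ∀ j f, D' j (ι f) = ι (d j f))
    (hfr : ∀ x : L, ∃ P Q : Polynomial F, Q.eval₂ emb z ≠ 0 ∧ x = P.eval₂ emb z / Q.eval₂ emb z)
    (W : RVal Ω) (hn : ∀ n : ℕ, W.Ge 0 (n : Ω)) (s A : ℝ)
    (hF : ∀ ε > 0, ∃ (E : Fin m → Derivation k Ω Ω) (c : Matrix (Fin m) (Fin m) Ω), c.det ≠ 0 ∧
      -A ≤ W c.det ∧ (∀ j g, D' j g = ∑ l, c j l * E l g) ∧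
      ∀ l g, E l g ≠ 0 → W g - W (E l g) ≤ ε)
    (j : L →+* FractionRing (Polynomial Ω))
    (hj : ∀ P : Polynomial F, j (P.eval₂ emb z) = algebraMap _ _ (taylor ζ (P.map ι)))
    (G : RVal (FractionRing (Polynomial Ω)))
    (hG : ∀ P : Polynomial Ω, P ≠ 0 → G (algebraMap _ _ P) = gpoly W s P)
    (h : Fin (m + 1) → L) (hh : jacD D h ≠ 0) :
    ∑ i, G (j (h i)) - G (j (jacD D h)) ≤ A + s := by
  classical
  set K := FractionRing (Polynomial Ω) with hK
  set aK : Polynomial Ω →+* K := algebraMap (Polynomial Ω) K with haK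
  have hainj : Function.Injective aK := IsFractionRing.injective (Polynomial Ω) K
  have hane : ∀ P : Polynomial Ω, P ≠ 0 → aK P ≠ 0 := fun P hP h0 =>
    hP (hainj (by rw [h0, _root_.map_zero]))
  have hhne : ∀ i, h i ≠ 0 := by
    intro i h0
    apply hh
    rw [jacD]
    apply Matrix.det_eq_zero_of_column_eq_zero i
    intro j
    rw [Matrix.of_apply, h0, _root_.map_zero]
  -- it is enough to prove the bound with an error `(m + 1) ε`
  refine le_of_forall_pos_le_add fun δ hδ => ?_
  set ε : ℝ := δ / (m + 1) with hεdef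
  have hm1 : (0 : ℝ) < m + 1 := by positivity
  have hε : 0 < ε := div_pos hδ hm1
  have hεδ : (m + 1) * ε = δ := by rw [hεdef]; field_simp
  obtain ⟨E, c, hc0, hcA, hDE, hEc⟩ := hF ε hε
  have hcunit : IsUnit c.det := isUnit_iff_ne_zero.mpr hc0
  have hED : ∀ l g, E l g = ∑ i, c⁻¹ l i * D' i g := by
    intro l g
    have h1 : (fun i => D' i g) = c.mulVec (fun l => E l g) := by
      ext i
      exact hDE i g
    have h2 : c⁻¹.mulVec (fun i => D' i g) = fun l => E l g := by
      rw [h1, Matrix.mulVec_mulVec, Matrix.nonsing_inv_mul _ hcunit, Matrix.one_mulVec]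
    exact (congrFun h2 l).symm
  -- the operators
  set Dz : Derivation k L L := D 0 with hDz
  set Δ : Fin m → L → K := fun i x => j (D i.succ x) + aK (C (D' i ζ)) * j (Dz x) with hΔ
  have hΔmul : ∀ i x y, Δ i (x * y) = j x * Δ i y + j y * Δ i x := by
    intro i x y
    simp only [hΔ]
    rw [(D i.succ).leibniz, Dz.leibniz]
    simp only [smul_eq_mul, _root_.map_add, _root_.map_mul]
    ring
  have hΔP : ∀ i (P : Polynomial F), Δ i (P.eval₂ emb z)
      = aK (coefD (D' i) (taylor ζ (P.map ι))) := fun i P =>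
    lam_poly emb z ι ζ j hj (d i) (D i.succ) (D' i) Dz (hD1 i) (hD2 i) (hD' i) hD3 hD4 P
  set Λ : Fin m → L → K := fun l x => ∑ i, aK (C (c⁻¹ l i)) * Δ i x with hΛ
  have hΛmul : ∀ l x y, Λ l (x * y) = j x * Λ l y + j y * Λ l x := by
    intro l x y
    simp only [hΛ, hΔmul]
    rw [Finset.mul_sum, Finset.mul_sum, ← Finset.sum_add_distrib]
    refine Finset.sum_congr rfl fun i _ => ?_
    ring
  have hΛP : ∀ l (P : Polynomial F), Λ l (P.eval₂ emb z)
      = aK (coefD (E l) (taylor ζ (P.map ι))) := by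
    intro l P
    simp only [hΛ, hΔP]
    have h1 : ∀ Y : Polynomial Ω, coefD (E l) Y = ∑ i, C (c⁻¹ l i) * coefD (D' i) Y := by
      intro Y
      ext n
      rw [coefD_coeff, hED, Polynomial.finsetSum_coeff]
      refine Finset.sum_congr rfl fun i _ => ?_
      rw [coeff_C_mul, coefD_coeff]
    rw [h1, _root_.map_sum]
    refine Finset.sum_congr rfl fun i _ => ?_
    rw [_root_.map_mul]
  have hGj : ∀ P : Polynomial F, P.eval₂ emb z ≠ 0 →
      taylor ζ (P.map ι) ≠ 0 ∧ G (j (P.eval₂ emb z)) = gpoly W s (taylor ζ (P.map ι)) := by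
    intro P hP
    have h1 : taylor ζ (P.map ι) ≠ 0 := by
      intro h0
      have h2 := hj P
      rw [h0, _root_.map_zero] at h2
      exact hP ((map_eq_zero j).mp h2)
    exact ⟨h1, by rw [hj P, hG _ h1]⟩
  have hΛc : ∀ l x, x ≠ 0 → G.Ge (G (j x) - ε) (Λ l x) := by
    intro l
    refine contr_frac emb z G j (Λ l) (hΛmul l) ε hfr ?_
    intro P hP
    obtain ⟨h1, h2⟩ := hGj P hP
    intro hne
    rw [hΛP] at hne ⊢
    have h4 : coefD (E l) (taylor ζ (P.map ι)) ≠ 0 := by
      intro h0
      rw [h0, _root_.map_zero] at hne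
      exact hne rfl
    rw [hG _ h4, h2]
    exact gpoly_coefD W s ε (E l) (hEc l) _ h4
  set Λz : L → K := fun x => aK X * j (Dz x) with hΛz
  have hΛzmul : ∀ x y, Λz (x * y) = j x * Λz y + j y * Λz x := by
    intro x y
    simp only [hΛz]
    rw [Dz.leibniz]
    simp only [smul_eq_mul, _root_.map_add, _root_.map_mul]
    ring
  have hΛzc : ∀ x, x ≠ 0 → G.Ge (G (j x) - 0) (Λz x) := by
    refine contr_frac emb z G j Λz hΛzmul 0 hfr ?_
    intro P hP
    obtain ⟨h1, h2⟩ := hGj P hP
    have h3 : Λz (P.eval₂ emb z) = aK (X * derivative (taylor ζ (P.map ι))) := by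
      simp only [hΛz]
      rw [_root_.map_mul, dz_poly emb z ι ζ j hj Dz hD3 hD4 P]
    intro hne
    rw [h3] at hne ⊢
    have h4 : X * derivative (taylor ζ (P.map ι)) ≠ 0 := by
      intro h0
      rw [h0, _root_.map_zero] at hne
      exact hne rfl
    rw [hG _ h4, h2, sub_zero]
    exact gpoly_X_mul_derivative W s hn _ h4
  -- the matrices
  set M : Matrix (Fin (m + 1)) (Fin (m + 1)) L := Matrix.of fun j i => D j (h i) with hM
  set N : Matrix (Fin (m + 1)) (Fin (m + 1)) K :=
    Matrix.of fun l i => Fin.cases (motive := fun _ => K) (Λz (h i)) (fun l' => Λ l' (h i)) l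
    with hN
  set T : Matrix (Fin (m + 1)) (Fin (m + 1)) K :=
    Matrix.of fun l i => Fin.cases (motive := fun _ => K) (Λz (h i)) (fun l' => Δ l' (h i)) l
    with hT
  set B1 : Matrix (Fin (m + 1)) (Fin (m + 1)) K :=
    Matrix.of fun l i => Fin.cases (motive := fun _ => K)
      (Fin.cases (motive := fun _ => K) 1 (fun _ => 0) i)
      (fun l' => Fin.cases (motive := fun _ => K) 0 (fun i' => aK (C (c l' i'))) i) l with hB1
  set U : Matrix (Fin (m + 1)) (Fin (m + 1)) K :=
    Matrix.of fun l i => Fin.cases (motive := fun _ => K)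
      (Fin.cases (motive := fun _ => K) (aK X) (fun _ => 0) i)
      (fun l' => Fin.cases (motive := fun _ => K) (aK (C (D' l' ζ)))
        (fun i' => if l' = i' then 1 else 0) i) l with hU
  have hTN : T = B1 * N := by
    ext l i
    rw [Matrix.mul_apply, Fin.sum_univ_succ]
    refine Fin.cases ?_ (fun l' => ?_) l
    · simp [hT, hN, hB1]
    · simp only [hT, hN, hB1, Matrix.of_apply, Fin.cases_zero, Fin.cases_succ, zero_mul, zero_add,
        hΛ]
      have h1 : ∀ y : Fin m → K, ∑ l, aK (C (c l' l)) * ∑ i, aK (C (c⁻¹ l i)) * y i = y l' := by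
        intro y
        have h2 : ∀ l, aK (C (c l' l)) * ∑ i, aK (C (c⁻¹ l i)) * y i
            = ∑ i, aK (C (c l' l * c⁻¹ l i)) * y i := by
          intro l
          rw [Finset.mul_sum]
          refine Finset.sum_congr rfl fun i _ => ?_
          rw [C_mul, _root_.map_mul]
          ring
        rw [Finset.sum_congr rfl fun l _ => h2 l, Finset.sum_comm]
        have h3 : ∀ i, ∑ l, aK (C (c l' l * c⁻¹ l i)) * y i = (if l' = i then y i else 0) := by
          intro i
          rw [← Finset.sum_mul, ← _root_.map_sum, ← _root_.map_sum]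
          have h4 : ∑ l, c l' l * c⁻¹ l i = (c * c⁻¹) l' i := (Matrix.mul_apply).symm
          rw [h4, Matrix.mul_nonsing_inv _ hcunit, Matrix.one_apply]
          split_ifs <;> simp
        rw [Finset.sum_congr rfl fun i _ => h3 i]
        simp
      exact (h1 fun i' => Δ i' (h i)).symm
  have hTU : T = U * M.map j := by
    ext l i
    rw [Matrix.mul_apply, Fin.sum_univ_succ]
    refine Fin.cases ?_ (fun l' => ?_) l
    · simp [hT, hU, hM, hΛz, hDz]
    · simp only [hT, hU, hM, hΔ, Matrix.of_apply, Fin.cases_zero, Fin.cases_succ,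
        Matrix.map_apply]
      simp [hDz]
      ring
  have hB1det : B1.det = aK (C c.det) := by
    rw [Matrix.det_succ_row_zero B1, Fin.sum_univ_succ, Finset.sum_eq_zero, add_zero]
    · have h2 : (B1.submatrix Fin.succ (Fin.succAbove 0)) = c.map (aK.comp C) := by
        ext l i
        simp [hB1, Fin.succAbove_zero]
      rw [h2]
      have h3 : (c.map (aK.comp C)).det = aK (C c.det) := by
        have := RingHom.map_det (aK.comp C) c
        exact this.symm
      rw [h3]
      simp [hB1]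
    · intro i _
      simp [hB1]
  have hUdet : U.det = aK X := by
    rw [Matrix.det_succ_row_zero U, Fin.sum_univ_succ, Finset.sum_eq_zero, add_zero]
    · have h2 : (U.submatrix Fin.succ (Fin.succAbove 0)) = 1 := by
        ext l i
        simp [hU, Fin.succAbove_zero, Matrix.one_apply]
      rw [h2, Matrix.det_one]
      simp [hU]
    · intro i _
      simp [hU]
  have hdet : aK (C c.det) * N.det = aK X * j (jacD D h) := by
    rw [← hB1det, ← Matrix.det_mul, ← hTN, hTU, Matrix.det_mul, hUdet]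
    congr 1
    have := RingHom.map_det j M
    exact this.symm
  have hXne : aK X ≠ 0 := hane _ X_ne_zero
  have hCne : (C c.det : Polynomial Ω) ≠ 0 := by simpa using hc0
  have hcne : aK (C c.det) ≠ 0 := hane _ hCne
  have hJne : j (jacD D h) ≠ 0 := (map_ne_zero j).mpr hh
  have hNne : N.det ≠ 0 := by
    intro h0
    rw [h0, mul_zero] at hdet
    exact mul_ne_zero hXne hJne hdet.symm
  have hNge := det_ge G N (fun i => G (j (h i)) - ε) (by
    intro l i
    refine Fin.cases ?_ (fun l' => ?_) l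
    · have h1 : N 0 i = Λz (h i) := by simp [hN]
      rw [h1]
      exact (hΛzc (h i) (hhne i)).mono (by linarith)
    · have h1 : N l'.succ i = Λ l' (h i) := by simp [hN]
      rw [h1]
      exact hΛc l' (h i) (hhne i)) hNne
  have hGX : G (aK X) = s := by
    rw [hG _ X_ne_zero]
    obtain ⟨i, hi, h2⟩ := gpoly_attained W s (P := (X : Polynomial Ω)) X_ne_zero
    have h3 : i = 1 := by
      by_contra h3
      rw [coeff_X, if_neg (Ne.symm h3)] at hi
      exact hi rfl
    subst h3
    rw [h2, coeff_X_one, W.map_one]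
    simp
  have hGc : G (aK (C c.det)) = W c.det := by
    rw [hG _ hCne]
    obtain ⟨i, hi, h2⟩ := gpoly_attained W s (P := (C c.det : Polynomial Ω)) hCne
    have h3 : i = 0 := by
      by_contra h3
      rw [coeff_C, if_neg h3] at hi
      exact hi rfl
    subst h3
    rw [h2, coeff_C_zero]
    simp
  have hdet' := congrArg G hdet
  rw [G.map_mul hcne hNne, G.map_mul hXne hJne, hGX, hGc] at hdet'
  rw [Finset.sum_sub_distrib] at hNge
  simp only [Finset.sum_const, Finset.card_univ, Fintype.card_fin, nsmul_eq_mul] at hNge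
  push_cast at hNge
  rw [hεδ] at hNge
  linarith

end Disc

section FFu

variable {k : Type} [Field k] {m : ℕ}

theorem eval₂_zmap (p : MvPolynomial (Fin (m + 1)) k) :
    ((MvPolynomial.finSuccEquiv k m p).map (toFF (k := k) (n := m)).toRingHom).eval₂
      (emb k m).toRingHom (toFF (MvPolynomial.X 0)) = toFF p := by
  induction p using MvPolynomial.induction_on with
  | C a =>
    rw [MvPolynomial.finSuccEquiv_apply]
    simp only [MvPolynomial.eval₂Hom_C, RingHom.coe_comp, Function.comp_apply, Polynomial.map_C,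
      eval₂_C]
    change emb k m (toFF (MvPolynomial.C a)) = _
    rw [emb_toFF, MvPolynomial.rename_C]
  | add p q hp hq =>
    rw [_root_.map_add, Polynomial.map_add, eval₂_add, hp, hq, _root_.map_add]
  | mul_X p i hp =>
    rw [_root_.map_mul, Polynomial.map_mul, eval₂_mul, hp, _root_.map_mul]
    congr 1
    refine Fin.cases ?_ (fun i => ?_) i
    · rw [MvPolynomial.finSuccEquiv_X_zero, Polynomial.map_X, eval₂_X]
    · rw [MvPolynomial.finSuccEquiv_X_succ, Polynomial.map_C, eval₂_C]
      change emb k m (toFF (MvPolynomial.X i)) = _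
      rw [emb_toFF, MvPolynomial.rename_X]

theorem eval₂_ne_zero (P : Polynomial (FF k m)) (hP : P ≠ 0) :
    P.eval₂ (emb k m).toRingHom (toFF (MvPolynomial.X 0)) ≠ 0 := by
  obtain ⟨b, hbm, hb⟩ := IsLocalization.integerNormalization_spec
    (nonZeroDivisors (MvPolynomial (Fin m) k)) P
  set R := IsLocalization.integerNormalization (nonZeroDivisors (MvPolynomial (Fin m) k)) P with hR
  intro h0
  have hbne : toFF b ≠ 0 := toFF_ne_zero (nonZeroDivisors.ne_zero hbm)
  have h1 : R.map (toFF (k := k) (n := m)).toRingHom = C (toFF b) * P := by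
    have h2 : R.map (toFF (k := k) (n := m)).toRingHom = R.map (algebraMap _ _) := rfl
    rw [h2, hb]
    ext n
    rw [coeff_C_mul, coeff_smul]
    exact Algebra.smul_def _ _
  have h3 := eval₂_zmap ((MvPolynomial.finSuccEquiv k m).symm R)
  rw [AlgEquiv.apply_symm_apply, h1, eval₂_mul, h0, mul_zero] at h3
  have h4 : (MvPolynomial.finSuccEquiv k m).symm R = 0 := by
    by_contra h
    exact toFF_ne_zero h h3.symm
  have h5 : R = 0 := by
    have := congrArg (MvPolynomial.finSuccEquiv k m) h4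
    rwa [AlgEquiv.apply_symm_apply, _root_.map_zero] at this
  rw [h5, Polynomial.map_zero] at h1
  rcases mul_eq_zero.mp h1.symm with h | h
  · exact hbne (by simpa using h)
  · exact hP h

theorem exists_frac₂ (x : FF k (m + 1)) : ∃ P Q : Polynomial (FF k m),
    Q.eval₂ (emb k m).toRingHom (toFF (MvPolynomial.X 0)) ≠ 0 ∧
      x = P.eval₂ (emb k m).toRingHom (toFF (MvPolynomial.X 0))
        / Q.eval₂ (emb k m).toRingHom (toFF (MvPolynomial.X 0)) := by
  obtain ⟨p, q, hq, rfl⟩ := exists_frac x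
  refine ⟨(MvPolynomial.finSuccEquiv k m p).map (toFF (k := k) (n := m)).toRingHom,
    (MvPolynomial.finSuccEquiv k m q).map (toFF (k := k) (n := m)).toRingHom, ?_, ?_⟩
  · rw [eval₂_zmap]
    exact toFF_ne_zero hq
  · rw [eval₂_zmap, eval₂_zmap]

/-- ROW GAUSS, with the frame unfolded. -/
theorem exists_u_of {Ω : Type} [Field Ω] [Algebra (FF k m) Ω] [Algebra k Ω]
    (W : RVal Ω) (D' : Fin m → Derivation k Ω Ω)
    (hD' : ∀ j g, D' j (algebraMap (FF k m) Ω g) = algebraMap (FF k m) Ω (pd j g)) (A : ℝ)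
    (hF : ∀ ε > 0, ∃ (E : Fin m → Derivation k Ω Ω) (c : Matrix (Fin m) (Fin m) Ω), c.det ≠ 0 ∧
      -A ≤ W c.det ∧ (∀ j g, D' j g = ∑ l, c j l * E l g) ∧
      ∀ l g, E l g ≠ 0 → W g - W (E l g) ≤ ε) (ζ : Ω) (s : ℝ) :
    ∃ u : RVal (FF k (m + 1)), ABd pd u (A + s) ∧
      ∀ h : MvPolynomial (Fin (m + 1)) k, h ≠ 0 →
        ∃ Q, IsGP W s ((zpoly (algebraMap (FF k m) Ω) h).taylor ζ) (u (toFF h)) Q := by
  obtain ⟨j, hj⟩ := exists_subst (emb k m).toRingHom (toFF (MvPolynomial.X 0))
    (algebraMap (FF k m) Ω) ζ eval₂_ne_zero exists_frac₂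
  obtain ⟨G, hG⟩ := exists_gaussP W s
  have hG' : ∀ P : Polynomial Ω, P ≠ 0 → G (algebraMap _ _ P) = gpoly W s P := by
    intro P hP
    obtain ⟨Q, hQ⟩ := hG P hP
    exact (gpoly_eq W s hQ).symm
  refine ⟨comap G j, ?_, ?_⟩
  · intro f hf
    exact disc_gauss (emb k m).toRingHom (toFF (MvPolynomial.X 0)) (algebraMap (FF k m) Ω) ζ pd pd
      D' (fun j f => pd_succ_emb j f)
      (fun j => by
        rw [pd_toFF, MvPolynomial.pderiv_X_of_ne (Fin.succ_ne_zero j).symm, _root_.map_zero])
      (fun f => pd_zero_emb f) (by rw [pd_toFF, MvPolynomial.pderiv_X_self, _root_.map_one]) hD'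
      exists_frac₂ W (fun n => RVal.Ge.natCast n) s A hF j hj G hG' f hf
  · intro h hh
    have h1 : j (toFF h) = algebraMap _ _ ((zpoly (algebraMap (FF k m) Ω) h).taylor ζ) := by
      rw [← eval₂_zmap h, hj, Polynomial.map_map]
      rfl
    have h2 : (zpoly (algebraMap (FF k m) Ω) h).taylor ζ ≠ 0 := by
      intro h0
      rw [h0, _root_.map_zero] at h1
      exact toFF_ne_zero hh ((map_eq_zero j).mp h1)
    rw [comap_apply, h1]
    exact hG _ h2

end FFu

end Pool.Agent.JM69
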