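import Pool.Agent.Lib.JM69.Hx
import Pool.Agent.Lib.JMF.Gen

/-!
# Generic combinations and values at near points (OWNER: helper83)
-/

set_option autoImplicit false

open MvPolynomial

namespace Pool.Agent.JM69

open Pool.Agent.H15JM

variable {k : Type} [Field k] {m : ℕ}

/-- A polynomial as an element of the extension field, evaluated at the tautological point. -/
theorem zpoly_eval_ext {Ω : Type} [Field Ω] [Algebra (FF k (m + 1)) Ω]
    (p : MvPolynomial (Fin (m + 1)) k) :
    (zpoly ((algebraMap (FF k (m + 1)) Ω).comp (emb k m).toRingHom) p).eval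
      (algebraMap (FF k (m + 1)) Ω (toFF (X 0))) = algebraMap (FF k (m + 1)) Ω (toFF p) := by
  have h1 : zpoly ((algebraMap (FF k (m + 1)) Ω).comp (emb k m).toRingHom) p
      = (zpoly (emb k m).toRingHom p).map (algebraMap (FF k (m + 1)) Ω) := by
    rw [zpoly, zpoly, Polynomial.map_map, RingHom.comp_assoc]
  rw [h1, Polynomial.eval_map_algebraMap, Polynomial.aeval_algebraMap_apply, Polynomial.aeval_def]
  congr 1
  rw [Algebra.algebraMap_self, Polynomial.eval₂_id, zpoly_eval]

/-- `W` of a constant. -/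
theorem val_const {w : RVal (FF k m)} (hw0 : ∀ p : MvPolynomial (Fin m) k, p ≠ 0 → 0 ≤ w (toFF p))
    (c : k) (hc : c ≠ 0) : w (algebraMap k (FF k m) c) = 0 := by
  have hC : algebraMap k (FF k m) c = toFF (C c) := by
    rw [← MvPolynomial.algebraMap_eq, AlgHom.commutes]
  have hCi : algebraMap k (FF k m) c⁻¹ = toFF (C c⁻¹) := by
    rw [← MvPolynomial.algebraMap_eq, AlgHom.commutes]
  have h1 : 0 ≤ w (algebraMap k (FF k m) c) := by
    rw [hC]
    exact hw0 _ (C_ne_zero.mpr hc)
  have h2 : 0 ≤ w (algebraMap k (FF k m) c⁻¹) := by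
    rw [hCi]
    exact hw0 _ (C_ne_zero.mpr (inv_ne_zero hc))
  rw [map_inv₀, w.map_inv ((map_ne_zero _).mpr hc)] at h2
  linarith

section Gen

variable {Ω : Type} [Field Ω]

/-- The value at `ζ` as a linear map. -/
noncomputable def evL (φ : FF k m →+* Ω) (ζ : Ω) :
    letI := (φ.comp (algebraMap k (FF k m))).toAlgebra
    MvPolynomial (Fin (m + 1)) k →ₗ[k] Ω :=
  letI := (φ.comp (algebraMap k (FF k m))).toAlgebra
  { toFun := fun p => (zpoly φ p).eval ζ
    map_add' := fun p q => by rw [zpoly_add, Polynomial.eval_add]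
    map_smul' := fun c p => by
      rw [smul_eq_C_mul, zpoly_mul, zpoly_C, Polynomial.eval_mul, Polynomial.eval_C,
        RingHom.id_apply, Algebra.smul_def]
      rfl }

/-- The coefficient of `z^D` as a linear map. -/
noncomputable def coL (φ : FF k m →+* Ω) (D : ℕ) :
    letI := (φ.comp (algebraMap k (FF k m))).toAlgebra
    MvPolynomial (Fin (m + 1)) k →ₗ[k] Ω :=
  letI := (φ.comp (algebraMap k (FF k m))).toAlgebra
  { toFun := fun p => (zpoly φ p).coeff D
    map_add' := fun p q => by rw [zpoly_add, Polynomial.coeff_add]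
    map_smul' := fun c p => by
      rw [smul_eq_C_mul, zpoly_mul, zpoly_C, Polynomial.coeff_C_mul,
        RingHom.id_apply, Algebra.smul_def]
      rfl }

/-- Generic combinations: for finitely many points `ζ` and the coefficient of `z^D` there is a
combination `∑ μ^i a_i`, the value of which is at most the value of each `a_i`. -/
theorem exists_gen_comb [Infinite k] (W : RVal Ω) (φ : FF k m →+* Ω)
    (hk : ∀ c : k, c ≠ 0 → W (φ (algebraMap k (FF k m) c)) = 0)
    {r : ℕ} (a : Fin r → MvPolynomial (Fin (m + 1)) k) (S : Finset Ω) (D : ℕ) :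
    ∃ μ : k, μ ≠ 0 ∧
      (∀ ζ ∈ S, ∀ j, (zpoly φ (a j)).eval ζ ≠ 0 →
        (zpoly φ (∑ i : Fin r, C (μ ^ (i : ℕ)) * a i)).eval ζ ≠ 0 ∧
        W ((zpoly φ (∑ i : Fin r, C (μ ^ (i : ℕ)) * a i)).eval ζ) ≤ W ((zpoly φ (a j)).eval ζ)) ∧
      ∀ j, (zpoly φ (a j)).coeff D ≠ 0 →
        (zpoly φ (∑ i : Fin r, C (μ ^ (i : ℕ)) * a i)).coeff D ≠ 0 ∧
        W ((zpoly φ (∑ i : Fin r, C (μ ^ (i : ℕ)) * a i)).coeff D)
          ≤ W ((zpoly φ (a j)).coeff D) := by
  classical
  let _ : Algebra k Ω := (φ.comp (algebraMap k (FF k m))).toAlgebra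
  have hk' : ∀ c : k, c ≠ 0 → W (algebraMap k Ω c) = 0 := hk
  have h1 := fun ζ : Ω => JMF.gen_comb W hk' a (evL φ ζ)
  have h2 := JMF.gen_comb W hk' a (coL φ D)
  obtain ⟨μ, hμ0, hμ⟩ := JMF.exists_generic (k := k) (insert none (S.image some))
    (fun o : Option Ω => match o with
      | none => {μ : k | ¬ ∀ j, coL φ D (a j) ≠ 0 → coL φ D (∑ i : Fin r, μ ^ (i : ℕ) • a i) ≠ 0 ∧
          W (coL φ D (∑ i : Fin r, μ ^ (i : ℕ) • a i)) ≤ W (coL φ D (a j))}
      | some ζ => {μ : k | ¬ ∀ j, evL φ ζ (a j) ≠ 0 →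
          evL φ ζ (∑ i : Fin r, μ ^ (i : ℕ) • a i) ≠ 0 ∧
          W (evL φ ζ (∑ i : Fin r, μ ^ (i : ℕ) • a i)) ≤ W (evL φ ζ (a j))})
    (by
      intro o ho
      match o with
      | none => exact h2
      | some ζ => exact h1 ζ)
  have hsum : (∑ i : Fin r, μ ^ (i : ℕ) • a i) = ∑ i : Fin r, C (μ ^ (i : ℕ)) * a i :=
    Finset.sum_congr rfl fun i _ => smul_eq_C_mul _ _
  refine ⟨μ, hμ0, ?_, ?_⟩
  · intro ζ hζ j hj
    have h3 := hμ (some ζ) (Finset.mem_insert_of_mem (Finset.mem_image_of_mem _ hζ))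
    simp only [Set.mem_ofPred_eq, not_not] at h3
    have h4 := h3 j hj
    rw [hsum] at h4
    exact h4
  · intro j hj
    have h3 := hμ none (Finset.mem_insert_self _ _)
    simp only [Set.mem_ofPred_eq, not_not] at h3
    have h4 := h3 j hj
    rw [hsum] at h4
    exact h4

end Gen

section Taylor

variable {Ω : Type} [Field Ω] (W : RVal Ω)

theorem eval_eq_sum_taylor (P : Polynomial Ω) (ζ z : Ω) :
    P.eval z = ∑ j ∈ Finset.range (P.natDegree + 1), (P.taylor ζ).coeff j * (z - ζ) ^ j := by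
  have h := Polynomial.taylor_eval_sub ζ P z
  rw [← h, Polynomial.eval_eq_sum_range, Polynomial.natDegree_taylor]

/-- Some Taylor coefficient at a near point has a small value. -/
theorem exists_coeff_le (P : Polynomial Ω) (ζ z : Ω) (ρ r : ℝ)
    (hz : ζ = z ∨ ρ < W (ζ - z)) (hne : P.eval z ≠ 0) (hr : W (P.eval z) ≤ r) :
    ∃ j, (P.taylor ζ).coeff j ≠ 0 ∧ W ((P.taylor ζ).coeff j) + j * ρ ≤ r := by
  by_contra hcon
  push Not at hcon
  have hgt : W.Gt r (P.eval z) := by
    rw [eval_eq_sum_taylor P ζ z]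
    refine RVal.Gt.sum _ _ fun j _ => ?_
    intro h0
    have h1 := left_ne_zero_of_mul h0
    have h2 := right_ne_zero_of_mul h0
    rw [W.map_mul h1 h2]
    have h3 := hcon j h1
    by_cases hj : j = 0
    · subst hj
      rw [pow_zero, W.map_one]
      simpa using h3
    · have h4 : z - ζ ≠ 0 := by
        rintro h
        rw [h, zero_pow hj] at h2
        exact h2 rfl
      have h5 : ρ < W (z - ζ) := by
        rcases hz with h | h
        · exact absurd (by rw [h, sub_self]) h4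
        · have h6 : ζ - z ≠ 0 := by rwa [← neg_sub, neg_ne_zero] at h4
          rw [← neg_sub, W.map_neg _ h6]
          exact h
      rw [W.map_pow h4]
      have h6 : (j : ℝ) * ρ ≤ j * W (z - ζ) := mul_le_mul_of_nonneg_left h5.le (Nat.cast_nonneg _)
      linarith
  exact absurd (hgt hne) (not_lt.mpr hr)

/-- The value at a near point from the values of the Taylor coefficients. -/
theorem ge_eval_near (P : Polynomial Ω) (ζ z : Ω) (ρ s l : ℝ) (D : ℕ) (hD : P.natDegree ≤ D)
    (hz : ζ = z ∨ ρ < W (ζ - z)) (hρs : ρ ≤ s)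
    (hc : ∀ j : ℕ, W.Ge (l - j * s) ((P.taylor z).coeff j)) :
    W.Ge (l - D * (s - ρ)) (P.eval ζ) := by
  rw [eval_eq_sum_taylor P z ζ]
  refine RVal.Ge.sum _ _ fun j hj => ?_
  have hjD : j ≤ D := by
    have := Finset.mem_range.mp hj
    omega
  have hjD' : (j : ℝ) * (s - ρ) ≤ D * (s - ρ) :=
    mul_le_mul_of_nonneg_right (by exact_mod_cast hjD) (by linarith)
  intro h0
  have h1 := left_ne_zero_of_mul h0
  have h2 := right_ne_zero_of_mul h0
  rw [W.map_mul h1 h2]
  have h3 := hc j h1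
  by_cases hj0 : j = 0
  · subst hj0
    rw [pow_zero, W.map_one]
    simp only [Nat.cast_zero, zero_mul] at h3 hjD'
    linarith
  · have h4 : ζ - z ≠ 0 := by
      rintro h
      rw [h, zero_pow hj0] at h2
      exact h2 rfl
    have h5 : ρ < W (ζ - z) := by
      rcases hz with h | h
      · exact absurd (by rw [h, sub_self]) h4
      · exact h
    rw [W.map_pow h4]
    have h6 : (j : ℝ) * ρ ≤ j * W (ζ - z) := mul_le_mul_of_nonneg_left h5.le (Nat.cast_nonneg _)
    linarith

end Taylor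

end Pool.Agent.JM69
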