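import Pool.Agent.Lib.JM69.Cpt

/-!
# Row TOPW of the tank JM: the computing inequality for a test valuation (OWNER: helper62)
-/

set_option autoImplicit false

open MvPolynomial

namespace Pool.Agent.JM69

open Pool.Agent.H15JM

variable {k : Type} [Field k] {n : ℕ}

namespace T62

theorem aeval_toFF_X (p : MvPolynomial (Fin n) k) :
    MvPolynomial.aeval (fun i => (toFF (X i) : FF k n)) p = toFF p := by
  have h : (MvPolynomial.aeval (fun i => (toFF (X i) : FF k n)) :
      MvPolynomial (Fin n) k →ₐ[k] FF k n) = toFF := by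
    apply MvPolynomial.algHom_ext
    intro i
    simp
  rw [h]

theorem pd_dual (i j : Fin n) : pd j (toFF (X i) : FF k n) = if i = j then 1 else 0 := by
  rw [pd_toFF, pderiv_X]
  by_cases h : i = j
  · subst h; simp
  · simp [h]

/-- The values of polynomials are bounded in terms of the degree. -/
theorem val_le_degree [CharZero k] (w : RVal (FF k n))
    (hw : ∀ p : MvPolynomial (Fin n) k, p ≠ 0 → 0 ≤ w (toFF p)) (B : ℝ)
    (hB : ABd pd w B) (p : MvPolynomial (Fin n) k) (hp : p ≠ 0) :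
    w (toFF p) ≤ p.totalDegree * |B| := by
  have : CharZero (FF k n) :=
    charZero_of_injective_algebraMap (algebraMap k (FF k n)).injective
  have hk : ∀ c : k, c ≠ 0 → w (algebraMap k (FF k n) c) = 0 := by
    intro c hc
    have h1 := hw (C c) (by simpa using hc)
    have h2 := hw (C c⁻¹) (by simpa using inv_ne_zero hc)
    rw [toFF_C] at h1 h2
    rw [map_inv₀, w.map_inv (by simpa using hc)] at h2
    linarith
  have hy : ∀ i : Fin n, 0 ≤ w (toFF (X i)) := fun i => hw _ (X_ne_zero i)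
  have h1 := (izumi w hk pd (fun i => toFF (X i)) pd_dual |B| (abs_nonneg B)
    (fun j g hg => (der_bound w pd (fun i => toFF (X i)) pd_dual B hB hy j g hg).trans
      (le_abs_self B)) p hp).2
  rwa [aeval_toFF_X] at h1

/-- A bound of the log discrepancy is nonnegative. -/
theorem ABd_nonneg {w : RVal (FF k n)}
    (hw : ∀ p : MvPolynomial (Fin n) k, p ≠ 0 → 0 ≤ w (toFF p)) {B : ℝ} (hB : ABd pd w B) :
    0 ≤ B := by
  have h1 := hB (fun i => toFF (X i)) (by rw [jacD_pd_X]; exact one_ne_zero)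
  rw [jacD_pd_X, w.map_one, sub_zero] at h1
  exact le_trans (Finset.sum_nonneg fun i _ => hw _ (X_ne_zero i)) h1

theorem seqVal_nonneg (v : ValX k n) (a : GradedSeq k n) : 0 ≤ v.seqVal a := by
  apply Real.sInf_nonneg
  rintro t ⟨m, _, _, rfl⟩
  exact div_nonneg (v.idealVal_nonneg _) (Nat.cast_nonneg m)

/-- For a computing valuation, `v(a_•) > 0` and `A(v) + v(q) > 0`. -/
theorem pos_of_computes (v : ValX k n) (q : Ideal (MvPolynomial (Fin n) k)) (a : GradedSeq k n)
    (hcomp : v.Computes q a) : 0 < v.seqVal a ∧ 0 < v.logDisc.toReal + v.idealVal q := by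
  have h1 : 0 < v.seqVal a / (v.logDisc.toReal + v.idealVal q) := hcomp.2.2.1
  have h2 := seqVal_nonneg v a
  rcases div_pos_iff.mp h1 with h | h
  · exact h
  · linarith [h.1]

end T62

open T62

/-- ROW TOPW. The computing inequality for a test valuation. -/
theorem top_w [CharZero k] (v : ValX k n) (q : Ideal (MvPolynomial (Fin n) k))
    (a : GradedSeq k n) (hcomp : v.Computes q a) (β : MvPolynomial (Fin n) k) (hβ : β ∈ q)
    (hβ0 : β ≠ 0) (x : MvPolynomial (Fin n) k) (hx0 : x ≠ 0) (α : ℝ) (hα : 0 < α) (B : ℝ)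
    (w : RVal (FF k n)) (hw : Cls n x α B w) (ε : ℝ) (hε : 0 < ε) :
    ∃ (M : ℕ) (f : MvPolynomial (Fin n) k), 1 ≤ M ∧ f ≠ 0 ∧ M * v.seqVal a ≤ v (toFF f) ∧
      w (toFF f) / M < v.seqVal a / (v.logDisc.toReal + v.idealVal q) * (B + w (toFF β)) + ε := by
  obtain ⟨hτ, hS⟩ := pos_of_computes v q a hcomp
  obtain ⟨hnt, hfin, hrat, hmax⟩ := hcomp
  obtain ⟨hpos, hwx, hwB⟩ := hw
  set A : ℝ := v.logDisc.toReal with hA
  set S : ℝ := A + v.idealVal q with hSdef
  set τ : ℝ := v.seqVal a with hτdef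
  set W : ValX k n := { toRVal := w, nonneg' := hpos } with hW
  have hWapp : ∀ x, W x = w x := fun x => rfl
  have hWnt : W.Nontrivial := by
    refine ⟨toFF x, toFF_ne_zero hx0, ?_⟩
    rw [hWapp, hwx]
    exact hα.ne'
  have hWfin : W.logDisc < ⊤ := lt_of_le_of_lt (W.logDisc_le B hwB) (EReal.coe_lt_top _)
  have hWA : W.logDisc.toReal ≤ B := W.toReal_le hWfin _ hwB
  have hWABd : ABd pd w W.logDisc.toReal := fun f hf => W.le_toReal hWfin f hf
  have hWpos : 0 < W.logDisc.toReal := by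
    have h1 : 0 ≤ W.logDisc.toReal := ABd_nonneg hpos hWABd
    have h2 := val_le_degree w hpos _ hWABd x hx0
    rw [hwx, abs_of_nonneg h1] at h2
    rcases h1.lt_or_eq with h3 | h3
    · exact h3
    · rw [← h3, mul_zero] at h2
      linarith
  have hWq : W.idealVal q ≤ w (toFF β) := W.idealVal_le q hβ hβ0
  have hWq0 := W.idealVal_nonneg q
  have hden : 0 < W.logDisc.toReal + W.idealVal q := by linarith
  have hle := hmax W hWnt hWfin
  rw [ValX.ratio, ValX.ratio, div_le_div_iff₀ hden hS] at hle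
  have hseq : W.seqVal a ≤ τ / S * (B + w (toFF β)) := by
    rw [div_mul_eq_mul_div, le_div_iff₀ hS]
    refine hle.trans ?_
    exact mul_le_mul_of_nonneg_left (by linarith) hτ.le
  have hlt : W.seqVal a < τ / S * (B + w (toFF β)) + ε := by linarith
  obtain ⟨m0, hm0, hm0'⟩ := a.exists_ne_bot
  obtain ⟨s, ⟨m, hm, hm', rfl⟩, hs⟩ := exists_lt_of_csInf_lt
    (s := {t | ∃ m, 1 ≤ m ∧ a.ideal m ≠ ⊥ ∧ t = W.idealVal (a.ideal m) / m})
    ⟨_, m0, hm0, hm0', rfl⟩ hlt
  have hmpos : (0 : ℝ) < m := by exact_mod_cast hm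
  rw [div_lt_iff₀ hmpos] at hs
  obtain ⟨f0, hf0, hf00⟩ := Submodule.exists_mem_ne_zero_of_ne_bot hm'
  obtain ⟨s, ⟨f, hf, hf0', rfl⟩, hs'⟩ := exists_lt_of_csInf_lt
    (s := {t | ∃ f ∈ a.ideal m, f ≠ 0 ∧ t = W (toFF f)}) ⟨_, f0, hf0, hf00, rfl⟩ hs
  refine ⟨m, f, hm, hf0', ?_, ?_⟩
  · have h1 : τ ≤ v.idealVal (a.ideal m) / m := by
      refine csInf_le ?_ ⟨m, hm, hm', rfl⟩
      refine ⟨0, ?_⟩
      rintro t ⟨j, _, _, rfl⟩
      exact div_nonneg (v.idealVal_nonneg _) (Nat.cast_nonneg j)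
    rw [le_div_iff₀ hmpos] at h1
    have h2 := v.idealVal_le _ hf hf0'
    linarith
  · rw [hWapp] at hs'
    rw [div_lt_iff₀ hmpos]
    exact hs'

end Pool.Agent.JM69
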