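import Pool.Agent.Lib.JM69.Trunc
import Pool.Agent.Lib.JM69.TopW

/-!
# Row TOP of the tank JM: a computing valuation satisfies the domination statement `SS`
(OWNER: helper62)
-/

set_option autoImplicit false

open MvPolynomial

namespace Pool.Agent.JM69

open Pool.Agent.H15JM

variable {k : Type} [Field k] {n : ℕ}

namespace T62

/-- The value of an ideal is attained. -/
theorem exists_idealVal_eq (v : ValX k n) (q : Ideal (MvPolynomial (Fin n) k)) (hq : q ≠ ⊥) :
    ∃ f ∈ q, f ≠ 0 ∧ v (toFF f) = v.idealVal q := by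
  classical
  obtain ⟨S, hS⟩ := (IsNoetherian.noetherian q : q.FG)
  set S' := S.filter (fun f => f ≠ 0) with hS'
  have hne : S'.Nonempty := by
    by_contra h
    rw [Finset.not_nonempty_iff_eq_empty] at h
    apply hq
    rw [← hS, Submodule.span_eq_bot]
    intro f hf
    by_contra hf0
    have : f ∈ S' := Finset.mem_filter.mpr ⟨hf, hf0⟩
    rw [h] at this
    exact Finset.notMem_empty _ this
  obtain ⟨g, hg, hmin⟩ := Finset.exists_min_image S' (fun f => v (toFF f)) hne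
  have hg' := Finset.mem_filter.mp hg
  have hgq : g ∈ q := by
    rw [← hS]
    exact Submodule.subset_span hg'.1
  refine ⟨g, hgq, hg'.2, le_antisymm ?_ (v.idealVal_le q hgq hg'.2)⟩
  apply v.le_idealVal q hq
  intro f hf hf0
  have key : v.toRVal.Ge (v (toFF g)) (toFF f) := by
    rw [← hS] at hf
    refine Submodule.span_induction (p := fun f _ => v.toRVal.Ge (v (toFF g)) (toFF f))
      ?_ ?_ ?_ ?_ hf
    · intro x hx h0
      have hx0 : x ≠ 0 := by
        rintro rfl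
        exact h0 (_root_.map_zero _)
      exact hmin x (Finset.mem_filter.mpr ⟨hx, hx0⟩)
    · rw [_root_.map_zero]
      exact RVal.Ge.zero
    · intro x y _ _ hx hy
      rw [_root_.map_add]
      exact hx.add hy
    · intro c x _ hx
      rw [smul_eq_mul, _root_.map_mul]
      have hc : v.toRVal.Ge 0 (toFF c) := by
        intro h0
        have hc0 : c ≠ 0 := by
          rintro rfl
          exact h0 (_root_.map_zero _)
        exact v.nonneg' c hc0
      have := hc.mul hx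
      rwa [zero_add] at this
  exact key (toFF_ne_zero hf0)

/-- Compactness: for a fixed bound, finitely many pairs do. -/
theorem exists_common [CharZero k] (v : ValX k n) (q : Ideal (MvPolynomial (Fin n) k))
    (a : GradedSeq k n) (hcomp : v.Computes q a) (c : Fin n → k)
    (c₀ : ℝ) (hc₀ : 0 < c₀) (hc : ∀ i, c₀ ≤ v (toFF (X i - C (c i))))
    (x : MvPolynomial (Fin n) k) (hx0 : x ≠ 0) (α : ℝ) (hα : 0 < α) (B : ℝ)
    (β : MvPolynomial (Fin n) k) (hβ : β ∈ q) (hβ0 : β ≠ 0) (ε : ℝ) (hε : 0 < ε) :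
    ∃ N : ℕ, 1 ≤ N ∧ ∀ w : RVal (FF k n), Cls n x α B w →
      ∃ M : ℕ, 1 ≤ M ∧ M ∣ N ∧ ∃ f : MvPolynomial (Fin n) k, f ≠ 0 ∧
        (f.totalDegree : ℝ) ≤ M * (v.seqVal a / c₀ + 1) ∧ M * v.seqVal a ≤ v (toFF f) ∧
        w (toFF f) ≤ M * (v.seqVal a / (v.logDisc.toReal + v.idealVal q) *
          (B + w (toFF β)) + ε) := by
  classical
  obtain ⟨hτ, hS⟩ := pos_of_computes v q a hcomp
  set S : ℝ := v.logDisc.toReal + v.idealVal q with hSdef
  set τ : ℝ := v.seqVal a with hτdef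
  set K : Set (FF k n → ℝ) := {φ : FF k n → ℝ | ∃ w : RVal (FF k n), Cls n x α B w ∧ φ 0 = 0 ∧
      ∀ f, f ≠ 0 → φ f = w f} with hKdef
  have hK : IsCompact K := isCompact_cls x α B
  set P : Set (FF k n → ℝ) → Prop := fun s => ∃ N : ℕ, 1 ≤ N ∧ ∀ w ∈ s,
      ∃ M : ℕ, 1 ≤ M ∧ M ∣ N ∧ ∃ f : MvPolynomial (Fin n) k, f ≠ 0 ∧
        (f.totalDegree : ℝ) ≤ M * (τ / c₀ + 1) ∧ M * τ ≤ v (toFF f) ∧
        w (toFF f) ≤ M * (τ / S * (B + w (toFF β)) + ε) with hP
  have main : P K := by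
    refine hK.induction_on (p := P) ?_ ?_ ?_ ?_
    · exact ⟨1, le_rfl, fun w hw => absurd hw (Set.notMem_empty w)⟩
    · rintro s s' hss' ⟨N, hN, h⟩
      exact ⟨N, hN, fun w hw => h w (hss' hw)⟩
    · rintro s s' ⟨N, hN, h⟩ ⟨N', hN', h'⟩
      refine ⟨N * N', Nat.mul_pos hN hN', fun w hw => ?_⟩
      rcases hw with hw | hw
      · obtain ⟨M, hM, hMN, hf⟩ := h w hw
        exact ⟨M, hM, hMN.mul_right _, hf⟩
      · obtain ⟨M, hM, hMN, hf⟩ := h' w hw
        exact ⟨M, hM, hMN.mul_left _, hf⟩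
    · rintro φ ⟨w, hw, h0, hφ⟩
      obtain ⟨M, f, hM, hf, hvf, hwf⟩ := top_w v q a hcomp β hβ hβ0 x hx0 α hα B w hw ε hε
      have hMpos : (0 : ℝ) < M := by exact_mod_cast hM
      rw [div_lt_iff₀ hMpos] at hwf
      obtain ⟨g, hg, hvg, hgE, hwg⟩ := truncate v.toRVal w v.nonneg' hw.1 c c₀ hc₀ hc (M * τ)
        (by positivity) f hf hvf
      set U : Set (FF k n → ℝ) := {φ' | φ' (toFF g) < M * (τ / S * (B + φ' (toFF β)) + ε)}
        with hU
      have hev : ∀ x : FF k n, Continuous fun w : FF k n → ℝ => w x := fun x => continuous_apply x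
      have hUo : IsOpen U := by
        refine isOpen_lt (hev (toFF g)) ?_
        exact Continuous.mul continuous_const (Continuous.add (Continuous.mul continuous_const
          (Continuous.add continuous_const (hev (toFF β)))) continuous_const)
      have hwU : φ ∈ U := by
        show φ (toFF g) < M * (τ / S * (B + φ (toFF β)) + ε)
        rw [hφ _ (toFF_ne_zero hg), hφ _ (toFF_ne_zero hβ0)]
        refine lt_of_le_of_lt hwg ?_
        rw [mul_comm]
        exact hwf
      refine ⟨U, mem_nhdsWithin_of_mem_nhds (hUo.mem_nhds hwU), M, hM, ?_⟩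
      intro w' hw'
      refine ⟨M, hM, dvd_rfl, g, hg, ?_, hvg, le_of_lt hw'⟩
      calc (g.totalDegree : ℝ) ≤ M * τ / c₀ + 1 := hgE
        _ ≤ M * (τ / c₀ + 1) := by
          have : (1 : ℝ) ≤ M := by exact_mod_cast hM
          have h2 : M * (τ / c₀ + 1) = M * τ / c₀ + M := by ring
          linarith
  obtain ⟨N, hN, h⟩ := main
  refine ⟨N, hN, fun w hw => ?_⟩
  -- the function of `w`, normalised to be zero at zero
  set w' : FF k n → ℝ := fun x => if x = 0 then 0 else w x with hw'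
  have hw'ne : ∀ x : FF k n, x ≠ 0 → w' x = w x := fun x hx => by rw [hw']; exact if_neg hx
  have hmem : w' ∈ K := ⟨w, hw, if_pos rfl, hw'ne⟩
  obtain ⟨M, hM, hMN, f, hf, hdeg, hvf, hwf⟩ := h w' hmem
  rw [hw'ne _ (toFF_ne_zero hf), hw'ne _ (toFF_ne_zero hβ0)] at hwf
  exact ⟨M, hM, hMN, f, hf, hdeg, hvf, hwf⟩

end T62

open T62

/-- ROW TOP. -/
theorem top [CharZero k] (v : ValX k n) (c : Fin n → k)
    (hc : ∀ i, 0 < v (toFF (X i - C (c i))))
    (q : Ideal (MvPolynomial (Fin n) k)) (hq : q ≠ ⊥) (a : GradedSeq k n)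
    (hcomp : v.Computes q a) (x : MvPolynomial (Fin n) k) (hx0 : x ≠ 0)
    (hx1 : x.totalDegree ≤ 1) (hx : 0 < v (toFF x)) :
    SS n v.toRVal v.logDisc.toReal x (v (toFF x)) := by
  classical
  obtain ⟨hτ, hS⟩ := pos_of_computes v q a hcomp
  obtain ⟨β, hβ, hβ0, hvβ⟩ := exists_idealVal_eq v q hq
  obtain ⟨c₀, hc₀, hcc⟩ := exists_pos_le_forall Finset.univ
    (fun i : Fin n => v (toFF (X i - C (c i)))) (fun i _ => hc i)
  have hc' : ∀ i, c₀ ≤ v (toFF (X i - C (c i))) := fun i => hcc i (Finset.mem_univ i)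
  have hfin : v.logDisc < ⊤ := hcomp.2.1
  set A : ℝ := v.logDisc.toReal with hAdef
  set α : ℝ := v (toFF x) with hαdef
  have hABd : ABd pd v.toRVal A := fun f hf => v.le_toReal hfin f hf
  have hA0 : 0 ≤ A := ABd_nonneg v.nonneg' hABd
  have hApos : 0 < A := by
    have h2 := val_le_degree v.toRVal v.nonneg' _ hABd x hx0
    rw [abs_of_nonneg hA0] at h2
    rcases hA0.lt_or_eq with h3 | h3
    · exact h3
    · rw [← h3, mul_zero] at h2
      exact absurd hx (not_lt.mpr h2)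
  have hβv : 0 ≤ v (toFF β) := v.nonneg' β hβ0
  rw [← hvβ] at hS
  set S : ℝ := A + v (toFF β) with hSdef
  set τ : ℝ := v.seqVal a with hτdef
  set d : ℝ := (β.totalDegree : ℝ) with hd
  have hd0 : 0 ≤ d := Nat.cast_nonneg _
  have hp1 : 0 ≤ A / (S * α) := by positivity
  have hp2 : 0 ≤ d / S := by positivity
  have hp3 : 0 < 1 / c₀ := by positivity
  have hp4 : 0 < 1 / τ := by positivity
  refine ⟨1 / c₀ + 1 / τ + (A / (S * α) + d / S + 1 + d), 1 / (2 * S), A, by positivity,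
    by positivity, hApos, ?_⟩
  intro s hs ε hε l₀
  obtain ⟨t₁, ht₁, hst₁⟩ := exists_pos_le_forall s (fun t => t) (fun t ht => (hs t ht).1)
  have hcom : ∀ t : ℝ, ∃ N : ℕ, 1 ≤ N ∧ ∀ w : RVal (FF k n), Cls n x α (A - t) w →
      ∃ M : ℕ, 1 ≤ M ∧ M ∣ N ∧ ∃ f : MvPolynomial (Fin n) k, f ≠ 0 ∧
        (f.totalDegree : ℝ) ≤ M * (τ / c₀ + 1) ∧ M * τ ≤ v (toFF f) ∧
        w (toFF f) ≤ M * (τ / S * (A - t + w (toFF β)) + ε * τ) := by
    intro t
    have := exists_common v q a hcomp c c₀ hc₀ hc' x hx0 α hx (A - t) β hβ hβ0 (ε * τ)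
      (by positivity)
    rw [← hvβ] at this
    exact this
  choose Nf hNf1 hNf2 using hcom
  set N : ℕ := ∏ t ∈ s, Nf t with hN
  have hN0 : 0 < N := by
    rw [hN]
    exact Finset.prod_pos fun t _ => lt_of_lt_of_le Nat.one_pos (hNf1 t)
  have hN1 : 1 ≤ N := hN0
  set L : ℝ := max (max l₀ 1) ((α + v (toFF β)) * (2 * S) / t₁) with hL
  set K : ℕ := ⌈L / τ⌉₊ + 1 with hK
  have hK1 : L / τ ≤ K := by
    rw [hK]
    push_cast
    have := Nat.le_ceil (L / τ)
    linarith
  have hK0 : 1 ≤ K := by omega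
  set M : ℕ := N * K with hM
  have hMK : K ≤ M := by
    rw [hM]
    exact Nat.le_mul_of_pos_left K hN1
  have hM1 : 1 ≤ M := hK0.trans hMK
  set l : ℝ := M * τ with hl
  have hLl : L ≤ l := by
    have h1 : (K : ℝ) ≤ M := by exact_mod_cast hMK
    rw [div_le_iff₀ hτ] at hK1
    exact hK1.trans (mul_le_mul_of_nonneg_right h1 hτ.le)
  have hl1 : 1 ≤ l := le_trans (le_trans (le_max_right l₀ 1) (le_max_left _ _)) hLl
  have hl0 : l₀ ≤ l := le_trans (le_trans (le_max_left l₀ 1) (le_max_left _ _)) hLl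
  have hl2 : (α + v (toFF β)) * (2 * S) / t₁ ≤ l := le_trans (le_max_right _ _) hLl
  refine ⟨l, hl0, fun t ht => ?_⟩
  obtain ⟨ht0, htA⟩ := hs t ht
  have htt : t₁ ≤ t := hst₁ t ht
  -- the polynomial `g`
  have hq1 : 0 ≤ l / S * (A - t) / α := by
    have : 0 ≤ A - t := by linarith
    positivity
  have hq2 : 0 ≤ l / S := by positivity
  set N₁ : ℕ := ⌈l / S * (A - t) / α⌉₊ with hN₁
  set M₂ : ℕ := ⌈l / S⌉₊ with hM₂
  have hN₁a : l / S * (A - t) / α ≤ N₁ := Nat.le_ceil _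
  have hN₁b : (N₁ : ℝ) ≤ l / S * (A - t) / α + 1 := (Nat.ceil_lt_add_one hq1).le
  have hM₂a : l / S ≤ M₂ := Nat.le_ceil _
  have hM₂b : (M₂ : ℝ) ≤ l / S + 1 := (Nat.ceil_lt_add_one hq2).le
  have hval : ∀ u : RVal (FF k n), u (toFF (x ^ N₁ * β ^ M₂)) =
      N₁ * u (toFF x) + M₂ * u (toFF β) := by
    intro u
    rw [_root_.map_mul, u.map_mul (toFF_ne_zero (pow_ne_zero _ hx0))
      (toFF_ne_zero (pow_ne_zero _ hβ0)), _root_.map_pow, _root_.map_pow,
      u.map_pow (toFF_ne_zero hx0), u.map_pow (toFF_ne_zero hβ0)]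
  refine ⟨x ^ N₁ * β ^ M₂, mul_ne_zero (pow_ne_zero _ hx0) (pow_ne_zero _ hβ0), ?_, ?_, ?_⟩
  · -- the degree
    have h1 : (x ^ N₁ * β ^ M₂).totalDegree ≤ N₁ * 1 + M₂ * β.totalDegree := by
      refine (totalDegree_mul _ _).trans (add_le_add ?_ (totalDegree_pow _ _))
      exact (totalDegree_pow _ _).trans (Nat.mul_le_mul_left _ hx1)
    have h2 : ((x ^ N₁ * β ^ M₂).totalDegree : ℝ) ≤ N₁ * 1 + M₂ * d := by
      rw [hd]
      exact_mod_cast h1
    have h3 : (M₂ : ℝ) * d ≤ (l / S + 1) * d := mul_le_mul_of_nonneg_right hM₂b hd0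
    have h4 : l / S * (A - t) / α ≤ l * (A / (S * α)) := by
      have : l * (A / (S * α)) = l / S * A / α := by field_simp
      rw [this]
      apply div_le_div_of_nonneg_right _ hx.le
      exact mul_le_mul_of_nonneg_left (by linarith) hq2
    have h5 : (l / S + 1) * d = l * (d / S) + d := by ring
    have h6 : d ≤ l * d := by nlinarith
    have h7 : 0 ≤ l * (1 / c₀) := by positivity
    have h8 : 0 ≤ l * (1 / τ) := by positivity
    nlinarith
  · -- the `v`-value
    have h0 : v.toRVal (toFF (x ^ N₁ * β ^ M₂)) = N₁ * α + M₂ * v (toFF β) := hval v.toRVal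
    rw [h0]
    have h1 : (N₁ : ℝ) * α ≤ l / S * (A - t) + α := by
      have h2 : (N₁ : ℝ) * α ≤ (l / S * (A - t) / α + 1) * α :=
        mul_le_mul_of_nonneg_right hN₁b hx.le
      have h3 : (l / S * (A - t) / α + 1) * α = l / S * (A - t) + α := by
        have : α ≠ 0 := hx.ne'
        field_simp
      linarith
    have h2 : (M₂ : ℝ) * v (toFF β) ≤ (l / S + 1) * v (toFF β) :=
      mul_le_mul_of_nonneg_right hM₂b hβv
    have h3 : l / S * (A - t) + α + (l / S + 1) * v (toFF β)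
        = l - t / S * l + (α + v (toFF β)) := by
      have h4 : l / S * S = l := div_mul_cancel₀ l hS.ne'
      have h5 : l / S * (A - t) + l / S * v (toFF β) = l / S * S - l / S * t := by
        rw [hSdef]; ring
      have h6 : l / S * t = t / S * l := by ring
      linarith [h4, h5, h6]
    have h4 : α + v (toFF β) ≤ 1 / (2 * S) * t * l := by
      rw [div_le_iff₀ ht₁] at hl2
      have h5 : (α + v (toFF β)) * (2 * S) ≤ l * t :=
        hl2.trans (mul_le_mul_of_nonneg_left htt (by linarith))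
      have h6 : 1 / (2 * S) * t * l = l * t / (2 * S) := by ring
      rw [h6, le_div_iff₀ (by positivity)]
      exact h5
    have h5 : t / S * l = 1 / (2 * S) * t * l + 1 / (2 * S) * t * l := by
      field_simp
      ring
    linarith
  · -- domination
    intro w hw
    obtain ⟨Mw, hMw, hMwN, f, hf, hdeg, hvf, hwf⟩ := hNf2 t w hw
    have hdvd : Mw ∣ M := (hMwN.trans (Finset.dvd_prod_of_mem _ ht)).trans (Dvd.intro _ rfl)
    obtain ⟨r, hr⟩ := hdvd
    have hrr : (M : ℝ) = Mw * r := by exact_mod_cast hr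
    have hr0 : (0 : ℝ) ≤ r := Nat.cast_nonneg _
    have hwβ : 0 ≤ w (toFF β) := hw.1 β hβ0
    refine ⟨f ^ r, pow_ne_zero _ hf, ?_, ?_, ?_⟩
    · have h1 : ((f ^ r).totalDegree : ℝ) ≤ r * f.totalDegree := by
        exact_mod_cast totalDegree_pow f r
      have h2 : (r : ℝ) * f.totalDegree ≤ r * (Mw * (τ / c₀ + 1)) :=
        mul_le_mul_of_nonneg_left hdeg hr0
      have h3 : (r : ℝ) * (Mw * (τ / c₀ + 1)) = l * (1 / c₀ + 1 / τ) := by
        have h4 : (r : ℝ) * (Mw * (τ / c₀ + 1)) = M * (τ / c₀ + 1) := by rw [hrr]; ring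
        rw [h4, hl]
        have : τ ≠ 0 := hτ.ne'
        field_simp
      have h5 : 0 ≤ l * (A / (S * α) + d / S + 1 + d) := by positivity
      nlinarith
    · rw [_root_.map_pow]
      have h0 : v.toRVal (toFF f ^ r) = r * v (toFF f) := v.toRVal.map_pow (toFF_ne_zero hf) r
      rw [h0]
      calc l = r * (Mw * τ) := by rw [hl, hrr]; ring
        _ ≤ r * v (toFF f) := mul_le_mul_of_nonneg_left hvf hr0
    · rw [_root_.map_pow, w.map_pow (toFF_ne_zero hf), hval w, hw.2.1]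
      have h1 : (r : ℝ) * w (toFF f) ≤
          r * (Mw * (τ / S * (A - t + w (toFF β)) + ε * τ)) :=
        mul_le_mul_of_nonneg_left hwf hr0
      have h2 : (r : ℝ) * (Mw * (τ / S * (A - t + w (toFF β)) + ε * τ))
          = l / S * (A - t) + l / S * w (toFF β) + ε * l := by
        have h4 : (r : ℝ) * (Mw * (τ / S * (A - t + w (toFF β)) + ε * τ))
          = M * (τ / S * (A - t + w (toFF β)) + ε * τ) := by rw [hrr]; ring
        rw [h4, hl]
        ring
      have h3 : l / S * (A - t) ≤ N₁ * α := by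
        rw [div_le_iff₀ hx] at hN₁a
        exact hN₁a
      have h4 : l / S * w (toFF β) ≤ M₂ * w (toFF β) := mul_le_mul_of_nonneg_right hM₂a hwβ
      linarith

end Pool.Agent.JM69
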