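import Pool.Agent.Lib.JM69.Rank
import Pool.Agent.Lib.JM69.Desc
import Pool.Agent.Lib.JM69.Top

/-!
# The strong Jonsson–Mustață conjecture on affine space
-/

set_option autoImplicit false

open MvPolynomial

namespace Pool.Agent.JM69

open Pool.Agent.H15JM

/-- A valuation of transcendence degree `0` that computes `Arn^q(a_•)` has rational rank `n`. -/
theorem strong_jm {k : Type} [Field k] [CharZero k] {n : ℕ} (v : ValX k n)
    (hres : v.ResidueFieldIs) (q : Ideal (MvPolynomial (Fin n) k)) (hq : q ≠ ⊥)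
    (a : GradedSeq k n) (hcomp : v.Computes q a) :
    ∃ f : Fin n → FF k n, (∀ i, f i ≠ 0) ∧ LinearIndependent ℚ fun i => v (f i) :=
  rank_of_computes
    (fun _ v hv0 A hA x hx0 hx1 α hα hxv c hc hS => descent v hv0 A hA x hx0 hx1 α hα hxv c hc hS)
    (fun _ v c hc q hq a h x h0 h1 hx => top v c hc q hq a h x h0 h1 hx) v hres q hq a hcomp

end Pool.Agent.JM69
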