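import Pool.Agent.Lib.JM69.Base
import Pool.Agent.Lib.JMF.End
import Pool.Agent.Lib.JMF.SApi

/-!
# Row RANK: the induction on the number of variables (OWNER: helper87)

`rank_of_ss`: the descent `S_{m+1} ⇒ S_m` and the end argument (rational rank `n - 1`) give
rational rank `n` for every valuation with `S_n`.
-/

set_option autoImplicit false

open MvPolynomial

namespace Pool.Agent.JM69

open Pool.Agent.H15JM

variable {k : Type} [Field k]

/-- The descent (row DESC), as a hypothesis (`x` is a centred coordinate). -/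
def Descent (k : Type) [Field k] : Prop :=
  ∀ (m : ℕ) (v : RVal (FF k (m + 1)))
    (_ : ∀ p : MvPolynomial (Fin (m + 1)) k, p ≠ 0 → 0 ≤ v (toFF p)) (A : ℝ) (_ : ABd pd v A)
    (x : MvPolynomial (Fin m) k) (_ : x ≠ 0) (_ : x.totalDegree ≤ 1) (α : ℝ) (_ : 0 < α)
    (_ : v (toFF (rename Fin.succ x)) = α) (c : k) (_ : 0 < v (toFF (X 0 - C c)))
    (_ : SS (m + 1) v A (rename Fin.succ x) α),
    ABd pd (comap v (emb k m).toRingHom) (A - JMF.sz v) ∧
      SS m (comap v (emb k m).toRingHom) (A - JMF.sz v) x α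

/-- The residue field of `v` is `k`. -/
def ResK {n : ℕ} (v : RVal (FF k n)) : Prop :=
  ∀ f : FF k n, f ≠ 0 → v f = 0 →
    ∃ c : k, f = algebraMap k (FF k n) c ∨ 0 < v (f - algebraMap k (FF k n) c)

theorem X_sub_C_ne_zero {n : ℕ} (i : Fin n) (c : k) :
    (X i - C c : MvPolynomial (Fin n) k) ≠ 0 := by
  intro h
  have h1 := congrArg (pderiv i) h
  rw [_root_.map_sub, pderiv_X_self, pderiv_C, sub_zero, _root_.map_zero] at h1
  exact one_ne_zero h1

theorem totalDegree_X_sub_C {n : ℕ} (i : Fin n) (c : k) :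
    (X i - C c : MvPolynomial (Fin n) k).totalDegree ≤ 1 := by
  refine (totalDegree_sub _ _).trans ?_
  rw [totalDegree_C, totalDegree_X]
  simp

/-- The centre of a valuation with residue field `k`. -/
theorem exists_centre {n : ℕ} (v : RVal (FF k n))
    (hv0 : ∀ p : MvPolynomial (Fin n) k, p ≠ 0 → 0 ≤ v (toFF p)) (hres : ResK v) (i : Fin n) :
    ∃ c : k, 0 < v (toFF (X i - C c)) := by
  have h0 : 0 ≤ v (toFF (X i)) := hv0 _ (X_ne_zero i)
  rcases h0.lt_or_eq with h | h
  · exact ⟨0, by simpa using h⟩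
  · obtain ⟨c, hc⟩ := hres (toFF (X i)) (toFF_ne_zero (X_ne_zero i)) h.symm
    have hC : algebraMap k (FF k n) c = toFF (C c) := (toFF_C c).symm
    refine ⟨c, ?_⟩
    rcases hc with hc | hc
    · exfalso
      rw [hC] at hc
      exact X_sub_C_ne_zero i c (by rw [toFF_injective hc, sub_self])
    · rw [hC, ← _root_.map_sub] at hc
      exact hc

/-- `S_n` gives the property `Big` of the end argument. -/
theorem big_of_ss {n : ℕ} (v : ValX k n) (A : ℝ) (hA : v.logDisc.toReal ≤ A) (i : Fin n) (c : k)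
    (hc : 0 < v (toFF (X i - C c)))
    (h : SS n v.toRVal A (X i - C c) (v (toFF (X i - C c)))) : Big v := by
  obtain ⟨p, κ, a₀, hp, hκ, ha₀, H⟩ := h
  refine ⟨κ / 2, by positivity, a₀, ha₀, fun V δ hδ hδ' hV0 hVv hVA hVx => ?_⟩
  obtain ⟨l, hl, hg⟩ := H {δ} (fun a ha => by rw [Finset.mem_singleton.mp ha]; exact ⟨hδ, hδ'⟩)
    (κ * δ / 2) (by positivity) 1
  obtain ⟨g, hg0, -, hgl, hdom⟩ := hg δ (Finset.mem_singleton_self δ)
  obtain ⟨f, hf0, -, hfl, hfg⟩ := hdom V ⟨hV0, hVx i c hc, fun f hf => by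
    have := hVA f hf
    linarith⟩
  refine ⟨f, hf0, ?_⟩
  have h1 : V (toFF g) ≤ v (toFF g) := hVv g hg0
  have h2 : V (toFF f) ≤ (1 - κ * δ / 2) * l := by
    have : v (toFF g) ≤ l - κ * δ * l := hgl
    nlinarith
  have hx : 0 < κ * δ := by positivity
  have hl0 : 0 < l := by linarith
  have h3 : (1 + δ * (κ / 2)) * V (toFF f) ≤ (1 + δ * (κ / 2)) * ((1 - κ * δ / 2) * l) :=
    mul_le_mul_of_nonneg_left h2 (by positivity)
  have h4 : (1 + δ * (κ / 2)) * ((1 - κ * δ / 2) * l) = l - (κ * δ / 2) ^ 2 * l := by ring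
  have h5 : 0 < (κ * δ / 2) ^ 2 * l := by positivity
  have h6 : l ≤ v (toFF f) := hfl
  linarith

theorem ResK.comap {m : ℕ} {v : RVal (FF k (m + 1))} (hres : ResK v) :
    ResK (comap v (emb k m).toRingHom) := by
  intro f hf hvf
  have hf' : emb k m f ≠ 0 := (_root_.map_ne_zero _).mpr hf
  obtain ⟨c, hc⟩ := hres (emb k m f) hf' hvf
  refine ⟨c, ?_⟩
  rcases hc with hc | hc
  · left
    apply (emb k m).toRingHom.injective
    change emb k m f = emb k m (algebraMap k (FF k m) c)
    rw [hc, AlgHom.commutes]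
  · right
    change 0 < v ((emb k m) (f - algebraMap k (FF k m) c))
    rw [_root_.map_sub, AlgHom.commutes]
    exact hc

variable [CharZero k]

/-- The induction on the number of variables. -/
theorem rank_of_ss (hdesc : Descent k) : ∀ (N : ℕ) (v : RVal (FF k (N + 1)))
    (_ : ∀ p : MvPolynomial (Fin (N + 1)) k, p ≠ 0 → 0 ≤ v (toFF p)) (_ : ResK v) (A : ℝ)
    (_ : ABd pd v A) (c : k) (_ : 0 < v (toFF (X (Fin.last N) - C c)))
    (_ : SS (N + 1) v A (X (Fin.last N) - C c) (v (toFF (X (Fin.last N) - C c)))),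
    ∃ f : Fin (N + 1) → FF k (N + 1), (∀ i, f i ≠ 0) ∧ LinearIndependent ℚ fun i => v (f i) := by
  intro N
  induction N with
  | zero =>
    intro v hv0 hres A hA c hc hSS
    refine ⟨fun _ => toFF (X (Fin.last 0) - C c), fun _ => toFF_ne_zero (X_sub_C_ne_zero _ c), ?_⟩
    have : Subsingleton (Fin (0 + 1)) := inferInstanceAs (Subsingleton (Fin 1))
    exact (linearIndependent_subsingleton_index_iff _).mpr fun _ => ne_of_gt hc
  | succ N ih =>
    intro v hv0 hres A hA c hc hSS
    obtain ⟨c₀, hc₀⟩ := exists_centre v hv0 hres 0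
    have hren : rename Fin.succ (X (Fin.last N) - C c : MvPolynomial (Fin (N + 1)) k)
        = (X (Fin.last (N + 1)) - C c : MvPolynomial (Fin (N + 2)) k) := by
      rw [_root_.map_sub, rename_X, rename_C, Fin.succ_last]
    obtain ⟨h0, h1⟩ := hdesc (N + 1) v hv0 A hA (X (Fin.last N) - C c) (X_sub_C_ne_zero _ c)
      (totalDegree_X_sub_C _ c) _ hc (by rw [hren]) c₀ hc₀ (by rw [hren]; exact hSS)
    have hcx : comap v (emb k (N + 1)).toRingHom (toFF (X (Fin.last N) - C c))
        = v (toFF (rename Fin.succ (X (Fin.last N) - C c : MvPolynomial (Fin (N + 1)) k))) := by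
      rw [← emb_toFF]
      rfl
    obtain ⟨f, hf0, hfi⟩ := ih (comap v (emb k (N + 1)).toRingHom) (fun p hp => by
        have h2 := hv0 (rename Fin.succ p) ((_root_.map_ne_zero_iff _ rename_succ_injective).mpr hp)
        rw [← emb_toFF] at h2
        exact h2) hres.comap (A - JMF.sz v) h0 c
      (by rw [hcx, hren]; exact hc) (by rw [hcx, hren]; exact h1)
    have hfin : (⟨v, hv0⟩ : ValX k (N + 2)).logDisc < ⊤ :=
      lt_of_le_of_lt ((⟨v, hv0⟩ : ValX k (N + 2)).logDisc_le A hA) (EReal.coe_lt_top _)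
    have hbig : Big (⟨v, hv0⟩ : ValX k (N + 2)) :=
      big_of_ss ⟨v, hv0⟩ A (ValX.toReal_le _ hfin A hA) (Fin.last (N + 1)) c hc hSS
    exact rank_eq_of_big ⟨v, hv0⟩ hres ⟨fun i => emb k (N + 1) (f i), fun i =>
      (_root_.map_ne_zero _).mpr (hf0 i), hfi⟩ hfin hbig

/-- Row TOP, in the form that the final theorem uses. -/
def TopStep (k : Type) [Field k] : Prop :=
  ∀ (n : ℕ) (v : ValX k n) (c : Fin n → k) (_ : ∀ i, 0 < v (toFF (X i - C (c i))))
    (q : Ideal (MvPolynomial (Fin n) k)) (_ : q ≠ ⊥) (a : GradedSeq k n) (_ : v.Computes q a)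
    (x : MvPolynomial (Fin n) k) (_ : x ≠ 0) (_ : x.totalDegree ≤ 1) (_ : 0 < v (toFF x)),
    SS n v.toRVal v.logDisc.toReal x (v (toFF x))

/-- A valuation with residue field `k` that computes `Arn^q(a_•) > 0` on the affine `n`-space has
rational rank `n` (given the top step and the descent). -/
theorem rank_of_computes (hdesc : Descent k) (htop : TopStep k) {n : ℕ} (v : ValX k n)
    (hres : v.ResidueFieldIs) (q : Ideal (MvPolynomial (Fin n) k)) (hq : q ≠ ⊥)
    (a : GradedSeq k n) (hcomp : v.Computes q a) :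
    ∃ f : Fin n → FF k n, (∀ i, f i ≠ 0) ∧ LinearIndependent ℚ fun i => v (f i) := by
  cases n with
  | zero => exact ⟨fun i => i.elim0, fun i => i.elim0, linearIndependent_empty_type⟩
  | succ N =>
    choose c hc using fun i => exists_centre v.toRVal v.nonneg' hres i
    have hA : ABd pd v.toRVal v.logDisc.toReal := fun f hf => v.le_toReal hcomp.2.1 f hf
    exact rank_of_ss hdesc N v.toRVal v.nonneg' hres v.logDisc.toReal hA (c (Fin.last N))
      (hc (Fin.last N)) (htop (N + 1) v c hc q hq a hcomp _ (X_sub_C_ne_zero _ _)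
        (totalDegree_X_sub_C _ _) (hc (Fin.last N)))

end Pool.Agent.JM69
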