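import Pool.Agent.Lib.JM69.Base
import Pool.Agent.Lib.JMF.Res

/-!
# Row RES2: translation, the lower bound, the degree (OWNER: helper22; the pieces are helper50's)
-/

set_option autoImplicit false

open Polynomial

namespace Pool.Agent.JM69

open Pool.Agent.H15JM

/-- ROW RES2. Translation invariance for formal degrees. -/
theorem res_taylor {R : Type} [CommRing R] (D : ℕ) (P Q : Polynomial R) (hPD : P.natDegree ≤ D)
    (hQD : Q.natDegree ≤ D) (z : R) :
    (P.taylor z).resultant (Q.taylor z) D D = P.resultant Q D D := by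
  have h1 : ∀ f g : R[X], f.natDegree ≤ D → g.natDegree ≤ D →
      resultant f g D D = (-1) ^ (D * (D - f.natDegree)) * g.coeff D ^ (D - f.natDegree)
        * (f.leadingCoeff ^ (D - g.natDegree) * resultant f g) := by
    intro f g hf hg
    have h := resultant_add_left_deg f g f.natDegree D (k := D - f.natDegree) le_rfl
    rw [Nat.add_sub_cancel' hf] at h
    rw [h]
    have h2 := resultant_add_right_deg f g f.natDegree g.natDegree (D - g.natDegree) le_rfl
    rw [Nat.add_sub_cancel' hg] at h2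
    rw [h2]
    rfl
  have h3 := resultant_taylor P Q z
  rw [h1 _ _ (by rwa [natDegree_taylor]) (by rwa [natDegree_taylor]), h1 P Q hPD hQD, h3,
    natDegree_taylor, natDegree_taylor, leadingCoeff_taylor]
  congr 2
  rcases hQD.lt_or_eq with h | h
  · rw [coeff_eq_zero_of_natDegree_lt (by rwa [natDegree_taylor]), coeff_eq_zero_of_natDegree_lt h]
  · have e1 := leadingCoeff_taylor (r := z) (f := Q)
    rw [leadingCoeff, leadingCoeff, natDegree_taylor, h] at e1
    rw [e1]

variable {Ω : Type} [Field Ω] (W : RVal Ω)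

/-- ROW RES3. The lower bound. -/
theorem res_lower (D : ℕ) (P Q : Polynomial Ω) (l s : ℝ) (hs : 0 < s)
    (hDs : l ≤ 2 * D * s) (hl : 0 ≤ l)
    (hP0 : ∀ j, W.Ge 0 (P.coeff j)) (hQ0 : ∀ j, W.Ge 0 (Q.coeff j))
    (hP : ∀ j : ℕ, W.Ge (l - j * s) (P.coeff j)) (hQ : ∀ j : ℕ, W.Ge (l - j * s) (Q.coeff j)) :
    W.Ge (l ^ 2 / (2 * s)) (P.resultant Q D D) := by
  have hD : l / s ≤ (D + D : ℕ) := by
    rw [div_le_iff₀ hs]
    push_cast
    linarith
  refine (JMF.ge_resultant W P Q D (fun j => max 0 (l - j * s)) ?_ ?_ ?_).mono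
    (JMF.sum_max_ge l s hs hl _ hD)
  · intro i j hij
    refine max_le_max le_rfl ?_
    have : (i : ℝ) ≤ j := by exact_mod_cast hij
    nlinarith
  · intro j h0
    exact max_le (hP0 j h0) (hP j h0)
  · intro j h0
    exact max_le (hQ0 j h0) (hQ j h0)

variable {k : Type} [Field k]

/-- ROW RES4. The total degree of the resultant. -/
theorem Rs_totalDegree {m : ℕ} (D E : ℕ) (f g : MvPolynomial (Fin (m + 1)) k)
    (hf : f.totalDegree ≤ E) (hg : g.totalDegree ≤ E) : (Rs D f g).totalDegree ≤ 2 * D * E := by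
  have h0 : ∀ h : MvPolynomial (Fin (m + 1)) k, h.totalDegree ≤ E → ∀ j,
      ((MvPolynomial.finSuccEquiv k m h).coeff j).totalDegree ≤ E := by
    intro h hh j
    by_cases hj : (MvPolynomial.finSuccEquiv k m h).coeff j = 0
    · rw [hj, MvPolynomial.totalDegree_zero]
      exact Nat.zero_le _
    · have := MvPolynomial.totalDegree_coeff_finSuccEquiv_add_le h j hj
      omega
  have h1 := JMF.totalDegree_resultant_le (MvPolynomial.finSuccEquiv k m f)
    (MvPolynomial.finSuccEquiv k m g) D E (h0 f hf) (h0 g hg)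
  rw [Rs]
  calc _ ≤ (D + D) * E := h1
    _ = 2 * D * E := by ring

end Pool.Agent.JM69
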