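import Pool.Agent.Lib.JM69.Base
import Pool.Agent.Lib.JMF.Thick

/-!
# Row TAY: `zpoly`, Hasse derivatives and Taylor coefficients (OWNER: helper91)
-/

set_option autoImplicit false

open MvPolynomial

namespace Pool.Agent.JM69

open Pool.Agent.H15JM

variable {k : Type} [Field k] {m : ℕ}

/-- The divided powers of `∂/∂X_0` on polynomials. -/
noncomputable def hsd (j : ℕ) (p : MvPolynomial (Fin (m + 1)) k) : MvPolynomial (Fin (m + 1)) k :=
  C ((j.factorial : k)⁻¹) * (pderiv 0)^[j] p

theorem toFF_hsd (j : ℕ) (p : MvPolynomial (Fin (m + 1)) k) :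
    toFF (hsd j p) = dd (pd 0) j (toFF p) := by
  rw [dd_toFF_eq]
  rfl

/-- The total degree of a partial derivative. -/
theorem totalDegree_pderiv_le' {n : ℕ} (i : Fin n) (p : MvPolynomial (Fin n) k) :
    (pderiv i p).totalDegree ≤ p.totalDegree := by
  rw [MvPolynomial.totalDegree]
  refine Finset.sup_le fun s hs => ?_
  have h1 := MvPolynomial.mem_support_iff.mp hs
  rw [MvPolynomial.coeff_pderiv] at h1
  have h2 := MvPolynomial.mem_support_iff.mpr (left_ne_zero_of_mul h1)
  have h3 := MvPolynomial.le_totalDegree h2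
  rw [Finsupp.sum_add_index' (by simp) (by simp), Finsupp.sum_single_index rfl] at h3
  exact (Nat.le_succ _).trans h3

theorem hsd_totalDegree (j : ℕ) (p : MvPolynomial (Fin (m + 1)) k) :
    (hsd j p).totalDegree ≤ p.totalDegree := by
  rw [hsd]
  refine (totalDegree_mul _ _).trans ?_
  rw [totalDegree_C, zero_add]
  induction j with
  | zero => exact le_rfl
  | succ j ih =>
    rw [Function.iterate_succ_apply']
    exact (totalDegree_pderiv_le' 0 _).trans ih

/-- The partial derivative with respect to `X_0` is the derivative of the polynomial in `X_0`. -/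
theorem finSuccEquiv_pderiv_zero (p : MvPolynomial (Fin (m + 1)) k) :
    finSuccEquiv k m (pderiv 0 p) = Polynomial.derivative (finSuccEquiv k m p) := by
  induction p using MvPolynomial.induction_on with
  | C a =>
    have h : finSuccEquiv k m (C a) = Polynomial.C (C a) := by
      rw [finSuccEquiv_apply]
      simp
    rw [pderiv_C, _root_.map_zero, h, Polynomial.derivative_C]
  | add p q hp hq => rw [_root_.map_add, _root_.map_add, hp, hq, _root_.map_add, Polynomial.derivative_add]
  | mul_X p i hp =>
    rw [Derivation.leibniz, _root_.map_add, smul_eq_mul, smul_eq_mul, _root_.map_mul,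
      _root_.map_mul, _root_.map_mul, hp, Polynomial.derivative_mul]
    refine Fin.cases ?_ (fun i => ?_) i
    · rw [pderiv_X_self, _root_.map_one, finSuccEquiv_X_zero, Polynomial.derivative_X]
      ring
    · rw [pderiv_X_of_ne (Fin.succ_ne_zero i), _root_.map_zero, finSuccEquiv_X_succ,
        Polynomial.derivative_C]
      ring

theorem finSuccEquiv_pderiv_iter (j : ℕ) (p : MvPolynomial (Fin (m + 1)) k) :
    finSuccEquiv k m ((pderiv 0)^[j] p) = Polynomial.derivative^[j] (finSuccEquiv k m p) := by
  induction j with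
  | zero => rfl
  | succ j ih =>
    rw [Function.iterate_succ_apply', Function.iterate_succ_apply', finSuccEquiv_pderiv_zero, ih]

theorem finSuccEquiv_C' (c : k) : finSuccEquiv k m (C c) = Polynomial.C (C c) := by
  rw [finSuccEquiv_apply]
  simp

theorem finSuccEquiv_hsd (j : ℕ) (p : MvPolynomial (Fin (m + 1)) k) :
    finSuccEquiv k m (hsd j p)
      = Polynomial.C (C ((j.factorial : k)⁻¹)) * Polynomial.derivative^[j] (finSuccEquiv k m p) := by
  rw [hsd, _root_.map_mul, finSuccEquiv_C', finSuccEquiv_pderiv_iter]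

theorem hsd_natDegree (j : ℕ) (p : MvPolynomial (Fin (m + 1)) k) :
    (finSuccEquiv k m (hsd j p)).natDegree ≤ (finSuccEquiv k m p).natDegree := by
  rw [finSuccEquiv_hsd]
  refine (Polynomial.natDegree_C_mul_le _ _).trans ?_
  exact (Polynomial.natDegree_iterate_derivative _ _).trans (Nat.sub_le _ _)

@[simp] theorem hsd_zero_left (p : MvPolynomial (Fin (m + 1)) k) : hsd 0 p = p := by
  simp [hsd]

theorem pderiv_iter_add (j : ℕ) (p q : MvPolynomial (Fin (m + 1)) k) :
    (pderiv 0)^[j] (p + q) = (pderiv 0)^[j] p + (pderiv 0)^[j] q := by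
  induction j with
  | zero => rfl
  | succ j ih =>
    rw [Function.iterate_succ_apply', Function.iterate_succ_apply', Function.iterate_succ_apply',
      ih, _root_.map_add]

theorem hsd_add (j : ℕ) (p q : MvPolynomial (Fin (m + 1)) k) :
    hsd j (p + q) = hsd j p + hsd j q := by
  rw [hsd, hsd, hsd, pderiv_iter_add, mul_add]

section
variable {Ω : Type} [Field Ω] (φ : FF k m →+* Ω)

theorem zpoly_add (p q : MvPolynomial (Fin (m + 1)) k) :
    zpoly φ (p + q) = zpoly φ p + zpoly φ q := by
  rw [zpoly, zpoly, zpoly, _root_.map_add, Polynomial.map_add]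

theorem zpoly_mul (p q : MvPolynomial (Fin (m + 1)) k) :
    zpoly φ (p * q) = zpoly φ p * zpoly φ q := by
  rw [zpoly, zpoly, zpoly, _root_.map_mul, Polynomial.map_mul]

theorem zpoly_X0 : zpoly φ (X 0) = Polynomial.X := by
  rw [zpoly, finSuccEquiv_X_zero, Polynomial.map_X]

theorem zpoly_rename (p : MvPolynomial (Fin m) k) :
    zpoly φ (rename Fin.succ p) = Polynomial.C (φ (toFF p)) := by
  have h : finSuccEquiv k m (rename Fin.succ p) = Polynomial.C p := JMF.embP_eq p
  rw [zpoly, h, Polynomial.map_C]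
  rfl

theorem zpoly_C (c : k) : zpoly φ (C c) = Polynomial.C (φ (algebraMap k (FF k m) c)) := by
  rw [zpoly, finSuccEquiv_C', Polynomial.map_C]
  congr 2

theorem zpoly_zero : zpoly φ (0 : MvPolynomial (Fin (m + 1)) k) = 0 := by
  rw [zpoly, _root_.map_zero, Polynomial.map_zero]

theorem zpoly_one : zpoly φ (1 : MvPolynomial (Fin (m + 1)) k) = 1 := by
  rw [zpoly, _root_.map_one, Polynomial.map_one]

theorem zpoly_pow (p : MvPolynomial (Fin (m + 1)) k) (j : ℕ) :
    zpoly φ (p ^ j) = zpoly φ p ^ j := by
  rw [zpoly, zpoly, _root_.map_pow, Polynomial.map_pow]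

theorem zpoly_sum {ι : Type*} (s : Finset ι) (f : ι → MvPolynomial (Fin (m + 1)) k) :
    zpoly φ (∑ i ∈ s, f i) = ∑ i ∈ s, zpoly φ (f i) := by
  classical
  induction s using Finset.induction_on with
  | empty => rw [Finset.sum_empty, Finset.sum_empty, zpoly_zero]
  | insert a s ha ih => rw [Finset.sum_insert ha, Finset.sum_insert ha, zpoly_add, ih]

theorem comp_toFF_injective :
    Function.Injective (φ.comp (toFF (k := k) (n := m)).toRingHom) := by
  rw [RingHom.coe_comp]
  exact φ.injective.comp toFF_injective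

theorem zpoly_injective : Function.Injective (zpoly φ) := by
  intro p q h
  apply (finSuccEquiv k m).injective
  exact Polynomial.map_injective _ (comp_toFF_injective φ) h

theorem zpoly_ne_zero {p : MvPolynomial (Fin (m + 1)) k} (hp : p ≠ 0) : zpoly φ p ≠ 0 := by
  intro h
  exact hp (zpoly_injective φ (by rw [h, zpoly_zero]))

theorem zpoly_natDegree (p : MvPolynomial (Fin (m + 1)) k) :
    (zpoly φ p).natDegree = (finSuccEquiv k m p).natDegree := by
  rw [zpoly]
  exact Polynomial.natDegree_map_eq_of_injective (comp_toFF_injective φ) _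

theorem zpoly_coeff (p : MvPolynomial (Fin (m + 1)) k) (j : ℕ) :
    (zpoly φ p).coeff j = φ (toFF ((finSuccEquiv k m p).coeff j)) := by
  rw [zpoly, Polynomial.coeff_map]
  rfl

theorem zpoly_hsd [CharZero k] (j : ℕ) (p : MvPolynomial (Fin (m + 1)) k) :
    zpoly φ (hsd j p) = Polynomial.hasseDeriv j (zpoly φ p) := by
  have hFF : CharZero (FF k m) :=
    charZero_of_injective_algebraMap (algebraMap k (FF k m)).injective
  have hΩ : CharZero Ω := charZero_of_injective_ringHom φ.injective
  have h1 := congrFun (Polynomial.factorial_smul_hasseDeriv (R := Ω) j) (zpoly φ p)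
  have h2 : zpoly φ ((pderiv 0)^[j] p) = Polynomial.derivative^[j] (zpoly φ p) := by
    rw [zpoly, zpoly, finSuccEquiv_pderiv_iter, Polynomial.iterate_derivative_map]
  have h3 : (j.factorial : Ω) ≠ 0 := by exact_mod_cast Nat.factorial_ne_zero j
  rw [hsd, zpoly_mul, zpoly_C, h2, ← h1, map_inv₀, map_inv₀, map_natCast, map_natCast]
  rw [LinearMap.smul_apply, ← Nat.cast_smul_eq_nsmul Ω, ← Polynomial.smul_eq_C_mul, smul_smul,
    inv_mul_cancel₀ h3, one_smul]

/-- The coefficient of the Taylor expansion at `ζ` is the value of the Hasse derivative. -/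
theorem taylor_coeff_eq [CharZero k] (j : ℕ) (p : MvPolynomial (Fin (m + 1)) k) (ζ : Ω) :
    ((zpoly φ p).taylor ζ).coeff j = (zpoly φ (hsd j p)).eval ζ := by
  rw [Polynomial.taylor_coeff, zpoly_hsd]

theorem Rs_map (D : ℕ) (f g : MvPolynomial (Fin (m + 1)) k) :
    φ (toFF (Rs D f g)) = (zpoly φ f).resultant (zpoly φ g) D D := by
  rw [zpoly, zpoly, Polynomial.resultant_map_map]
  rfl

end

/-- At the tautological point. -/
theorem zpoly_eval (p : MvPolynomial (Fin (m + 1)) k) :
    (zpoly (emb k m).toRingHom p).eval (toFF (X 0)) = toFF p := by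
  induction p using MvPolynomial.induction_on with
  | C a =>
    rw [zpoly_C, Polynomial.eval_C]
    have h1 : (emb k m).toRingHom (algebraMap k (FF k m) a) = algebraMap k (FF k (m + 1)) a :=
      (emb k m).commutes a
    rw [h1, ← MvPolynomial.algebraMap_eq, AlgHom.commutes]
  | add p q hp hq => rw [zpoly_add, Polynomial.eval_add, hp, hq, _root_.map_add]
  | mul_X p i hp =>
    rw [zpoly_mul, Polynomial.eval_mul, hp, _root_.map_mul]
    congr 1
    refine Fin.cases ?_ (fun i => ?_) i
    · rw [zpoly_X0, Polynomial.eval_X]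
    · have h : (X i.succ : MvPolynomial (Fin (m + 1)) k) = rename Fin.succ (X i) := (rename_X _ _).symm
      rw [h, zpoly_rename, Polynomial.eval_C]
      exact emb_toFF (X i)

theorem zpoly_comp {Ω Ω' : Type} [Field Ω] [Field Ω'] (φ : FF k m →+* Ω) (ψ : Ω →+* Ω')
    (p : MvPolynomial (Fin (m + 1)) k) : zpoly (ψ.comp φ) p = (zpoly φ p).map ψ := by
  rw [zpoly, zpoly, Polynomial.map_map]
  rfl

/-- At the tautological point, over an extension of the field. -/
theorem zpoly_eval_comp {Ω : Type} [Field Ω] (ψ : FF k (m + 1) →+* Ω)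
    (p : MvPolynomial (Fin (m + 1)) k) :
    (zpoly (ψ.comp (emb k m).toRingHom) p).eval (ψ (toFF (X 0))) = ψ (toFF p) := by
  rw [zpoly_comp, Polynomial.eval_map_apply, zpoly_eval]

/-- The Taylor coefficients at the tautological point. -/
theorem taylor_coeff_taut [CharZero k] {Ω : Type} [Field Ω] (ψ : FF k (m + 1) →+* Ω) (j : ℕ)
    (p : MvPolynomial (Fin (m + 1)) k) :
    ((zpoly (ψ.comp (emb k m).toRingHom) p).taylor (ψ (toFF (X 0)))).coeff j
      = ψ (toFF (hsd j p)) := by
  rw [taylor_coeff_eq, zpoly_eval_comp]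

/-- The degree of the polynomial in `X_0` is at most the total degree. -/
theorem finSuccEquiv_natDegree_le (p : MvPolynomial (Fin (m + 1)) k) :
    (finSuccEquiv k m p).natDegree ≤ p.totalDegree := by
  rw [natDegree_finSuccEquiv]
  exact degreeOf_le_totalDegree p 0

end Pool.Agent.JM69
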