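import Pool.Agent.Lib.JM69.Base
import Pool.Agent.Lib.JMF.Thick

/-!
# Row THICK1: the thickenings of `v` in the direction `X_0` (OWNER: helper15)
-/

set_option autoImplicit false

open MvPolynomial

namespace Pool.Agent.JM69

open Pool.Agent.H15JM

variable {k : Type} [Field k] [CharZero k]

/-- ROW THICK1. -/
theorem exists_thick {m : ℕ} (v : RVal (FF k (m + 1)))
    (hv0 : ∀ p : MvPolynomial (Fin (m + 1)) k, p ≠ 0 → 0 ≤ v (toFF p)) (A : ℝ)
    (hA : ABd pd v A) (s : ℝ)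
    (hs : ∀ ε > 0, ∃ g, pd 0 g ≠ 0 ∧ s - ε ≤ v g - v (pd 0 g))
    (b : ℝ) (hb : b < s) :
    ∃ V : RVal (FF k (m + 1)), ABd pd V (A - b) ∧
      ∀ p : MvPolynomial (Fin (m + 1)) k, p ≠ 0 →
        ∃ Q, IsG v (pd 0) (s - b) (toFF p) (V (toFF p)) Q := by
  obtain ⟨V, -, -, -, h3, h4⟩ := exists_thick0 v hv0 A hA 0 s hs b hb
  exact ⟨V, h3, h4⟩

/-- The thickening is nonnegative on the polynomials, is at most `v` there, has the values of `v`
at the polynomials in the other variables, and `v p - V p ≤ Q b`. -/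
theorem thick_props {m : ℕ} (v : RVal (FF k (m + 1)))
    (hv0 : ∀ p : MvPolynomial (Fin (m + 1)) k, p ≠ 0 → 0 ≤ v (toFF p)) (s b : ℝ) (hb : b < s)
    (V : RVal (FF k (m + 1)))
    (hV : ∀ p : MvPolynomial (Fin (m + 1)) k, p ≠ 0 →
      ∃ Q, IsG v (pd 0) (s - b) (toFF p) (V (toFF p)) Q) :
    (∀ p : MvPolynomial (Fin (m + 1)) k, p ≠ 0 → 0 ≤ V (toFF p)) ∧
    (∀ p : MvPolynomial (Fin (m + 1)) k, p ≠ 0 → V (toFF p) ≤ v (toFF p)) ∧
    (∀ p : MvPolynomial (Fin m) k, p ≠ 0 → V (toFF (rename Fin.succ p))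
      = v (toFF (rename Fin.succ p))) ∧
    ∀ p : MvPolynomial (Fin (m + 1)) k, p ≠ 0 → ∀ Q : ℕ,
      IsG v (pd 0) (s - b) (toFF p) (V (toFF p)) Q →
      (∀ g, pd 0 g ≠ 0 → v g - v (pd 0 g) ≤ s) → v (toFF p) - V (toFF p) ≤ Q * b := by
  have : CharZero (FF k (m + 1)) :=
    charZero_of_injective_algebraMap (algebraMap k (FF k (m + 1))).injective
  refine ⟨fun p hp => ?_, fun p hp => ?_, fun p hp => ?_, fun p hp Q hQ hs => ?_⟩
  · obtain ⟨Q, hQ⟩ := hV p hp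
    rw [← hQ.2.1]
    obtain ⟨q, hq⟩ := dd_toFF 0 Q p
    have h1 : dd (pd 0) Q (toFF p) ≠ 0 := hQ.1
    rw [hq] at h1 ⊢
    have h2 : q ≠ 0 := by
      rintro rfl
      exact h1 (_root_.map_zero _)
    have h3 := hv0 q h2
    have h4 : 0 ≤ (Q : ℝ) * (s - b) := mul_nonneg (Nat.cast_nonneg _) (by linarith)
    linarith
  · obtain ⟨Q, hQ⟩ := hV p hp
    exact hQ.le
  · have hp' : rename (R := k) Fin.succ p ≠ 0 := fun h =>
      hp (rename_succ_injective (by rw [h, _root_.map_zero]))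
    obtain ⟨Q, hQ⟩ := hV _ hp'
    have h1 : IsG v (pd 0) (s - b) (toFF (rename Fin.succ p)) (v (toFF (rename Fin.succ p))) 0 :=
      isG_of_D_eq_zero (toFF_ne_zero hp') (by rw [pd_toFF, pderiv_zero_rename, _root_.map_zero])
    exact (hQ.unique h1).1
  · have h1 := ge_dd v (natCast_val v hv0) (pd 0) s hs (toFF p) Q hQ.1
    have h2 := hQ.2.1
    linarith

end Pool.Agent.JM69
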