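import Pool.Agent.Lib.JM69.Base

/-!
# Row THICK2: the restriction of `v` to the other variables loses `s`
-/

set_option autoImplicit false

open MvPolynomial

namespace Pool.Agent.JM69

open Pool.Agent.H15JM

variable {k : Type} [Field k] [CharZero k]

/-- The block triangular Jacobian of the tuple `(g, f_1, .., f_m)`. -/
theorem jac_cons {m : ℕ} (g : FF k (m + 1)) (f : Fin m → FF k m) :
    jacD pd (Fin.cons g (fun i => emb k m (f i)) : Fin (m + 1) → FF k (m + 1)) =
      pd 0 g * emb k m (jacD pd f) := by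
  rw [jacD, Matrix.det_succ_row_zero, Finset.sum_eq_single 0]
  · have h : (Matrix.submatrix (Matrix.of fun j i => pd j
        ((Fin.cons g (fun i => emb k m (f i)) : Fin (m + 1) → FF k (m + 1)) i)) Fin.succ
        (Fin.succAbove 0)) = (Matrix.of fun j i => pd j (f i)).map (emb k m) := by
      ext j i
      simp [pd_succ_emb]
    rw [h]
    simp only [Matrix.of_apply, Fin.cons_zero, Fin.val_zero, pow_zero, one_mul, jacD]
    congr 1
    exact ((emb k m).toRingHom.map_det _).symm
  · intro i _ hi
    obtain ⟨j, rfl⟩ := Fin.exists_succ_eq.mpr hi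
    simp [pd_zero_emb]
  · intro h
    exact absurd (Finset.mem_univ _) h

/-- ROW THICK2. The restriction to the other variables loses `s`. -/
theorem abd_restrict {m : ℕ} (v : RVal (FF k (m + 1))) (A : ℝ) (hA : ABd pd v A) (s : ℝ)
    (hs : ∀ ε > 0, ∃ g, pd 0 g ≠ 0 ∧ s - ε ≤ v g - v (pd 0 g)) :
    ABd pd (comap v (emb k m).toRingHom) (A - s) := by
  intro f hf
  refine le_of_forall_pos_le_add fun ε hε => ?_
  obtain ⟨g, hg, hgs⟩ := hs ε hε
  have hj : emb k m (jacD pd f) ≠ 0 := (map_ne_zero _).mpr hf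
  have h := hA (Fin.cons g (fun i => emb k m (f i))) (by
    rw [jac_cons]
    exact mul_ne_zero hg hj)
  rw [jac_cons, v.map_mul hg hj, Fin.sum_univ_succ] at h
  simp only [Fin.cons_zero, Fin.cons_succ] at h
  have e : ∑ i, (comap v (emb k m).toRingHom) (f i) = ∑ i, v (emb k m (f i)) := rfl
  have e2 : (comap v (emb k m).toRingHom) (jacD pd f) = v (emb k m (jacD pd f)) := rfl
  rw [e, e2]
  linarith

end Pool.Agent.JM69
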