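import Pool.Agent.Lib.JM69.Base

/-!
# Row TRUNC of the tank JM: truncation of polynomials at the centre of a valuation
(OWNER: helper62)
-/

set_option autoImplicit false

open MvPolynomial

namespace Pool.Agent.JM69

open Pool.Agent.H15JM

variable {k : Type} [Field k] {n : ℕ}

namespace T62

/-- The expansion of a polynomial in powers of `X i - b i`. -/
theorem exists_expand (b : Fin n → k) (f : MvPolynomial (Fin n) k) :
    ∃ F : MvPolynomial (Fin n) k,
      f = ∑ d ∈ F.support, C (coeff d F) * ∏ i, (X i - C (b i)) ^ d i := by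
  refine ⟨aeval (fun i => X i + C (b i)) f, ?_⟩
  have h : aeval (fun i => X i - C (b i)) (aeval (fun i => X i + C (b i)) f) = f := by
    rw [← AlgHom.comp_apply]
    have : (aeval (fun i => X i - C (b i)) :
        MvPolynomial (Fin n) k →ₐ[k] MvPolynomial (Fin n) k).comp
        (aeval (fun i => X i + C (b i))) = AlgHom.id k _ := by
      apply MvPolynomial.algHom_ext
      intro i
      simp
    rw [this]
    rfl
  conv_lhs => rw [← h]
  rw [MvPolynomial.aeval_def, MvPolynomial.eval₂_eq']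
  rfl

theorem X_sub_C_ne_zero (i : Fin n) (a : k) : (X i - C a : MvPolynomial (Fin n) k) ≠ 0 := by
  intro h
  have h1 := congrArg (MvPolynomial.coeff (Finsupp.single i 1)) h
  rw [coeff_sub, coeff_X, if_pos rfl, coeff_C, if_neg, sub_zero, coeff_zero] at h1
  · exact one_ne_zero h1
  · intro h2
    have := congrArg (fun s => s i) h2
    simp at this

theorem totalDegree_X_sub_C (i : Fin n) (a : k) :
    (X i - C a : MvPolynomial (Fin n) k).totalDegree ≤ 1 := by
  refine (totalDegree_sub _ _).trans ?_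
  rw [totalDegree_X, totalDegree_C]
  simp

theorem val_const {u : RVal (FF k n)} (hu : ∀ p : MvPolynomial (Fin n) k, p ≠ 0 → 0 ≤ u (toFF p))
    (c : k) (hc : c ≠ 0) : u (toFF (C c)) = 0 := by
  have h1 := hu (C c) (by simpa using hc)
  have h2 := hu (C c⁻¹) (by simpa using inv_ne_zero hc)
  have h3 : toFF (C c : MvPolynomial (Fin n) k) * toFF (C c⁻¹) = 1 := by
    rw [← _root_.map_mul, ← _root_.map_mul, mul_inv_cancel₀ hc, _root_.map_one, _root_.map_one]
  have h4 := u.map_mul (toFF_ne_zero (p := C c) (by simpa using hc))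
    (toFF_ne_zero (p := (C c⁻¹ : MvPolynomial (Fin n) k)) (by simpa using inv_ne_zero hc))
  rw [h3, u.map_one] at h4
  linarith

theorem ge_monomial {u : RVal (FF k n)}
    (hu : ∀ p : MvPolynomial (Fin n) k, p ≠ 0 → 0 ≤ u (toFF p)) (b : Fin n → k) (m : ℝ)
    (hm0 : 0 ≤ m) (hm : ∀ i, m ≤ u (toFF (X i - C (b i)))) (E : ℕ) (a : k) (d : Fin n →₀ ℕ)
    (hd : E ≤ ∑ i, d i) :
    u.Ge (E * m) (toFF (C a * ∏ i, (X i - C (b i)) ^ d i)) := by
  intro h
  have ha : a ≠ 0 := by
    rintro rfl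
    apply h
    simp
  rw [_root_.map_mul] at h ⊢
  rw [u.map_mul (left_ne_zero_of_mul h) (right_ne_zero_of_mul h), val_const hu a ha, zero_add,
    _root_.map_prod, u.map_prod]
  · calc (E : ℝ) * m ≤ ((∑ i, d i : ℕ) : ℝ) * m :=
          mul_le_mul_of_nonneg_right (by exact_mod_cast hd) hm0
      _ = ∑ i, (d i : ℝ) * m := by push_cast; rw [Finset.sum_mul]
      _ ≤ _ := by
        refine Finset.sum_le_sum fun i _ => ?_
        rw [_root_.map_pow, u.map_pow (toFF_ne_zero (X_sub_C_ne_zero i (b i)))]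
        exact mul_le_mul_of_nonneg_left (hm i) (Nat.cast_nonneg _)
  · intro i _
    rw [_root_.map_pow]
    exact pow_ne_zero _ (toFF_ne_zero (X_sub_C_ne_zero i (b i)))

/-- Truncation: a polynomial can be replaced by one of degree at most `E`, without lowering the
`v`-value below `c` and without raising the `w`-value. -/
theorem exists_trunc (v w : RVal (FF k n))
    (hv : ∀ p : MvPolynomial (Fin n) k, p ≠ 0 → 0 ≤ v (toFF p))
    (hw : ∀ p : MvPolynomial (Fin n) k, p ≠ 0 → 0 ≤ w (toFF p)) (b : Fin n → k) (i0 : Fin n)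
    (c0 : ℝ) (hc00 : 0 ≤ c0) (hc0 : ∀ i, c0 ≤ v (toFF (X i - C (b i)))) (E : ℕ)
    (f : MvPolynomial (Fin n) k) (hf : f ≠ 0) (c : ℝ) (hcf : c ≤ v (toFF f)) (hcE : c ≤ E * c0) :
    ∃ g : MvPolynomial (Fin n) k, g ≠ 0 ∧ g.totalDegree ≤ E ∧ c ≤ v (toFF g) ∧
      w (toFF g) ≤ w (toFF f) := by
  classical
  obtain ⟨i1, -, hi1⟩ := Finset.exists_min_image Finset.univ
    (fun i : Fin n => w (toFF (X i - C (b i)))) ⟨i0, Finset.mem_univ _⟩
  obtain ⟨F, hF⟩ := exists_expand b f
  set m : ℝ := w (toFF (X i1 - C (b i1))) with hm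
  have hm0 : 0 ≤ m := hw _ (X_sub_C_ne_zero i1 (b i1))
  set T : (Fin n →₀ ℕ) → MvPolynomial (Fin n) k :=
    fun d => C (coeff d F) * ∏ i, (X i - C (b i)) ^ d i with hT
  set low : MvPolynomial (Fin n) k := ∑ d ∈ F.support.filter (fun d => ∑ i, d i < E), T d with hlow
  set high : MvPolynomial (Fin n) k :=
    ∑ d ∈ F.support.filter (fun d => ¬ ∑ i, d i < E), T d with hhigh
  have hsum : f = low + high := by
    rw [hlow, hhigh, Finset.sum_filter_add_sum_filter_not]
    exact hF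
  have hvh : v.Ge (E * c0) (toFF high) := by
    rw [hhigh, _root_.map_sum]
    refine RVal.Ge.sum _ _ fun d hd => ?_
    rw [Finset.mem_filter, not_lt] at hd
    exact ge_monomial hv b c0 hc00 hc0 E _ d hd.2
  have hwh : w.Ge (E * m) (toFF high) := by
    rw [hhigh, _root_.map_sum]
    refine RVal.Ge.sum _ _ fun d hd => ?_
    rw [Finset.mem_filter, not_lt] at hd
    exact ge_monomial hw b m hm0 (fun i => hi1 i (Finset.mem_univ i)) E _ d hd.2
  have hvl : v.Ge c (toFF low) := by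
    have h1 : toFF low = toFF f - toFF high := by rw [hsum, _root_.map_add]; ring
    rw [h1]
    exact RVal.Ge.sub (fun _ => hcf) (hvh.mono hcE)
  have hdl : low.totalDegree ≤ E := by
    rw [hlow]
    refine MvPolynomial.totalDegree_finsetSum_le fun d hd => ?_
    rw [Finset.mem_filter] at hd
    rw [hT]
    refine (totalDegree_mul _ _).trans ?_
    rw [totalDegree_C, zero_add]
    refine (totalDegree_finsetProd _ _).trans ?_
    refine le_trans (Finset.sum_le_sum fun i _ => ?_) hd.2.le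
    refine (totalDegree_pow _ _).trans ?_
    calc d i * (X i - C (b i) : MvPolynomial (Fin n) k).totalDegree ≤ d i * 1 :=
          Nat.mul_le_mul_left _ (totalDegree_X_sub_C i (b i))
      _ = d i := mul_one _
  by_cases hA : low ≠ 0 ∧ w (toFF low) ≤ w (toFF f)
  · exact ⟨low, hA.1, hdl, hvl (toFF_ne_zero hA.1), hA.2⟩
  · refine ⟨(X i1 - C (b i1)) ^ E, pow_ne_zero _ (X_sub_C_ne_zero i1 (b i1)), ?_, ?_, ?_⟩
    · refine (totalDegree_pow _ _).trans ?_
      calc E * (X i1 - C (b i1) : MvPolynomial (Fin n) k).totalDegree ≤ E * 1 :=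
            Nat.mul_le_mul_left _ (totalDegree_X_sub_C i1 (b i1))
        _ = E := mul_one _
    · rw [_root_.map_pow, v.map_pow (toFF_ne_zero (X_sub_C_ne_zero i1 (b i1)))]
      exact hcE.trans (mul_le_mul_of_nonneg_left (hc0 i1) (Nat.cast_nonneg _))
    · rw [_root_.map_pow, w.map_pow (toFF_ne_zero (X_sub_C_ne_zero i1 (b i1)))]
      by_cases h0 : low = 0
      · rw [h0, zero_add] at hsum
        rw [hsum]
        exact hwh (by rw [← hsum]; exact toFF_ne_zero hf)
      · have h1 : w (toFF f) < w (toFF low) := by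
          by_contra h2
          exact hA ⟨h0, not_lt.mp h2⟩
        have h2 : toFF high = toFF f + -toFF low := by rw [hsum, _root_.map_add]; ring
        have h3 := w.add_of_lt (toFF_ne_zero hf) (neg_ne_zero.mpr (toFF_ne_zero h0))
          (by rw [w.map_neg _ (toFF_ne_zero h0)]; exact h1)
        rw [← h2] at h3
        rw [← h3.2]
        exact hwh h3.1

end T62

/-- ROW TRUNC. Truncation of the degree: `c` is the centre of `v`. -/
theorem truncate (v w : RVal (FF k n))
    (hv0 : ∀ p : MvPolynomial (Fin n) k, p ≠ 0 → 0 ≤ v (toFF p))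
    (hw0 : ∀ p : MvPolynomial (Fin n) k, p ≠ 0 → 0 ≤ w (toFF p))
    (c : Fin n → k) (c₀ : ℝ) (hc₀ : 0 < c₀) (hc : ∀ i, c₀ ≤ v (toFF (X i - C (c i))))
    (t : ℝ) (ht : 0 ≤ t) (f : MvPolynomial (Fin n) k) (hf : f ≠ 0) (hft : t ≤ v (toFF f)) :
    ∃ f' : MvPolynomial (Fin n) k, f' ≠ 0 ∧ t ≤ v (toFF f') ∧
      (f'.totalDegree : ℝ) ≤ t / c₀ + 1 ∧ w (toFF f') ≤ w (toFF f) := by
  have h0 : 0 ≤ t / c₀ := div_nonneg ht hc₀.le
  rcases Nat.eq_zero_or_pos n with hn | hn
  · subst hn
    refine ⟨f, hf, hft, ?_, le_rfl⟩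
    have : f.totalDegree = 0 := by
      rw [MvPolynomial.totalDegree_eq_zero_iff]
      intro m _ x
      exact Fin.elim0 x
    rw [this, Nat.cast_zero]
    linarith
  · have hE1 : (t / c₀ : ℝ) ≤ ⌈t / c₀⌉₊ := Nat.le_ceil _
    have hE2 : (⌈t / c₀⌉₊ : ℝ) < t / c₀ + 1 := Nat.ceil_lt_add_one h0
    obtain ⟨g, hg, hgE, hvg, hwg⟩ := T62.exists_trunc v w hv0 hw0 c ⟨0, hn⟩ c₀ hc₀.le hc ⌈t / c₀⌉₊
      f hf t hft (by rw [div_le_iff₀ hc₀] at hE1; exact hE1)
    refine ⟨g, hg, hvg, ?_, hwg⟩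
    have h1 : (g.totalDegree : ℝ) ≤ ⌈t / c₀⌉₊ := by exact_mod_cast hgE
    linarith

end Pool.Agent.JM69
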