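import Pool.Agent.Lib.JM69.Base

/-!
# Row VOL, core: logarithmic frames survive the passage to the algebraic closure of the completion
(OWNER: helper46)
-/

set_option autoImplicit false

open MvPolynomial

namespace Pool.Agent.JM69

open Pool.Agent.H15JM

variable {k : Type} [Field k]

/-- A logarithmic frame for the derivations `D'`: `D' = c · E` with `E` almost contractive and
`W(det c) ≥ -A`. -/
def Frame {Ω : Type} [Field Ω] [Algebra k Ω] {m : ℕ} (D' : Fin m → Derivation k Ω Ω)
    (W : RVal Ω) (A : ℝ) : Prop :=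
  ∀ ε > 0, ∃ (E : Fin m → Derivation k Ω Ω) (c : Matrix (Fin m) (Fin m) Ω), c.det ≠ 0 ∧
    -A ≤ W c.det ∧ (∀ j g, D' j g = ∑ l, c j l * E l g) ∧
    ∀ l g, E l g ≠ 0 → W g - W (E l g) ≤ ε

/-- A tuple whose defect is almost maximal. -/
theorem exists_near_sup {F : Type} [Field F] [Algebra k F] {m : ℕ} (w : RVal F)
    (D : Fin m → Derivation k F F) (A : ℝ) (hA : ABd D w A) (t : Fin m → F)
    (ht : jacD D t ≠ 0) (ε : ℝ) (hε : 0 < ε) :
    ∃ f : Fin m → F, jacD D f ≠ 0 ∧ ∀ h : Fin m → F, jacD D h ≠ 0 →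
      ∑ i, w (h i) - w (jacD D h) < ∑ i, w (f i) - w (jacD D f) + ε := by
  set S : Set ℝ := {x | ∃ f : Fin m → F, jacD D f ≠ 0 ∧ x = ∑ i, w (f i) - w (jacD D f)} with hS
  have hbdd : BddAbove S := ⟨A, by rintro x ⟨f, hf, rfl⟩; exact hA f hf⟩
  have hne : S.Nonempty := ⟨_, t, ht, rfl⟩
  obtain ⟨x, ⟨f, hf, rfl⟩, hx⟩ := exists_lt_of_lt_csSup hne (show sSup S - ε < sSup S by linarith)
  refine ⟨f, hf, fun h hh => ?_⟩
  have := le_csSup hbdd (show ∑ i, w (h i) - w (jacD D h) ∈ S from ⟨h, hh, rfl⟩)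
  linarith

/-- A tuple with nonzero Jacobian has nonzero entries. -/
theorem ne_zero_of_jacD {F : Type} [Field F] [Algebra k F] {m : ℕ} (D : Fin m → Derivation k F F)
    (f : Fin m → F) (hf : jacD D f ≠ 0) (i : Fin m) : f i ≠ 0 := by
  intro h0
  apply hf
  rw [jacD]
  apply Matrix.det_eq_zero_of_column_eq_zero i
  intro j
  rw [Matrix.of_apply, h0, _root_.map_zero]

/-- Cramer's rule. -/
theorem inv_mul_sum {F : Type} [Field F] [Algebra k F] {m : ℕ} (D : Fin m → Derivation k F F)
    (f : Fin m → F) (l : Fin m) (g : F) :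
    ∑ j, (Matrix.of fun j i => D j (f i))⁻¹ l j * D j g
      = (jacD D f)⁻¹ * jacD D (Function.update f l g) := by
  rw [jacD_update, ← Matrix.cramer_apply, Matrix.cramer_eq_adjugate_mulVec, Matrix.inv_def,
    Ring.inverse_eq_inv, jacD, Matrix.mulVec, dotProduct, Finset.mul_sum]
  refine Finset.sum_congr rfl fun j _ => ?_
  rw [Matrix.smul_apply, smul_eq_mul, mul_assoc]

/-- The logarithmic derivations dual to an almost maximal tuple are almost contractive. -/
theorem log_bound {F : Type} [Field F] [Algebra k F] {m : ℕ} (w : RVal F)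
    (D : Fin m → Derivation k F F) (ε : ℝ) (f : Fin m → F) (hf : jacD D f ≠ 0)
    (hsup : ∀ h : Fin m → F, jacD D h ≠ 0 →
      ∑ i, w (h i) - w (jacD D h) < ∑ i, w (f i) - w (jacD D f) + ε) (l : Fin m) (g : F)
    (hg : f l * ∑ j, (Matrix.of fun j i => D j (f i))⁻¹ l j * D j g ≠ 0) :
    w g - w (f l * ∑ j, (Matrix.of fun j i => D j (f i))⁻¹ l j * D j g) ≤ ε := by
  rw [inv_mul_sum] at hg ⊢
  have hfl := ne_zero_of_jacD D f hf l
  have h1 : jacD D (Function.update f l g) ≠ 0 := by
    intro h0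
    rw [h0] at hg
    simp at hg
  have h2 := hsup _ h1
  rw [w.map_mul hfl (mul_ne_zero (inv_ne_zero hf) h1), w.map_mul (inv_ne_zero hf) h1,
    w.map_inv hf]
  have h3 : ∑ i, w (Function.update f l g i) = ∑ i, w (f i) - w (f l) + w g := by
    rw [← Finset.add_sum_erase _ _ (Finset.mem_univ l),
      ← Finset.add_sum_erase Finset.univ (fun i => w (f i)) (Finset.mem_univ l),
      Function.update_self]
    have : ∑ x ∈ Finset.univ.erase l, w (Function.update f l g x)
        = ∑ x ∈ Finset.univ.erase l, w (f x) :=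
      Finset.sum_congr rfl fun x hx => by rw [Function.update_of_ne (Finset.ne_of_mem_erase hx)]
    rw [this]
    ring
  rw [h3] at h2
  linarith

/-- A finite sum of derivations times constants. -/
theorem sum_smul_derivation_apply {Ω : Type} [Field Ω] [Algebra k Ω] {ι : Type*} (s : Finset ι)
    (a : ι → Ω) (D : ι → Derivation k Ω Ω) (x : Ω) :
    (∑ j ∈ s, a j • D j) x = ∑ j ∈ s, a j * D j x := by
  classical
  induction s using Finset.induction_on with
  | empty => simp
  | insert b s hb ih =>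
    rw [Finset.sum_insert hb, Finset.sum_insert hb, Derivation.add_apply, ih,
      Derivation.smul_apply, smul_eq_mul]

theorem vol_core {F Ω : Type} [Field F] [Field Ω] [Algebra k F] [Algebra F Ω] [Algebra k Ω]
    {m : ℕ} (w : RVal F) (W : RVal Ω) (D : Fin m → Derivation k F F)
    (D' : Fin m → Derivation k Ω Ω) (A : ℝ) (hA : ABd D w A) (t : Fin m → F)
    (ht : jacD D t ≠ 0) (hWw : ∀ x : F, x ≠ 0 → W (algebraMap F Ω x) = w x)
    (hDD' : ∀ j g, D' j (algebraMap F Ω g) = algebraMap F Ω (D j g)) (M₀ : Subfield Ω)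
    (hF : ∀ x : F, algebraMap F Ω x ∈ M₀)
    (hdense : ∀ x ∈ M₀, ∀ C : ℝ, ∃ a : F, W.Ge C (x - algebraMap F Ω a)) (C₁ : ℝ)
    (hbd : ∀ j, ∀ x ∈ M₀, D' j x ≠ 0 → W x - W (D' j x) ≤ C₁) (ε : ℝ) (hε : 0 < ε) :
    ∃ (E : Fin m → Derivation k Ω Ω) (c : Matrix (Fin m) (Fin m) Ω), c.det ≠ 0 ∧
      -A ≤ W c.det ∧ (∀ j g, D' j g = ∑ l, c j l * E l g) ∧
      ∀ l, ∀ x ∈ M₀, E l x ≠ 0 → W x - W (E l x) ≤ ε := by
  classical
  obtain ⟨f, hf, hsup⟩ := exists_near_sup w D A hA t ht ε hε
  have hf0 := ne_zero_of_jacD D f hf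
  set M : Matrix (Fin m) (Fin m) F := Matrix.of fun j i => D j (f i) with hM
  have hMdet : M.det = jacD D f := rfl
  have hMu : IsUnit M.det := isUnit_iff_ne_zero.2 hf
  set n : Fin m → Fin m → F := fun l j => f l * M⁻¹ l j with hn
  set E : Fin m → Derivation k Ω Ω := fun l => ∑ j, algebraMap F Ω (n l j) • D' j with hE
  have hEx : ∀ l x, E l x = ∑ j, algebraMap F Ω (n l j) * D' j x := fun l x =>
    sum_smul_derivation_apply _ _ _ _
  have hEF : ∀ l g, E l (algebraMap F Ω g) = algebraMap F Ω (f l * ∑ j, M⁻¹ l j * D j g) := by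
    intro l g
    rw [hEx, Finset.mul_sum, map_sum]
    refine Finset.sum_congr rfl fun j _ => ?_
    rw [hDD', ← _root_.map_mul, hn]
    simp only
    rw [mul_assoc]
  -- the matrix
  set c₀ : Matrix (Fin m) (Fin m) F := M * Matrix.diagonal fun l => (f l)⁻¹ with hc₀
  have hc₀det : c₀.det = jacD D f * ∏ l, (f l)⁻¹ := by
    rw [hc₀, Matrix.det_mul, Matrix.det_diagonal, hMdet]
  have hprod : ∏ l, (f l)⁻¹ ≠ 0 := Finset.prod_ne_zero_iff.2 fun l _ => inv_ne_zero (hf0 l)
  have hc₀ne : c₀.det ≠ 0 := by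
    rw [hc₀det]
    exact mul_ne_zero hf hprod
  have hcdet : (c₀.map (algebraMap F Ω)).det = algebraMap F Ω c₀.det := by
    rw [← RingHom.mapMatrix_apply, ← RingHom.map_det]
  refine ⟨E, c₀.map (algebraMap F Ω), ?_, ?_, ?_, ?_⟩
  · rw [hcdet]
    exact (map_ne_zero _).2 hc₀ne
  · rw [hcdet, hWw _ hc₀ne, hc₀det, w.map_mul hf hprod, w.map_prod _ _ fun l _ =>
      inv_ne_zero (hf0 l)]
    have h1 : ∑ i, w (f i)⁻¹ = -∑ i, w (f i) := by
      rw [← Finset.sum_neg_distrib]
      exact Finset.sum_congr rfl fun i _ => w.map_inv (hf0 i)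
    rw [h1]
    have := hA f hf
    linarith
  · intro j g
    have h1 : ∀ l, (c₀.map (algebraMap F Ω)) j l * E l g
        = ∑ i, algebraMap F Ω (M j l * M⁻¹ l i) * D' i g := by
      intro l
      rw [Matrix.map_apply, hc₀, Matrix.mul_diagonal, hEx, Finset.mul_sum]
      refine Finset.sum_congr rfl fun i _ => ?_
      rw [← mul_assoc, ← _root_.map_mul]
      congr 2
      rw [hn]
      have := hf0 l
      field_simp
    rw [Finset.sum_congr rfl fun l _ => h1 l, Finset.sum_comm]
    have h2 : ∀ i, ∑ l, algebraMap F Ω (M j l * M⁻¹ l i) * D' i g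
        = (if j = i then 1 else 0) * D' i g := by
      intro i
      rw [← Finset.sum_mul, ← map_sum, ← Matrix.mul_apply, Matrix.mul_nonsing_inv _ hMu,
        Matrix.one_apply]
      split_ifs <;> simp
    rw [Finset.sum_congr rfl fun i _ => h2 i]
    simp
  · intro l x hx hEne
    have hx0 : x ≠ 0 := by
      rintro rfl
      exact hEne (_root_.map_zero _)
    -- a bound on `M₀`
    set C₂ : ℝ := C₁ + ∑ j, |W (algebraMap F Ω (n l j))| with hC₂
    have hcrude : ∀ y ∈ M₀, W.Ge (W y - C₂) (E l y) := by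
      intro y hy
      rw [hEx]
      refine RVal.Ge.sum _ _ fun j _ => ?_
      intro hne
      have hn0 := left_ne_zero_of_mul hne
      have hD0 := right_ne_zero_of_mul hne
      rw [W.map_mul hn0 hD0]
      have h1 := hbd j y hy hD0
      have h2 : |W (algebraMap F Ω (n l j))| ≤ ∑ j, |W (algebraMap F Ω (n l j))| :=
        Finset.single_le_sum (f := fun j => |W (algebraMap F Ω (n l j))|)
          (fun i _ => abs_nonneg _) (Finset.mem_univ j)
      have h3 := neg_abs_le (W (algebraMap F Ω (n l j)))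
      linarith
    have hbF : ∀ a : F, W.Ge (W (algebraMap F Ω a) - ε) (E l (algebraMap F Ω a)) := by
      intro a hne
      rw [hEF] at hne ⊢
      have hne' : f l * ∑ j, M⁻¹ l j * D j a ≠ 0 := by
        intro h0
        rw [h0, _root_.map_zero] at hne
        exact hne rfl
      have ha0 : a ≠ 0 := by
        rintro rfl
        apply hne'
        simp
      rw [hWw _ hne', hWw _ ha0]
      have := log_bound w D ε f hf hsup l a hne'
      linarith
    obtain ⟨a, ha⟩ := hdense x hx (max (W x + 1) (W x + C₂))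
    have hfin : W.Ge (W x - ε) (E l x) := by
      by_cases hy : x - algebraMap F Ω a = 0
      · have hxa : x = algebraMap F Ω a := sub_eq_zero.1 hy
        have := hbF a
        rw [← hxa] at this
        exact this
      · have h1 := ha hy
        have h2 : W x + 1 ≤ W (x - algebraMap F Ω a) := (le_max_left _ _).trans h1
        have h3 : W x + C₂ ≤ W (x - algebraMap F Ω a) := (le_max_right _ _).trans h1
        have h4 := W.add_of_lt hx0 (neg_ne_zero.2 hy) (by rw [W.map_neg _ hy]; linarith)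
        have h5 : x + -(x - algebraMap F Ω a) = algebraMap F Ω a := by ring
        rw [h5] at h4
        have h6 : E l x = E l (algebraMap F Ω a) + E l (x - algebraMap F Ω a) := by
          rw [← _root_.map_add]
          congr 1
          ring
        rw [h6]
        refine RVal.Ge.add ?_ ?_
        · have := hbF a
          rw [h4.2] at this
          exact this
        · refine (hcrude _ (M₀.sub_mem hx (hF a))).mono ?_
          linarith
    have := hfin hEne
    linarith

end Pool.Agent.JM69
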